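import Pool.Agent.Helper29.PF.Modes
import Pool.Agent.Helper9.RS.N

/-!
# Systems of equations in forms: systems of dimension at most one
-/

set_option autoImplicit false

namespace Pool.Agent.Helper29.PF

open Pool.Agent.Helper29.CQ
open MvPolynomial (aeval C X monomial)

variable {p : ℕ} {P : ∀ (A : Type) [CommRing A], Prop} {k : Type} [Field k] {s : ℕ}

/-- the substitution of powers does not increase the dimension -/
theorem dim_eqP (d : Fin s → ℕ) (hd : ∀ j, d j ≠ 0) (V : Set (MvPolynomial (Fin s) k))
    (S : Set (Fin s)) : ringKrullDim (MvPolynomial (Fin s) k ⧸ Ideal.span (EqP d V S)) ≤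
      ringKrullDim (MvPolynomial (Fin s) k ⧸ Ideal.span V) := by
  set B := MvPolynomial (Fin s) k ⧸ Ideal.span V
  set E := MvPolynomial (Fin s) k ⧸ Ideal.span (EqP d V S) with hE
  let g : MvPolynomial (Fin s) k →ₐ[k] E :=
    (Ideal.Quotient.mkₐ k (Ideal.span (EqP d V S))).comp (aeval fun j => X j ^ d j)
  have hg : ∀ a ∈ Ideal.span V, g a = 0 := by
    intro a ha
    have h2 : Ideal.span V ≤ RingHom.ker g := by
      rw [Ideal.span_le]
      intro q hq
      exact Ideal.Quotient.eq_zero_iff_mem.2 (Ideal.subset_span (Or.inl ⟨q, hq, rfl⟩))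
    exact h2 ha
  let f : B →ₐ[k] E := Ideal.Quotient.liftₐ (Ideal.span V) g hg
  let _ : Algebra B E := (f : B →+* E).toAlgebra
  have _ : IsScalarTower k B E := IsScalarTower.of_algebraMap_eq fun r => (f.commutes r).symm
  have hfX : ∀ j, f (Ideal.Quotient.mk _ (X j)) = (Ideal.Quotient.mk _ (X j) : E) ^ d j := by
    intro j
    change Ideal.Quotient.mkₐ k (Ideal.span (EqP d V S)) (aeval (fun j => X j ^ d j) (X j)) = _
    rw [MvPolynomial.aeval_X, map_pow]
    rfl
  have hint : Algebra.IsIntegral B E := by
    refine ⟨fun x => ?_⟩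
    obtain ⟨q, rfl⟩ := Ideal.Quotient.mk_surjective x
    have h3 : ∀ j, IsIntegral B (Ideal.Quotient.mk (Ideal.span (EqP d V S)) (X j)) := by
      intro j
      refine IsIntegral.of_pow (Nat.pos_of_ne_zero (hd j)) ?_
      rw [← hfX j]
      exact isIntegral_algebraMap (R := B) (A := E)
    have h4 : Ideal.Quotient.mk (Ideal.span (EqP d V S)) q =
        aeval (fun j => (Ideal.Quotient.mk (Ideal.span (EqP d V S)) (X j) : E)) q := by
      have h5 := MvPolynomial.comp_aeval_apply (R := k) (X : Fin s → MvPolynomial (Fin s) k)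
        (Ideal.Quotient.mkₐ k (Ideal.span (EqP d V S))) q
      rw [MvPolynomial.aeval_X_left, AlgHom.id_apply] at h5
      exact h5
    rw [h4]
    induction q using MvPolynomial.induction_on with
    | C r =>
      rw [MvPolynomial.aeval_C, IsScalarTower.algebraMap_apply k B E]
      exact isIntegral_algebraMap
    | add q q' h h' =>
      rw [map_add]
      refine IsIntegral.add (h ?_) (h' ?_)
      · have h5 := MvPolynomial.comp_aeval_apply (R := k) (X : Fin s → MvPolynomial (Fin s) k)
          (Ideal.Quotient.mkₐ k (Ideal.span (EqP d V S))) q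
        rw [MvPolynomial.aeval_X_left, AlgHom.id_apply] at h5
        exact h5
      · have h5 := MvPolynomial.comp_aeval_apply (R := k) (X : Fin s → MvPolynomial (Fin s) k)
          (Ideal.Quotient.mkₐ k (Ideal.span (EqP d V S))) q'
        rw [MvPolynomial.aeval_X_left, AlgHom.id_apply] at h5
        exact h5
    | mul_X q j h =>
      rw [map_mul, MvPolynomial.aeval_X]
      refine IsIntegral.mul (h ?_) (h3 j)
      have h5 := MvPolynomial.comp_aeval_apply (R := k) (X : Fin s → MvPolynomial (Fin s) k)
        (Ideal.Quotient.mkₐ k (Ideal.span (EqP d V S))) q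
      rw [MvPolynomial.aeval_X_left, AlgHom.id_apply] at h5
      exact h5
  exact Pool.Agent.Helper9.RS.ringKrullDim_le_of_integral hint

/-- **base systems of dimension at most one** -/
theorem curve_base [Finite k] (hP : FormalClass p P) (hk : (p : k) = 0) (d : Fin s → ℕ)
    (hd : ∀ j, d j ≠ 0) (V : Set (MvPolynomial (Fin s) k))
    (hV : ringKrullDim (MvPolynomial (Fin s) k ⧸ Ideal.span V) ≤ 1) (S : Set (Fin s)) :
    P (MvPolynomial (Fin s) k ⧸ Ideal.span (EqP d V S)) := by
  refine hP.curve _ ?_ (char0 hk) ((dim_eqP d hd V S).trans hV)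
  exact ftZ ((inferInstance : Algebra.FiniteType k (MvPolynomial (Fin s) k)).of_surjective
    (Ideal.Quotient.mkₐ k _) (Ideal.Quotient.mkₐ_surjective k _))

end Pool.Agent.Helper29.PF
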