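import Pool.Agent.Helper67.SF.Defs
import Pool.Agent.Helper29.CQ.Defs

/-!
# Systems of equations in forms: definitions
-/

set_option autoImplicit false

namespace Pool.Agent.Helper29.PF

open MvPolynomial

/-- A system of `r` equations `∑ j, c_j a_j ^ m b_j ^ (r - 1 - m) x ^ {α_j} = 0`, `0 ≤ m < r`, with
affinely independent exponents `α_j`: the vectors of coefficients lie on the cone over the rational
normal curve. -/
def IsNormal {k : Type} [Field k] {s : ℕ} (V : Set (MvPolynomial (Fin s) k)) : Prop :=
  ∃ (J : Type) (_ : Fintype J) (α : J → Fin s →₀ ℕ) (c a b : J → k) (r : ℕ),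
    AffineIndependent ℚ (fun (j : J) (i : Fin s) => ((α j i : ℕ) : ℚ)) ∧
    V = Set.range fun m : Fin r =>
      ∑ j, monomial (α j) (c j * a j ^ (m : ℕ) * b j ^ (r - 1 - (m : ℕ)))

/-- The zeros of the system have dimension at most one, or the system generates the same ideal as
a normal system over a finite extension of the field. -/
def IsGoodSystem {k : Type} [Field k] {s : ℕ} (V : Set (MvPolynomial (Fin s) k)) : Prop :=
  ringKrullDim (MvPolynomial (Fin s) k ⧸ Ideal.span V) ≤ 1 ∨
  ∃ (K : Type) (_ : Field K) (_ : Finite K) (_ : Algebra k K) (W : Set (MvPolynomial (Fin s) K)),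
    IsNormal W ∧ Ideal.span W = Ideal.span (map (algebraMap k K) '' V)

end Pool.Agent.Helper29.PF
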