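import Pool.Agent.Helper87.CC.Prod

/-!
# Systems of equations in forms: definitions
-/

set_option autoImplicit false

namespace Pool.Agent.Helper29.PF

open MvPolynomial
open Pool.Agent.Helper87.CC (ProductFunctions)

/-- The composition `H(F_1, ..., F_s)` of a polynomial `H` over `T` and polynomials `F_j` over `k`
in disjoint sets of variables. -/
noncomputable def compT {k T : Type} [Field k] [CommRing T] [Algebra k T] {s : ℕ}
    {σ : Fin s → Type} (H : MvPolynomial (Fin s) T) (F : ∀ j, MvPolynomial (σ j) k) :
    MvPolynomial (Σ j, σ j) T :=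
  aeval (fun j => map (algebraMap k T) (rename (Sigma.mk j) (F j))) H

/-- A system of `r` equations `∑ j, c_j a_j ^ m b_j ^ (r - 1 - m) x ^ {α_j} = 0`, `0 ≤ m < r`, over
a ring `T` of characteristic `p`, with affinely independent exponents `α_j`, coefficients `c_j`
which are products of functions on curves, and `a_j`, `b_j` in a finite field `K` which acts
on `T`. -/
def IsNormal (p : ℕ) {T : Type} [CommRing T] {s : ℕ} (V : Set (MvPolynomial (Fin s) T)) : Prop :=
  ∃ (K : Type) (_ : Field K) (_ : Finite K) (_ : Algebra K T) (J : Type) (_ : Fintype J)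
    (α : J → Fin s →₀ ℕ) (c : J → T) (a b : J → K) (r : ℕ), ProductFunctions p J T c ∧
    AffineIndependent ℚ (fun (j : J) (i : Fin s) => ((α j i : ℕ) : ℚ)) ∧
    V = Set.range fun m : Fin r => ∑ j, monomial (α j)
      (c j * algebraMap K T (a j ^ (m : ℕ) * b j ^ (r - 1 - (m : ℕ))))

/-- The zeros of the system over `T` have dimension at most one, or the system generates the same
ideal as a normal system over a nonzero finite free algebra over `T`. -/
def IsGoodSystem (p : ℕ) {T : Type} [CommRing T] {s : ℕ} (V : Set (MvPolynomial (Fin s) T)) :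
    Prop :=
  ringKrullDim (MvPolynomial (Fin s) T ⧸ Ideal.span V) ≤ 1 ∨
  ∃ (T' : Type) (_ : CommRing T') (_ : Algebra T T') (_ : Nontrivial T') (_ : Module.Free T T')
    (_ : Module.Finite T T') (W : Set (MvPolynomial (Fin s) T')), IsNormal p W ∧
    Ideal.span W = Ideal.span (map (algebraMap T T') '' V)

end Pool.Agent.Helper29.PF
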