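import Pool.Agent.Helper29.PF.Zf
import Pool.Agent.Helper87.CC.Push

/-!
# Systems of equations: descent from finite extensions of the field
-/

set_option autoImplicit false

namespace Pool.Agent.Helper29.PF

open Pool.Agent.Helper29.CQ Pool.Agent.Helper87.CC
open MvPolynomial (C X map)
open TensorProduct

variable {p : ℕ} {P : ∀ (A : Type) [CommRing A], Prop} {k K : Type} [Field k] [Field K]
  [Algebra k K]

/-- **descent** -/
theorem descend [Finite k] [Finite K] (hP : FormalClass p P) (hk : (p : k) = 0) {σ : Type}
    [Finite σ] (E : Set (MvPolynomial σ k))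
    (h : P (MvPolynomial σ K ⧸ Ideal.span (map (algebraMap k K) '' E))) :
    P (MvPolynomial σ k ⧸ Ideal.span E) := by
  set A := MvPolynomial σ k ⧸ Ideal.span E with hA
  have hft : Algebra.FiniteType ℤ A := ftZ ((inferInstance :
    Algebra.FiniteType k (MvPolynomial σ k)).of_surjective
      (Ideal.Quotient.mkₐ k _) (Ideal.Quotient.mkₐ_surjective k _))
  cases subsingleton_or_nontrivial A
  · exact (kops hP hk).zero A inferInstance
  have h1 : IsPush (RingHom.id k) (algebraMap k K) (algebraMap k K) (RingHom.id K) :=
    { comm := by rw [RingHom.comp_id, RingHom.id_comp]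
      ex := fun E _ f g hfg => ⟨g, by rw [← hfg, RingHom.comp_id], RingHom.comp_id g⟩
      uniq := fun E _ f g _ h => by rwa [RingHom.comp_id, RingHom.comp_id] at h }
  obtain ⟨u, hu⟩ := h1.pq E
  rw [RingHom.comp_id, RingHom.comp_id] at hu
  have h2 := isPush_tensor (R := k) (A := A) (K := K)
  obtain ⟨e, -⟩ := IsPush.equiv (a := pqC E) hu h2
  have h3 : P (K ⊗[k] A) := hP.iso _ _ e h
  have h4 : P (A ⊗[k] K) := hP.iso _ _ (Algebra.TensorProduct.comm k K A).toRingEquiv h3
  have : Module.Finite k K := Module.Finite.of_finite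
  have : Nontrivial (A ⊗[k] K) :=
    (Algebra.TensorProduct.includeLeft_injective (R := k) (S := k) (A := A) (B := K)
      (algebraMap k K).injective).nontrivial
  exact hP.transfer A (A ⊗[k] K) hft h4

end Pool.Agent.Helper29.PF
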