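import Pool.Agent.Helper29.PF.Sys

/-!
# Systems in forms: variables which are zero, and the main theorem
-/

set_option autoImplicit false

namespace Pool.Agent.Helper29.PF

open Pool.Agent.Helper29.CQ Pool.Agent.Helper65.CC Pool.Agent.Helper87.CC
open Pool.Agent.Helper65.CC.KFn
open MvPolynomial (aeval C X monomial)

variable {p : ℕ} {P : ∀ (A : Type) [CommRing A], Prop} {k : Type} [Field k]
variable {J : Type} [Fintype J] {m : ℕ}

/-- the points with given properties such that some variables are zero -/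
def ZT (Φ : ∀ {R : Type} [CommRing R] [Algebra k R], (Fin m → R) → Prop)
    (hΦ : ∀ {R S : Type} [CommRing R] [CommRing S] [Algebra k R] [Algebra k S] (f : R →ₐ[k] S)
      (x : Fin m → R), Φ x → Φ (fun i => f (x i))) (T : Finset (Fin m)) : KFn k where
  obj R _ _ := {x : Fin m → R // Φ x ∧ ∀ l ∈ T, x l = 0}
  map f x := ⟨fun i => f (x.1 i), hΦ f x.1 x.2.1, fun l hl => (congrArg f (x.2.2 l hl)).trans
    (map_zero f)⟩
  id_map _ := rfl
  comp_map _ _ _ := rfl

/-- drop a variable -/
def ztLine (Φ : ∀ {R : Type} [CommRing R] [Algebra k R], (Fin m → R) → Prop)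
    (hΦ : ∀ {R S : Type} [CommRing R] [CommRing S] [Algebra k R] [Algebra k S] (f : R →ₐ[k] S)
      (x : Fin m → R), Φ x → Φ (fun i => f (x i))) {T : Finset (Fin m)} {l : Fin m} (hl : l ∉ T)
    (h : ∀ {R : Type} [CommRing R] [Algebra k R] (x : Fin m → R) (v : R), Φ x →
      Φ (Function.update x l v)) :
    Iso (ZT Φ hΦ (insert l T)).line (ZT Φ hΦ T) where
  hom x := ⟨Function.update x.1.1 l x.2, h x.1.1 x.2 x.1.2.1, fun i hi => by
    have hil : i ≠ l := fun h => hl (h ▸ hi)
    rw [Function.update_of_ne hil]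
    exact x.1.2.2 i (Finset.mem_insert_of_mem hi)⟩
  inv y := (⟨Function.update y.1 l 0, h y.1 0 y.2.1, fun i hi => by
    rcases Finset.mem_insert.1 hi with rfl | hi
    · rw [Function.update_self]
    · have hil : i ≠ l := fun h => hl (h ▸ hi)
      rw [Function.update_of_ne hil]
      exact y.2.2 i hi⟩, y.1 l)
  inv_hom x := by
    refine Prod.ext (Subtype.ext ?_) ?_
    · change Function.update (Function.update x.1.1 l x.2) l 0 = x.1.1
      rw [Function.update_idem]
      funext i
      by_cases hi : i = l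
      · subst hi
        rw [Function.update_self]
        exact (x.1.2.2 i (Finset.mem_insert_self _ _)).symm
      · rw [Function.update_of_ne hi]
    · exact Function.update_self _ _ _
  hom_inv y := by
    apply Subtype.ext
    change Function.update (Function.update y.1 l 0) l (y.1 l) = y.1
    rw [Function.update_idem, Function.update_eq_self]
  nat f x := by
    apply Subtype.ext
    funext i
    change f (Function.update x.1.1 l x.2 i) = Function.update (fun i => f (x.1.1 i)) l (f x.2) i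
    by_cases hi : i = l
    · subst hi
      rw [Function.update_self, Function.update_self]
    · rw [Function.update_of_ne hi, Function.update_of_ne hi]

theorem mem_zt (hP : StableClass p P)
    (Φ : ∀ {R : Type} [CommRing R] [Algebra k R], (Fin m → R) → Prop)
    (hΦ : ∀ {R S : Type} [CommRing R] [CommRing S] [Algebra k R] [Algebra k S] (f : R →ₐ[k] S)
      (x : Fin m → R), Φ x → Φ (fun i => f (x i))) (S : Finset (Fin m))
    (h : ∀ l ∈ S, ∀ {R : Type} [CommRing R] [Algebra k R] (x : Fin m → R) (v : R), Φ x →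
      Φ (Function.update x l v)) (h0 : (ZT Φ hΦ ∅).Mem (Pk P k)) :
    (ZT Φ hΦ S).Mem (Pk P k) := by
  have key : ∀ T : Finset (Fin m), T ⊆ S → (ZT Φ hΦ T).Mem (Pk P k) := by
    intro T
    induction T using Finset.induction_on with
    | empty => exact fun _ => h0
    | insert l T hl ih =>
      intro hT
      refine mem_unline hP (Mem.of_iso (ztLine Φ hΦ hl ?_) (ih fun i hi => hT
        (Finset.mem_insert_of_mem hi)))
      exact h l (hT (Finset.mem_insert_self _ _))
  exact key S fun _ h => h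

/-- the equations -/
noncomputable def sysE (α : J → Fin m →₀ ℕ) (t s c : J → k) (n : ℕ) :
    Set (MvPolynomial (Fin m) k) :=
  Set.range fun i : Fin (n + 1) => ∑ j, monomial (α j) (c j * t j ^ (i : ℕ) * s j ^ (n - i))

theorem aeval_term {R : Type} [CommRing R] [Algebra k R] (x : Fin m → R) (a : Fin m →₀ ℕ)
    (c : k) : aeval x (monomial a c) = algebraMap k R c * ∏ l, x l ^ a l := by
  rw [MvPolynomial.aeval_monomial, Finsupp.prod_fintype _ _ fun i => pow_zero _]

omit [Fintype J] in
theorem affine_mul {α : J → Fin m →₀ ℕ}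
    (hα : AffineIndependent ℚ (fun (j : J) (i : Fin m) => ((α j i : ℕ) : ℚ))) {d : Fin m → ℕ}
    (hd : ∀ i, d i ≠ 0) :
    AffineIndependent ℚ (fun (j : J) (i : Fin m) =>
      (((Finsupp.equivFunOnFinite.symm fun l => d l * α j l : Fin m →₀ ℕ) i : ℕ) : ℚ)) := by
  rw [affineIndependent_iff] at hα ⊢
  intro S w h1 h2
  refine hα S w h1 ?_
  funext i
  have h3 := congrFun h2 i
  rw [Finset.sum_apply] at h3 ⊢
  have h4 : (d i : ℚ) ≠ 0 := by exact_mod_cast hd i
  have h5 : (d i : ℚ) * ∑ c ∈ S, (w c • fun i : Fin m => ((α c i : ℕ) : ℚ)) i = 0 := by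
    rw [Finset.mul_sum]
    refine Eq.trans (Finset.sum_congr rfl fun j _ => ?_) h3
    simp
    ring
  exact (mul_eq_zero.1 h5).resolve_left h4

/-- **the base systems** -/
theorem mem_base [Finite k] (hP : StableClass p P) (hk : (p : k) = 0) {α : J → Fin m →₀ ℕ}
    {t s : J → k} {d : Fin m → ℕ} (hd : ∀ i, d i ≠ 0)
    (h : ∀ (n : ℕ) (c : J → k), P (MvPolynomial (Fin n ⊕ Fin m) k ⧸
      Ideal.span {parE (fun j l => d l * α j l) t s c n})) (c : J → k) (n : ℕ)
    (S : Set (Fin m)) : (Zf (EqP d (sysE α t s c n) S)).Mem (Pk P k) := by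
  classical
  set c' : J → k := fun j => if ∃ l ∈ S, α j l ≠ 0 then 0 else c j with hc'
  have hc0 : ∀ j, ∀ l ∈ S, c' j ≠ 0 → α j l = 0 := by
    intro j l hl hj
    by_contra hcon
    exact hj (if_pos ⟨l, hl, hcon⟩)
  let Φ : ∀ {R : Type} [CommRing R] [Algebra k R], (Fin m → R) → Prop := fun {R} _ _ x =>
    ∀ i < n + 1, ∑ j, algebraMap k R (c' j * t j ^ i * s j ^ (n - i)) *
      ∏ l, x l ^ (d l * α j l) = 0
  have hΦ : ∀ {R S : Type} [CommRing R] [CommRing S] [Algebra k R] [Algebra k S] (f : R →ₐ[k] S)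
      (x : Fin m → R), Φ x → Φ (fun i => f (x i)) := by
    intro R S _ _ _ _ f x hx i hi
    have h1 := congrArg f (hx i hi)
    rw [map_sum, map_zero] at h1
    refine Eq.trans (Finset.sum_congr rfl fun j _ => ?_) h1
    rw [map_mul f, f.commutes, map_prod]
    congr 1
    refine Finset.prod_congr rfl fun l _ => ?_
    rw [map_pow]
  have hu : ∀ l ∈ S, ∀ {R : Type} [CommRing R] [Algebra k R] (x : Fin m → R) (v : R), Φ x →
      Φ (Function.update x l v) := by
    intro l hl R _ _ x v hx i hi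
    refine Eq.trans (Finset.sum_congr rfl fun j _ => ?_) (hx i hi)
    by_cases hj : c' j = 0
    · rw [hj]
      simp
    · congr 1
      refine Finset.prod_congr rfl fun l' _ => ?_
      by_cases hll : l' = l
      · subst hll
        rw [hc0 j l' hl hj, mul_zero, pow_zero, pow_zero]
      · rw [Function.update_of_ne hll]
  have h0 : (ZT Φ hΦ ∅).Mem (Pk P k) := by
    refine Mem.of_iso ?_ (mem_sys (fun j l => d l * α j l) t s hP hk h n c')
    exact
      { hom := fun x => ⟨⟨x.1, fun _ h => absurd h (Set.notMem_empty _)⟩, x.2.1⟩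
        inv := fun x => ⟨x.1.1, x.2, fun _ h => absurd h (Finset.notMem_empty _)⟩
        inv_hom := fun _ => rfl
        hom_inv := fun _ => rfl
        nat := fun _ _ => rfl }
  have h1 := mem_zt hP Φ hΦ S.toFinset (fun l hl => hu l (Set.mem_toFinset.1 hl)) h0
  have key : ∀ {R : Type} [CommRing R] [Algebra k R] (x : Fin m → R), (∀ l ∈ S, x l = 0) →
      ∀ i : ℕ, aeval (fun l => x l ^ d l)
        (∑ j, monomial (α j) (c j * t j ^ i * s j ^ (n - i)) : MvPolynomial (Fin m) k) =
          ∑ j, algebraMap k R (c' j * t j ^ i * s j ^ (n - i)) * ∏ l, x l ^ (d l * α j l) := by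
    intro R _ _ x hx i
    rw [map_sum]
    refine Finset.sum_congr rfl fun j _ => ?_
    rw [aeval_term]
    have h3 : ∏ l, (x l ^ d l) ^ α j l = ∏ l, x l ^ (d l * α j l) :=
      Finset.prod_congr rfl fun l _ => (pow_mul _ _ _).symm
    rw [h3]
    by_cases hj : ∃ l ∈ S, α j l ≠ 0
    · obtain ⟨l, hl, hl0⟩ := hj
      have h4 : ∏ l, x l ^ (d l * α j l) = 0 := by
        refine Finset.prod_eq_zero (Finset.mem_univ l) ?_
        rw [hx l hl, zero_pow (mul_ne_zero (hd l) hl0)]
      rw [h4, mul_zero, mul_zero]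
    · have h4 : c' j = c j := if_neg hj
      rw [h4]
  refine Mem.of_iso ?_ h1
  exact
    { hom := fun x => ⟨x.1, fun i hi => by
        have h2 := (eqP_iff d (sysE α t s c n) S x.1).1 x.2
        rw [← key x.1 h2.2 i]
        exact h2.1 _ ⟨⟨i, hi⟩, rfl⟩, fun l hl =>
          ((eqP_iff d (sysE α t s c n) S x.1).1 x.2).2 l (Set.mem_toFinset.1 hl)⟩
      inv := fun y => ⟨y.1, (eqP_iff d (sysE α t s c n) S y.1).2 ⟨by
        rintro q ⟨i, rfl⟩
        have h2 : ∀ l ∈ S, y.1 l = 0 := fun l hl => y.2.2 l (Set.mem_toFinset.2 hl)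
        exact (key y.1 h2 i).trans (y.2.1 i i.2), fun l hl => y.2.2 l (Set.mem_toFinset.2 hl)⟩⟩
      inv_hom := fun _ => rfl
      hom_inv := fun _ => rfl
      nat := fun _ _ => rfl }

/-- **systems of equations in forms** -/
theorem main_sys [Finite k] (hP : StableClass p P) (hk : (p : k) = 0) {σ : Fin m → Type}
    [∀ j, Fintype (σ j)] {F : ∀ j, MvPolynomial (σ j) k} {d : Fin m → ℕ}
    (hF : ∀ j, Pool.Agent.Helper67.CQ.GoodD P (F j) (d j)) {α : J → Fin m →₀ ℕ} {t s : J → k}
    (h : ∀ (n : ℕ) (c : J → k), P (MvPolynomial (Fin n ⊕ Fin m) k ⧸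
      Ideal.span {parE (fun j l => d l * α j l) t s c n})) (c : J → k) (n : ℕ) :
    P (MvPolynomial (Σ j, σ j) k ⧸ Ideal.span (EqF F (sysE α t s c n))) :=
  forms_mem F d (sysE α t s c n) hP.toFormalClass hk hF fun S =>
    of_mem_Zf (mem_base hP hk (fun i => (hF i).1) h c n S)

end Pool.Agent.Helper29.PF
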