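import Pool.Agent.Helper29.PF.SysT

/-!
# Systems over an algebra: powers of variables and variables which are zero
-/

set_option autoImplicit false

namespace Pool.Agent.Helper29.PF

open Pool.Agent.Helper29.CQ Pool.Agent.Helper65.CC Pool.Agent.Helper87.CC
open Pool.Agent.Helper65.CC.KFn
open MvPolynomial (aeval eval₂ C X monomial)

variable {p : ℕ} {P : ∀ (A : Type) [CommRing A], Prop} {k : Type} [Field k] {m : ℕ}

/-- the points with given properties such that some variables are zero -/
def ZG (G : KFn k) (Φ : ∀ {R : Type} [CommRing R] [Algebra k R], G.obj R × (Fin m → R) → Prop)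
    (hΦ : ∀ {R S : Type} [CommRing R] [CommRing S] [Algebra k R] [Algebra k S] (f : R →ₐ[k] S)
      (x : G.obj R × (Fin m → R)), Φ x → Φ (G.map f x.1, fun i => f (x.2 i)))
    (T : Finset (Fin m)) : KFn k where
  obj R _ _ := {x : G.obj R × (Fin m → R) // Φ x ∧ ∀ l ∈ T, x.2 l = 0}
  map f x := ⟨(G.map f x.1.1, fun i => f (x.1.2 i)), hΦ f x.1 x.2.1, fun l hl =>
    (congrArg f (x.2.2 l hl)).trans (map_zero f)⟩
  id_map x := Subtype.ext (Prod.ext (G.id_map x.1.1) rfl)
  comp_map f g x := Subtype.ext (Prod.ext (G.comp_map f g x.1.1) rfl)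

/-- drop a variable -/
def zgLine (G : KFn k)
    (Φ : ∀ {R : Type} [CommRing R] [Algebra k R], G.obj R × (Fin m → R) → Prop)
    (hΦ : ∀ {R S : Type} [CommRing R] [CommRing S] [Algebra k R] [Algebra k S] (f : R →ₐ[k] S)
      (x : G.obj R × (Fin m → R)), Φ x → Φ (G.map f x.1, fun i => f (x.2 i)))
    {T : Finset (Fin m)} {l : Fin m} (hl : l ∉ T)
    (h : ∀ {R : Type} [CommRing R] [Algebra k R] (x : G.obj R × (Fin m → R)) (v : R), Φ x →
      Φ (x.1, Function.update x.2 l v)) :
    Iso (ZG G Φ hΦ (insert l T)).line (ZG G Φ hΦ T) where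
  hom x := ⟨(x.1.1.1, Function.update x.1.1.2 l x.2), h x.1.1 x.2 x.1.2.1, fun i hi => by
    have hil : i ≠ l := fun h => hl (h ▸ hi)
    change Function.update x.1.1.2 l x.2 i = 0
    rw [Function.update_of_ne hil]
    exact x.1.2.2 i (Finset.mem_insert_of_mem hi)⟩
  inv y := (⟨(y.1.1, Function.update y.1.2 l 0), h y.1 0 y.2.1, fun i hi => by
    change Function.update y.1.2 l 0 i = 0
    rcases Finset.mem_insert.1 hi with rfl | hi
    · rw [Function.update_self]
    · have hil : i ≠ l := fun h => hl (h ▸ hi)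
      rw [Function.update_of_ne hil]
      exact y.2.2 i hi⟩, y.1.2 l)
  inv_hom x := by
    refine Prod.ext (Subtype.ext (Prod.ext rfl ?_)) ?_
    · change Function.update (Function.update x.1.1.2 l x.2) l 0 = x.1.1.2
      rw [Function.update_idem]
      funext i
      by_cases hi : i = l
      · subst hi
        rw [Function.update_self]
        exact (x.1.2.2 i (Finset.mem_insert_self _ _)).symm
      · rw [Function.update_of_ne hi]
    · exact Function.update_self _ _ _
  hom_inv y := by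
    apply Subtype.ext
    refine Prod.ext rfl ?_
    change Function.update (Function.update y.1.2 l 0) l (y.1.2 l) = y.1.2
    rw [Function.update_idem, Function.update_eq_self]
  nat f x := by
    apply Subtype.ext
    refine Prod.ext rfl ?_
    funext i
    change f (Function.update x.1.1.2 l x.2 i) =
      Function.update (fun i => f (x.1.1.2 i)) l (f x.2) i
    by_cases hi : i = l
    · subst hi
      rw [Function.update_self, Function.update_self]
    · rw [Function.update_of_ne hi, Function.update_of_ne hi]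

theorem mem_zg (hP : StableClass p P) (G : KFn k)
    (Φ : ∀ {R : Type} [CommRing R] [Algebra k R], G.obj R × (Fin m → R) → Prop)
    (hΦ : ∀ {R S : Type} [CommRing R] [CommRing S] [Algebra k R] [Algebra k S] (f : R →ₐ[k] S)
      (x : G.obj R × (Fin m → R)), Φ x → Φ (G.map f x.1, fun i => f (x.2 i)))
    (S : Finset (Fin m))
    (h : ∀ l ∈ S, ∀ {R : Type} [CommRing R] [Algebra k R] (x : G.obj R × (Fin m → R)) (v : R),
      Φ x → Φ (x.1, Function.update x.2 l v))
    (h0 : (ZG G Φ hΦ ∅).Mem (Pk P k)) : (ZG G Φ hΦ S).Mem (Pk P k) := by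
  have key : ∀ T : Finset (Fin m), T ⊆ S → (ZG G Φ hΦ T).Mem (Pk P k) := by
    intro T
    induction T using Finset.induction_on with
    | empty => exact fun _ => h0
    | insert l T hl ih =>
      intro hT
      refine mem_unline hP (Mem.of_iso (zgLine G Φ hΦ hl ?_) (ih fun i hi => hT
        (Finset.mem_insert_of_mem hi)))
      exact h l (hT (Finset.mem_insert_self _ _))
  exact key S fun _ h => h

variable {T : Type} [CommRing T] [Algebra k T]

/-- the equations between powers of variables; some variables are zero -/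
noncomputable def EqPT (d : Fin m → ℕ) (V : Set (MvPolynomial (Fin m) T)) (S : Fin m → Prop) :
    Set (MvPolynomial (Fin m) T) :=
  (aeval (fun j => X j ^ d j : Fin m → MvPolynomial (Fin m) T)) '' V ∪ X '' {j | S j}

theorem eqPT_iff (d : Fin m → ℕ) (V : Set (MvPolynomial (Fin m) T)) (S : Fin m → Prop)
    {R : Type} [CommRing R] (f : T →+* R) (u : Fin m → R) :
    (∀ q ∈ EqPT d V S, eval₂ f u q = 0) ↔
      (∀ h ∈ V, eval₂ f (fun j => u j ^ d j) h = 0) ∧ ∀ j, S j → u j = 0 := by
  have h1 : ∀ h : MvPolynomial (Fin m) T,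
      eval₂ f u (aeval (fun j => X j ^ d j : Fin m → MvPolynomial (Fin m) T) h) =
        eval₂ f (fun j => u j ^ d j) h := by
    intro h
    have h2 := MvPolynomial.eval₂_comp_left (MvPolynomial.eval₂Hom f u)
      (algebraMap T (MvPolynomial (Fin m) T)) (fun j => X j ^ d j) h
    rw [MvPolynomial.algebraMap_eq, MvPolynomial.eval₂Hom_comp_C] at h2
    refine Eq.trans h2 ?_
    congr 1
    funext j
    rw [Function.comp_apply, map_pow, MvPolynomial.eval₂Hom_X']
  constructor
  · intro h
    refine ⟨fun g hg => ?_, fun j hj => ?_⟩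
    · rw [← h1]
      exact h _ (Or.inl ⟨g, hg, rfl⟩)
    · have h2 := h _ (Or.inr ⟨j, hj, rfl⟩)
      rwa [MvPolynomial.eval₂_X] at h2
  · rintro ⟨h2, h3⟩ q (⟨g, hg, rfl⟩ | ⟨j, hj, rfl⟩)
    · rw [h1]
      exact h2 g hg
    · rw [MvPolynomial.eval₂_X]
      exact h3 j hj

variable {J : Type} [Fintype J]

/-- the equations -/
noncomputable def sysET (α : J → Fin m →₀ ℕ) (t s : J → k) (c : J → T) (n : ℕ) :
    Set (MvPolynomial (Fin m) T) :=
  Set.range fun i : Fin (n + 1) =>
    ∑ j, monomial (α j) (c j * algebraMap k T (t j ^ (i : ℕ) * s j ^ (n - i)))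

theorem eval_term {R : Type} [CommRing R] (f : T →+* R) (x : Fin m → R) (a : Fin m →₀ ℕ)
    (c : T) : eval₂ f x (monomial a c) = f c * ∏ l, x l ^ a l := by
  rw [MvPolynomial.eval₂_monomial, Finsupp.prod_fintype _ _ fun i => pow_zero _]

omit [Fintype J] in
theorem affine_mulT {α : J → Fin m →₀ ℕ}
    (hα : AffineIndependent ℚ (fun (j : J) (i : Fin m) => ((α j i : ℕ) : ℚ))) {d : Fin m → ℕ}
    (hd : ∀ i, d i ≠ 0) :
    AffineIndependent ℚ (fun (j : J) (i : Fin m) =>
      (((Finsupp.equivFunOnFinite.symm fun l => d l * α j l : Fin m →₀ ℕ) i : ℕ) : ℚ)) := by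
  rw [affineIndependent_iff] at hα ⊢
  intro S w h1 h2
  refine hα S w h1 ?_
  funext i
  have h3 := congrFun h2 i
  rw [Finset.sum_apply] at h3 ⊢
  have h4 : (d i : ℚ) ≠ 0 := by exact_mod_cast hd i
  have h5 : (d i : ℚ) * ∑ c ∈ S, (w c • fun i : Fin m => ((α c i : ℕ) : ℚ)) i = 0 := by
    rw [Finset.mul_sum]
    refine Eq.trans (Finset.sum_congr rfl fun j _ => ?_) h3
    simp
    ring
  exact (mul_eq_zero.1 h5).resolve_left h4

/-- **the base systems** -/
theorem mem_baseT [Finite k] (hP : StableClass p P) (hk : (p : k) = 0)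
    (hT : Algebra.FiniteType k T) (hPT : P T) {α : J → Fin m →₀ ℕ}
    {t s : J → k} {d : Fin m → ℕ} (hd : ∀ i, d i ≠ 0) {c : J → T}
    (h : ∀ (n : ℕ) (e : J → k), P (MvPolynomial (Fin n ⊕ Fin m) T ⧸
      Ideal.span {parT (fun j l => d l * α j l) t s (fun j => c j * algebraMap k T (e j)) n}))
    (n : ℕ) (S : Fin m → Prop) :
    P (MvPolynomial (Fin m) T ⧸ Ideal.span (EqPT d (sysET α t s c n) S)) := by
  classical
  set e : J → k := fun j => if ∃ l, S l ∧ α j l ≠ 0 then 0 else 1 with he
  set c' : J → T := fun j => c j * algebraMap k T (e j) with hc'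
  have hc0 : ∀ j, ∀ l, S l → c' j ≠ 0 → α j l = 0 := by
    intro j l hl hj
    by_contra hcon
    refine hj ?_
    have h1 : e j = 0 := if_pos ⟨l, hl, hcon⟩
    change c j * algebraMap k T (e j) = 0
    rw [h1, map_zero, mul_zero]
  let Φ : ∀ {R : Type} [CommRing R] [Algebra k R], (HT k T).obj R × (Fin m → R) → Prop :=
    fun {R} _ _ x => ∀ i < n + 1, ∑ j, ev x.1 (c' j) *
      algebraMap k R (t j ^ i * s j ^ (n - i)) * ∏ l, x.2 l ^ (d l * α j l) = 0
  have hΦ : ∀ {R S : Type} [CommRing R] [CommRing S] [Algebra k R] [Algebra k S] (f : R →ₐ[k] S)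
      (x : (HT k T).obj R × (Fin m → R)), Φ x → Φ ((HT k T).map f x.1, fun i => f (x.2 i)) := by
    intro R S _ _ _ _ f x hx i hi
    have h1 := congrArg f (hx i hi)
    rw [map_sum, map_zero] at h1
    refine Eq.trans (Finset.sum_congr rfl fun j _ => ?_) h1
    rw [map_mul f, map_mul f, f.commutes, map_prod]
    congr 1
    refine Finset.prod_congr rfl fun l _ => ?_
    rw [map_pow]
  have hu : ∀ l, S l → ∀ {R : Type} [CommRing R] [Algebra k R]
      (x : (HT k T).obj R × (Fin m → R)) (v : R), Φ x → Φ (x.1, Function.update x.2 l v) := by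
    intro l hl R _ _ x v hx i hi
    refine Eq.trans (Finset.sum_congr rfl fun j _ => ?_) (hx i hi)
    by_cases hj : c' j = 0
    · change ev x.1 (c' j) * _ * _ = ev x.1 (c' j) * _ * _
      rw [hj, map_zero, zero_mul, zero_mul, zero_mul]
    · congr 1
      refine Finset.prod_congr rfl fun l' _ => ?_
      change Function.update x.2 l v l' ^ _ = _
      by_cases hll : l' = l
      · subst hll
        rw [hc0 j l' hl hj, mul_zero, pow_zero, pow_zero]
      · rw [Function.update_of_ne hll]
  have h0 : (ZG (HT k T) Φ hΦ ∅).Mem (Pk P k) := by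
    refine Mem.of_iso ?_ (mem_sysT (fun j l => d l * α j l) t s hP hk hT hPT h n e)
    exact
      { hom := fun x => ⟨x.1, x.2.1⟩
        inv := fun x => ⟨x.1, x.2, fun _ h => absurd h (Finset.notMem_empty _)⟩
        inv_hom := fun _ => rfl
        hom_inv := fun _ => rfl
        nat := fun _ _ => rfl }
  set S' : Finset (Fin m) := Finset.univ.filter S with hS'
  have hS1 : ∀ l, l ∈ S' ↔ S l := fun l => by simp [hS']
  have h1 := mem_zg hP (HT k T) Φ hΦ S' (fun l hl => hu l ((hS1 l).1 hl)) h0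
  have key : ∀ {R : Type} [CommRing R] [Algebra k R] (x : (HT k T).obj R × (Fin m → R)),
      (∀ l, S l → x.2 l = 0) → ∀ i : ℕ, eval₂ (ev x.1 : T →+* R) (fun l => x.2 l ^ d l)
        (∑ j, monomial (α j) (c j * algebraMap k T (t j ^ i * s j ^ (n - i)))) =
          ∑ j, ev x.1 (c' j) * algebraMap k R (t j ^ i * s j ^ (n - i)) *
            ∏ l, x.2 l ^ (d l * α j l) := by
    intro R _ _ x hx i
    rw [MvPolynomial.eval₂_sum]
    refine Finset.sum_congr rfl fun j _ => ?_
    rw [eval_term]
    have h3 : ∏ l, (x.2 l ^ d l) ^ α j l = ∏ l, x.2 l ^ (d l * α j l) :=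
      Finset.prod_congr rfl fun l _ => (pow_mul _ _ _).symm
    rw [h3]
    by_cases hj : ∃ l, S l ∧ α j l ≠ 0
    · obtain ⟨l, hl, hl0⟩ := hj
      have h4 : ∏ l, x.2 l ^ (d l * α j l) = 0 := by
        refine Finset.prod_eq_zero (Finset.mem_univ l) ?_
        rw [hx l hl, zero_pow (mul_ne_zero (hd l) hl0)]
      rw [h4, mul_zero, mul_zero]
    · have h4 : e j = 1 := if_neg hj
      have h5 : c' j = c j := by
        change c j * algebraMap k T (e j) = c j
        rw [h4, map_one, mul_one]
      rw [h5]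
      change ev x.1 (c j * algebraMap k T _) * _ = _
      rw [map_mul, AlgHom.commutes]
  apply of_mem_ZfT hT
  refine Mem.of_iso ?_ h1
  exact
    { hom := fun x => ⟨x.1, fun i hi => by
        have h2 := (eqPT_iff d (sysET α t s c n) S _ x.1.2).1 x.2
        exact (key x.1 h2.2 i).symm.trans (h2.1 _ ⟨⟨i, hi⟩, rfl⟩), fun l hl =>
          ((eqPT_iff d (sysET α t s c n) S _ x.1.2).1 x.2).2 l ((hS1 l).1 hl)⟩
      inv := fun y => ⟨y.1, (eqPT_iff d (sysET α t s c n) S _ y.1.2).2 ⟨by
        rintro q ⟨i, rfl⟩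
        have h2 : ∀ l, S l → y.1.2 l = 0 := fun l hl => y.2.2 l ((hS1 l).2 hl)
        exact (key y.1 h2 i).trans (y.2.1 i i.2), fun l hl => y.2.2 l ((hS1 l).2 hl)⟩⟩
      inv_hom := fun _ => rfl
      hom_inv := fun _ => rfl
      nat := fun _ _ => rfl }

end Pool.Agent.Helper29.PF
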