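import Pool.Agent.Helper29.PF.PencilQ

/-!
# Fermat sums
-/

set_option autoImplicit false

namespace Pool.Agent.Helper29.PF

open Pool.Agent.Helper29.CQ
open Pool.Agent.Helper67.SF (Form Small Independent)
open MvPolynomial (C X map rename)

variable {p : ℕ} {P : ∀ (A : Type) [CommRing A], Prop} {k : Type} [Field k]

/-- Fermat sums -/
noncomputable def fsum {m : ℕ} (c : Fin m → k) (n : Fin m → ℕ) : MvPolynomial (Fin m) k :=
  ∑ i, C (c i) * X i ^ n i

theorem fsum_support {m : ℕ} {c : Fin m → k} {n : Fin m → ℕ} {u : Fin m →₀ ℕ}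
    (hu : MvPolynomial.coeff u (fsum c n) ≠ 0) : ∃ i, u = Finsupp.single i (n i) := by
  by_contra h
  push Not at h
  apply hu
  rw [fsum, MvPolynomial.coeff_sum]
  refine Finset.sum_eq_zero fun i _ => ?_
  rw [MvPolynomial.coeff_C_mul, MvPolynomial.coeff_X_pow, if_neg (fun h1 => h i h1.symm), mul_zero]

theorem fsum_indep {m : ℕ} (c : Fin m → k) {n : Fin m → ℕ} (hn : ∀ i, 0 < n i) :
    Independent (fsum c n) := by
  right
  rw [affineIndependent_iff]
  intro S w _ hw1 u hu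
  obtain ⟨i, hi⟩ := fsum_support (MvPolynomial.mem_support_iff.1 u.2)
  have h3 := congrFun hw1 i
  rw [Finset.sum_apply, Finset.sum_eq_single_of_mem u hu] at h3
  · rw [Pi.smul_apply, hi, Finsupp.single_eq_same, smul_eq_mul, Pi.zero_apply] at h3
    rcases mul_eq_zero.1 h3 with h4 | h4
    · exact h4
    · exact absurd (Nat.cast_eq_zero.1 h4) (hn i).ne'
  · intro v _ hv
    obtain ⟨j, hj⟩ := fsum_support (MvPolynomial.mem_support_iff.1 v.2)
    have hij : j ≠ i := fun h => hv (Subtype.ext (by rw [hi, hj, h]))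
    rw [Pi.smul_apply, hj, Finsupp.single_eq_of_ne hij.symm, Nat.cast_zero, smul_zero]

theorem fsum_homog {m : ℕ} (c : Fin m → k) (n : Fin m → ℕ) :
    MvPolynomial.IsWeightedHomogeneous (fun j => ((1 : ℕ) : ℤ) * (((∏ i, n i) / n j : ℕ) : ℤ))
      (fsum c n) ((∏ i, n i : ℕ) : ℤ) := by
  intro u hu
  obtain ⟨i, rfl⟩ := fsum_support hu
  rw [Finsupp.weight_single, nsmul_eq_mul, Nat.cast_one, one_mul, ← Nat.cast_mul,
    Nat.mul_div_cancel' (Finset.dvd_prod_of_mem n (Finset.mem_univ i))]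

theorem form_fermat {m : ℕ} (c : Fin m → k) {n : Fin m → ℕ} (hn : ∀ i, 0 < n i) :
    Form (Pool.Agent.Helper67.SF.comp (fsum c n) fun _ => (X () : MvPolynomial Unit k))
      (∏ i, n i) := by
  refine Form.comp _ (fun _ => 1) _ _ _ (fun _ => Form.small _ _ ⟨one_pos, Or.inl ⟨⟨fun _ => 1, ?_⟩,
    Or.inl ?_⟩⟩) (fsum_indep c hn) (Finset.prod_pos fun i _ => hn i) (fsum_homog c n)
  · exact MvPolynomial.isWeightedHomogeneous_X k (fun _ : Unit => (1 : ℤ)) ()
  · simp

/-- **Towers of Fermat sums** -/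
theorem fermat_tower [Finite k] [CharP k p] (hp : p.Prime) (hP : FormalClass p P) {B : Type}
    [CommRing B] [Algebra k B] (hB : Algebra.FiniteType k B) {a b : B}
    (h1 : ∀ n : ℕ, 0 < n →
      P (AdjoinRoot (Polynomial.C b * Polynomial.X ^ n - Polynomial.C a : Polynomial B)))
    (h2 : P (B ⧸ Ideal.span {a})) (h3 : P (B ⧸ Ideal.span {b, a})) {m : ℕ} (c : Fin m → k)
    {n : Fin m → ℕ} (hn : ∀ i, 0 < n i) :
    P (MvPolynomial (Fin m) B ⧸
      Ideal.span {C b * (∑ i, C (algebraMap k B (c i)) * X i ^ n i) - C a}) := by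
  have hk : (p : k) = 0 := CharP.cast_eq_zero k p
  have hF := form_fermat c hn
  have h4 := tower_forms hP hk hB (hF.good hp hP) (h1 _ (Finset.prod_pos fun i _ => hn i)) h2 h3
  let e := MvPolynomial.renameEquiv B (Equiv.sigmaUnique (Fin m) fun _ => Unit)
  have h5 : Pool.Agent.Helper67.SF.comp (fsum c n) (fun _ => (X () : MvPolynomial Unit k)) =
      ∑ i, C (c i) * X ⟨i, ()⟩ ^ n i := by
    simp only [Pool.Agent.Helper67.SF.comp, fsum, map_sum, map_mul, map_pow, MvPolynomial.rename_X,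
      MvPolynomial.aeval_X, MvPolynomial.algHom_C, MvPolynomial.algebraMap_eq]
  have h6 : e (C b * map (algebraMap k B)
      (Pool.Agent.Helper67.SF.comp (fsum c n) fun _ => (X () : MvPolynomial Unit k)) - C a) =
      C b * (∑ i, C (algebraMap k B (c i)) * X i ^ n i) - C a := by
    rw [h5]
    simp only [e, map_sub, map_mul, map_sum, map_pow, MvPolynomial.map_C, MvPolynomial.map_X,
      MvPolynomial.renameEquiv_apply, MvPolynomial.rename_X, MvPolynomial.rename_C]
    rfl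
  refine hP.iso _ _ (Ideal.quotientEquivAlg (Ideal.span {C b * map (algebraMap k B)
    (Pool.Agent.Helper67.SF.comp (fsum c n) fun _ => (X () : MvPolynomial Unit k)) - C a}) _ e
      ?_).toRingEquiv h4
  rw [Ideal.map_span, Set.image_singleton, ← h6]
  rfl

/-- **Pencils of quartic curves**: `g(x, y) ^ 2 (c_1 z_1 ^ n_1 + ... + c_m z_m ^ n_m) = f(x, y)`
for `deg f ≤ 4`, `deg g ≤ 2` -/
theorem quartic_fermat [Finite k] [CharP k p] (hp : p.Prime) (hp2 : p ≠ 2) (hP : StableClass p P)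
    (f g : MvPolynomial (Fin 2) k) (hf : f.totalDegree ≤ 4) (hg : g.totalDegree ≤ 2) {m : ℕ}
    (c : Fin m → k) {n : Fin m → ℕ} (hn : ∀ i, 0 < n i) :
    P (MvPolynomial (Fin m) (MvPolynomial (Fin 2) k) ⧸
      Ideal.span {C (g ^ 2) * (∑ i, C (C (c i)) * X i ^ n i) - C f}) :=
  have hk : (p : k) = 0 := CharP.cast_eq_zero k p
  fermat_tower hp hP.toFormalClass inferInstance
    (fun n hn => Pool.Agent.Helper9.QP.quartic_pencils hp hp2 hP f g hf hg n hn)
    (plane_closed hP.toFormalClass hk _) (plane_closed hP.toFormalClass hk _) c hn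

end Pool.Agent.Helper29.PF
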