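import Pool.Agent.Helper29.PF.Stable

/-!
# Fibre products with forms
-/

set_option autoImplicit false

namespace Pool.Agent.Helper29.PF

open Pool.Agent.Helper29.CQ Pool.Agent.Helper65.CC Pool.Agent.Helper87.CC
open Pool.Agent.Helper65.CC.KFn
open MvPolynomial (aeval)

variable {p : ℕ} {P : ∀ (A : Type) [CommRing A], Prop} {k : Type} [Field k]

/-- roots of some coordinates, which are zero for the indices in a given set -/
def BS {G : KFn k} {s : ℕ} (v : Fin s → Coord G) (d : Fin s → ℕ) (S : Fin s → Prop) : KFn k where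
  obj R _ _ := {x : G.obj R × (Fin s → R) //
    ∀ j, (v j).val x.1 = x.2 j ^ d j ∧ (S j → x.2 j = 0)}
  map f x := ⟨(G.map f x.1.1, fun i => f (x.1.2 i)), fun j =>
    ⟨by rw [← (v j).nat, (x.2 j).1, map_pow], fun h => (congrArg f ((x.2 j).2 h)).trans
      (map_zero f)⟩⟩
  id_map x := Subtype.ext (Prod.ext (G.id_map x.1.1) rfl)
  comp_map f g x := Subtype.ext (Prod.ext (G.comp_map f g x.1.1) rfl)

/-- coordinates -/
def upS {G : KFn k} {s : ℕ} {v : Fin s → Coord G} {d : Fin s → ℕ} {S : Fin s → Prop}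
    (c : Coord G) : Coord (BS v d S) where
  val x := c.val x.1.1
  nat f x := c.nat f x.1.1

/-- no coordinates -/
def bsZero {G : KFn k} (v : Fin 0 → Coord G) (d : Fin 0 → ℕ) (S : Fin 0 → Prop) :
    Iso (BS v d S) G where
  hom x := x.1.1
  inv x := ⟨(x, Fin.elim0), fun j => j.elim0⟩
  inv_hom _ := Subtype.ext (Prod.ext rfl (funext fun i => i.elim0))
  hom_inv _ := rfl
  nat _ _ := rfl

/-- the first root is zero -/
def bsCls {G : KFn k} {s : ℕ} (v : Fin (s + 1) → Coord G) (d : Fin (s + 1) → ℕ) (hd : d 0 ≠ 0)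
    (S : Fin (s + 1) → Prop) (h0 : S 0) : Iso (BS v d S)
      ((BS (fun j => v j.succ) (fun j => d j.succ) (fun j => S j.succ)).cls (upS (v 0))) where
  hom x := ⟨⟨(x.1.1, Fin.tail x.1.2), fun j => x.2 j.succ⟩, by
    have h1 := x.2 0
    rw [h1.2 h0, zero_pow hd] at h1
    exact h1.1⟩
  inv y := ⟨(y.1.1.1, Fin.cons 0 y.1.1.2), Fin.cases ⟨by
    have h1 : (v 0).val y.1.1.1 = 0 := y.2
    rw [h1]
    exact (zero_pow hd).symm, fun _ => rfl⟩ y.1.2⟩
  inv_hom x := by
    apply Subtype.ext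
    refine Prod.ext rfl (funext fun i => ?_)
    refine Fin.cases ?_ (fun _ => rfl) i
    exact ((x.2 0).2 h0).symm
  hom_inv _ := rfl
  nat f x := rfl

/-- the first root is free -/
def bsRoot {G : KFn k} {s : ℕ} (v : Fin (s + 1) → Coord G) (d : Fin (s + 1) → ℕ)
    (S : Fin (s + 1) → Prop) (h0 : ¬ S 0) : Iso (BS v d S)
      (root (BS (fun j => v j.succ) (fun j => d j.succ) (fun j => S j.succ)) (upS (v 0))
        (d 0)) where
  hom x := ⟨(⟨(x.1.1, Fin.tail x.1.2), fun j => x.2 j.succ⟩, x.1.2 0),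
    sub_eq_zero.2 (x.2 0).1.symm⟩
  inv y := ⟨(y.1.1.1.1, Fin.cons y.1.2 y.1.1.1.2), Fin.cases
    ⟨(sub_eq_zero.1 y.2).symm, fun h => absurd h h0⟩ y.1.1.2⟩
  inv_hom x := by
    apply Subtype.ext
    exact Prod.ext rfl (Fin.cons_self_tail _)
  hom_inv _ := rfl
  nat f x := rfl

theorem rp_bs {s : ℕ} : ∀ {G : KFn k} [Rp G] (v : Fin s → Coord G) (d : Fin s → ℕ)
    (_ : ∀ j, d j ≠ 0) (S : Fin s → Prop), Rp (BS v d S) := by
  induction s with
  | zero => exact fun v d _ S => Rp.iso (bsZero v d S).symm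
  | succ s ih =>
    intro G _ v d hd S
    have h1 : Rp (BS (fun j => v j.succ) (fun j => d j.succ) (fun j => S j.succ)) :=
      ih _ _ (fun j => hd j.succ) _
    by_cases h0 : S 0
    · exact Rp.iso (bsCls v d (hd 0) S h0).symm
    · exact Rp.iso (bsRoot v d S h0).symm

/-- coordinates which are values of forms -/
def LV {G : KFn k} {s : ℕ} {σ : Fin s → Type} (v : Fin s → Coord G)
    (F : ∀ j, MvPolynomial (σ j) k) : KFn k where
  obj R _ _ := {x : G.obj R × (∀ j, σ j → R) // ∀ j, (v j).val x.1 = aeval (x.2 j) (F j)}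
  map f x := ⟨(G.map f x.1.1, fun j a => f (x.1.2 j a)), fun j => by
    have h1 := MvPolynomial.comp_aeval_apply (R := k) (x.1.2 j) f (F j)
    rw [← (v j).nat, x.2 j, h1]⟩
  id_map x := Subtype.ext (Prod.ext (G.id_map x.1.1) rfl)
  comp_map f g x := Subtype.ext (Prod.ext (G.comp_map f g x.1.1) rfl)

/-- coordinates -/
def upL {G : KFn k} {c₀ : Coord G} {τ : Type} {g : MvPolynomial τ k} (c : Coord G) :
    Coord (lev G c₀ g) where
  val x := c.val x.1.1
  nat f x := c.nat f x.1.1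

/-- no forms -/
def lvZero {G : KFn k} {σ : Fin 0 → Type} (v : Fin 0 → Coord G) (F : ∀ j, MvPolynomial (σ j) k) :
    Iso (LV v F) G where
  hom x := x.1.1
  inv x := ⟨(x, fun j => j.elim0), fun j => j.elim0⟩
  inv_hom _ := Subtype.ext (Prod.ext rfl (funext fun i => i.elim0))
  hom_inv _ := rfl
  nat _ _ := rfl

/-- the first form -/
def lvSucc {G : KFn k} {s : ℕ} {σ : Fin (s + 1) → Type} (v : Fin (s + 1) → Coord G)
    (F : ∀ j, MvPolynomial (σ j) k) :
    Iso (LV v F) (LV (G := lev G (v 0) (F 0)) (fun j => upL (v j.succ)) fun j => F j.succ) where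
  hom x := ⟨(⟨(x.1.1, x.1.2 0), x.2 0⟩, fun j => x.1.2 j.succ), fun j => x.2 j.succ⟩
  inv {R} _ _ y := ⟨(y.1.1.1.1, Fin.cons (α := fun j => σ j → R) y.1.1.1.2 y.1.2),
    Fin.cases y.1.1.2 y.2⟩
  inv_hom _ := Subtype.ext (Prod.ext rfl (funext fun i => Fin.cases rfl (fun _ => rfl) i))
  hom_inv _ := rfl
  nat _ _ := rfl

/-- the order of the operations -/
def bsLev {G : KFn k} {s : ℕ} (v : Fin s → Coord G) (d : Fin s → ℕ) (S : Fin s → Prop)
    (c : Coord G) {τ : Type} (g : MvPolynomial τ k) :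
    Iso (BS (G := lev G c g) (fun j => upL (v j)) d S) (lev (BS v d S) (upS c) g) where
  hom x := ⟨(⟨(x.1.1.1.1, x.1.2), x.2⟩, x.1.1.1.2), x.1.1.2⟩
  inv y := ⟨(⟨(y.1.1.1.1, y.1.2), y.2⟩, y.1.1.1.2), y.1.1.2⟩
  inv_hom _ := rfl
  hom_inv _ := rfl
  nat _ _ := rfl

/-- the product with the space of functions on a finite set -/
def pwT (F : KFn k) (τ : Type) : KFn k where
  obj R _ _ := F.obj R × (τ → R)
  map f x := (F.map f x.1, fun i => f (x.2 i))
  id_map x := Prod.ext (F.id_map x.1) rfl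
  comp_map f g x := Prod.ext (F.comp_map f g x.1) rfl

/-- enumeration of the variables -/
def pwIso (F : KFn k) {τ : Type} {n : ℕ} (e : τ ≃ Fin n) : Iso (pw F n) (pwT F τ) where
  hom x := (x.1, fun a => x.2 (e a))
  inv y := (y.1, fun i => y.2 (e.symm i))
  inv_hom x := Prod.ext rfl (funext fun i => congrArg x.2 (e.apply_symm_apply i))
  hom_inv y := Prod.ext rfl (funext fun a => congrArg y.2 (e.symm_apply_apply a))
  nat _ _ := rfl

instance (F : KFn k) [Rp F] (τ : Type) [Finite τ] : Rp (pwT F τ) :=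
  Rp.iso (pwIso F (Finite.equivFin τ))

/-- the equation -/
noncomputable def levC (F : KFn k) (c : Coord F) {τ : Type} (g : MvPolynomial τ k) :
    Coord (pwT F τ) where
  val x := c.val x.1 - aeval x.2 g
  nat f x := by
    have h1 := MvPolynomial.comp_aeval_apply (R := k) x.2 f g
    rw [map_sub, c.nat, h1]
    rfl

/-- the values of a form as a closed subfunctor -/
noncomputable def levIso (F : KFn k) (c : Coord F) {τ : Type} (g : MvPolynomial τ k) :
    Iso ((pwT F τ).cls (levC F c g)) (lev F c g) where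
  hom x := ⟨x.1, sub_eq_zero.1 x.2⟩
  inv x := ⟨x.1, sub_eq_zero.2 x.2⟩
  inv_hom _ := rfl
  hom_inv _ := rfl
  nat _ _ := rfl

instance (F : KFn k) [Rp F] (c : Coord F) {τ : Type} [Finite τ] (g : MvPolynomial τ k) :
    Rp (lev F c g) :=
  Rp.iso (levIso F c g)

/-- **Fibre products with forms.** -/
theorem mem_fib [Finite k] (hP : FormalClass p P) (hk : (p : k) = 0) {s : ℕ} :
    ∀ {G : KFn k} [Rp G] (v : Fin s → Coord G) {σ : Fin s → Type} [∀ j, Fintype (σ j)]
      {F : ∀ j, MvPolynomial (σ j) k} {d : Fin s → ℕ}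
      (_ : ∀ j, Pool.Agent.Helper67.CQ.GoodD P (F j) (d j))
      (_ : ∀ S : Fin s → Prop, (BS v d S).Mem (Pk P k)), (LV v F).Mem (Pk P k) := by
  induction s with
  | zero =>
    intro G _ v σ _ F d _ h
    exact Mem.of_iso (lvZero v F) (Mem.of_iso (bsZero v d fun _ => False).symm (h _))
  | succ s ih =>
    intro G _ v σ _ F d hF h
    refine Mem.of_iso (lvSucc v F) (ih _ (fun j => hF j.succ) fun S => ?_)
    have h1 : Rp (BS (fun j => v j.succ) (fun j => d j.succ) S) :=
      rp_bs _ _ (fun j => (hF j.succ).1) S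
    refine Mem.of_iso (bsLev (fun j => v j.succ) (fun j => d j.succ) S (v 0) (F 0))
      (mem_lev hP hk _ (hF 0) ?_ ?_)
    · exact Mem.of_iso (bsCls v d (hF 0).1 (Fin.cons True S) trivial).symm (h _)
    · exact Mem.of_iso (bsRoot v d (Fin.cons False S) (fun h => h)).symm (h _)

end Pool.Agent.Helper29.PF
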