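import Pool.Agent.Helper49.TP.ConstK

/-!
# The fibres of a pencil of curves of degree six in the weighted plane
-/

set_option autoImplicit false

namespace Pool.Agent.Helper29.PF

open Pool.Agent.Helper29.CQ Pool.Agent.Helper65.CC Pool.Agent.Helper87.CC
  Pool.Agent.Helper65.CC.KFn
open Pool.Agent.Helper9.QP (A4 Cst)
open Pool.Agent.Helper9.TP (FibT)
open Pool.Agent.Helper71.CP (ev ev_map ev_mul ev_pow ev_scale ev_Qp wt CW Qp)
open Pool.Agent.Helper71.PN
open Pool.Agent.Helper49.QP (rs)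
open Pool.Agent.Helper49.CP (scCls e1 aeval_e1 e1_ne lv Gk mem_of_k ev_rs conic6)
open Pool.Agent.Helper49.TP (Cone1 Wt g3 up3)
open MvPolynomial (IsWeightedHomogeneous)

section small

variable {k : Type} [Field k]

/-- the scaling of the space with the weights `1, 2, 1` -/
def A3w : Sc (A3 k) where
  sc u x := (u * x.1, (u : _) ^ 2 * x.2.1, u * x.2.2)
  one _ := by simp
  mul _ _ _ := by
    refine Prod.ext (mul_assoc _ _ _) (Prod.ext ?_ (mul_assoc _ _ _))
    rw [Units.val_mul, mul_pow]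
    exact mul_assoc _ _ _
  nat f _ _ := by
    refine Prod.ext (map_mul f _ _) (Prod.ext ?_ (map_mul f _ _))
    change f (_ ^ 2 * _) = _
    rw [map_mul, map_pow]
    rfl

theorem g3_wtw {B : MvPolynomial (Fin 3) k} {d : ℕ} (hB : IsWeightedHomogeneous wt B d) :
    Wt A3w (g3 B) d := fun R _ _ t x => ev_scale hB (t : R) x.1 x.2.1 x.2.2

/-- the affine cone over a curve in the weighted plane -/
noncomputable def baseW (B : MvPolynomial (Fin 3) k) {d : ℕ} (hB : IsWeightedHomogeneous wt B d)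
    (h0 : B ≠ 0) : Cone1 ((A3 k).cls (g3 B)) where
  s := scCls A3w (g3 B) d fun {R} _ _ t x => g3_wtw hB R t x
  z := ⟨fun x => x.1.2.2, fun _ _ => rfl⟩
  y := ⟨fun x => x.1.1, fun _ _ => rfl⟩
  hz R _ _ t x := by
    rw [pow_one]
    rfl
  hy R _ _ t x := by
    rw [pow_one]
    rfl
  d1 := by
    refine D1.of_iso (F' := PC (e1 B)) ?_ (D1.curve (e1_ne hB h0))
    exact
      { hom := fun {R} _ _ x => ⟨(x.1.1.1, x.1.1.2.1), by
          have h : ev B x.1.1.1 x.1.1.2.1 x.1.1.2.2 = 0 := x.1.2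
          have h1 : x.1.1.2.2 - algebraMap k R 1 = 0 := x.2
          rw [map_one, sub_eq_zero] at h1
          rw [h1] at h
          exact (aeval_e1 B _ _).trans h⟩
        inv := fun {R} _ _ x => ⟨⟨(x.1.1, x.1.2, 1), (aeval_e1 B _ _).symm.trans x.2⟩, by
          change 1 - algebraMap k R 1 = 0
          rw [map_one, sub_self]⟩
        inv_hom := fun {R} _ _ x => by
          have h1 : x.1.1.2.2 - algebraMap k R 1 = 0 := x.2
          rw [map_one, sub_eq_zero] at h1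
          exact Subtype.ext (Subtype.ext (Prod.ext rfl (Prod.ext rfl h1.symm)))
        hom_inv := fun _ => rfl
        nat := fun _ _ => rfl }
  d2 := by
    refine D1.of_iso (F' := (A1 k).cls (lv B 1)) ?_ (D1.line1.cls _)
    exact
      { hom := fun {R} _ _ x => ⟨x.1.1.1.2.1, by
          have h : ev B x.1.1.1.1 x.1.1.1.2.1 x.1.1.1.2.2 = 0 := x.1.1.2
          have h1 : x.1.1.1.2.2 = 0 := x.1.2
          have h2 : x.1.1.1.1 - algebraMap k R 1 = 0 := x.2
          rw [h1, sub_eq_zero.1 h2] at h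
          exact h⟩
        inv := fun {R} _ _ x => ⟨⟨⟨(algebraMap k R 1, x.1, 0), x.2⟩, rfl⟩, sub_self _⟩
        inv_hom := fun {R} _ _ x => by
          have h1 : x.1.1.1.2.2 = 0 := x.1.2
          have h2 : x.1.1.1.1 - algebraMap k R 1 = 0 := x.2
          exact Subtype.ext (Subtype.ext (Subtype.ext (Prod.ext (sub_eq_zero.1 h2).symm
            (Prod.ext rfl h1.symm))))
        hom_inv := fun _ => rfl
        nat := fun _ _ => rfl }
  d3 := by
    refine D1.of_iso (F' := (A1 k).cls (lv B 0)) ?_ (D1.line1.cls _)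
    exact
      { hom := fun {R} _ _ x => ⟨x.1.1.1.2.1, by
          have h : ev B x.1.1.1.1 x.1.1.1.2.1 x.1.1.1.2.2 = 0 := x.1.1.2
          have h1 : x.1.1.1.2.2 = 0 := x.1.2
          have h2 : x.1.1.1.1 = 0 := x.2
          rw [h1, h2] at h
          change ev B (algebraMap k R 0) x.1.1.1.2.1 0 = 0
          rw [map_zero]
          exact h⟩
        inv := fun {R} _ _ x => ⟨⟨⟨(algebraMap k R 0, x.1, 0), x.2⟩, rfl⟩, map_zero _⟩
        inv_hom := fun {R} _ _ x => by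
          have h1 : x.1.1.1.2.2 = 0 := x.1.2
          have h2 : x.1.1.1.1 = 0 := x.2
          exact Subtype.ext (Subtype.ext (Subtype.ext (Prod.ext
            ((map_zero (algebraMap k R)).trans h2.symm) (Prod.ext rfl h1.symm))))
        hom_inv := fun _ => rfl
        nat := fun _ _ => rfl }

end small

variable {k K : Type} [Field k] [Field K] [Algebra k K]
  {G : ∀ (R : Type) [CommRing R] [Algebra K R], Prop}

/-- constant cones over curves in the weighted plane -/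
theorem mem_BW [Finite k] (hG : KOps K G) (hW : Cst k G) (B : MvPolynomial (Fin 3) k) {d : ℕ}
    (hB : IsWeightedHomogeneous wt B d) (h0 : B ≠ 0) : ((A3 K).cls (g3 (up3 K B))).Mem G := by
  refine Mem.of_iso ?_ (mem_of_k hG ((baseW B hB h0).mem (K := K) hG hW))
  exact
    { hom := fun {R} _ _ x => ⟨x.1, (ev_rs B x.1.1 x.1.2.1 x.1.2.2).symm.trans x.2⟩
      inv := fun {R} _ _ x => ⟨x.1, (ev_rs (K := K) B x.1.1 x.1.2.1 x.1.2.2).trans x.2⟩
      inv_hom := fun _ => rfl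
      hom_inv := fun _ => rfl
      nat := fun _ _ => rfl }

theorem ev_up2 (F E : MvPolynomial (Fin 3) k) {R : Type} [CommRing R] [Algebra K R]
    (x y z : R) : ev (MvPolynomial.map (algebraMap k K) (F * E)) x y z =
      ev (up3 K F) x y z * ev (up3 K E) x y z := by
  rw [map_mul, ev_mul]

theorem ev_upsq (E : MvPolynomial (Fin 3) k) {R : Type} [CommRing R] [Algebra K R] (x y z : R) :
    ev (MvPolynomial.map (algebraMap k K) (E ^ 2)) x y z = ev (up3 K E) x y z ^ 2 := by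
  rw [map_pow, ev_pow]

/-- the complement of the curves -/
theorem mem_UW [Finite k] (hG : GOps K G) (hW : Cst k G) (F E : MvPolynomial (Fin 3) k)
    (hF : IsWeightedHomogeneous wt F 6) (hE : IsWeightedHomogeneous wt E 3) (hF0 : F ≠ 0)
    (hE0 : E ≠ 0) : ((A3 K).opn (g3 (up3 K (F * E)))).Mem G :=
  mem_opn hG.toKOps _ (mem_A3 hG) (mem_BW hG.toKOps hW (F * E) (hF.mul hE)
    (mul_ne_zero hF0 hE0))

/-- the part of `F = 0` with `E` invertible -/
theorem mem_FW [Finite k] (hG : KOps K G) (hW : Cst k G) (F E : MvPolynomial (Fin 3) k)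
    (hF : IsWeightedHomogeneous wt F 6) (hE : IsWeightedHomogeneous wt E 3) (hF0 : F ≠ 0)
    (hE0 : E ≠ 0) :
    (((A3 K).cls (g3 (up3 K (F * E)))).opn (resC _ (g3 (up3 K E)))).Mem G := by
  refine mem_opn hG _ (mem_BW hG hW (F * E) (hF.mul hE) (mul_ne_zero hF0 hE0))
    (Mem.of_iso (F' := (A3 K).cls (g3 (up3 K E))) ?_ (mem_BW hG hW E hE hE0))
  exact
    { hom := fun {R} _ _ x => ⟨x.1.1, x.2⟩
      inv := fun {R} _ _ x => ⟨⟨x.1, by
        have h1 : ev (up3 K E) x.1.1 x.1.2.1 x.1.2.2 = 0 := x.2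
        change ev (up3 K (F * E)) x.1.1 x.1.2.1 x.1.2.2 = 0
        rw [ev_up2, h1, mul_zero]⟩, x.2⟩
      inv_hom := fun _ => rfl
      hom_inv := fun _ => rfl
      nat := fun _ _ => rfl }

theorem fw_eq (F E : MvPolynomial (Fin 3) k) (e : K) {R : Type} [CommRing R] [Algebra K R]
    (x : (FibT (MvPolynomial.map (algebraMap k K) F) (MvPolynomial.map (algebraMap k K)
      (E ^ 2)) (MvPolynomial.map (algebraMap k K) (F * E)) 1 1 e).obj R) :
    algebraMap K R e * ev (up3 K F) x.1.1.1 x.1.1.2.1 x.1.1.2.2.1 =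
      ev (up3 K E) x.1.1.1 x.1.1.2.1 x.1.1.2.2.1 ^ 2 *
        (x.1.1.2.2.2 * (1 - x.1.1.2.2.2)) := by
  have h1 : algebraMap K R e * ev (up3 K F) x.1.1.1 x.1.1.2.1
      x.1.1.2.2.1 - ev (MvPolynomial.map (algebraMap k K) (E ^ 2)) x.1.1.1 x.1.1.2.1
      x.1.1.2.2.1 * (x.1.1.2.2.2 ^ 1 * (1 - x.1.1.2.2.2) ^ 1) = 0 := x.1.2
  rw [ev_upsq, pow_one, pow_one] at h1
  exact sub_eq_zero.1 h1

theorem fw_mk (F E : MvPolynomial (Fin 3) k) (e : K) {R : Type} [CommRing R] [Algebra K R]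
    (x y z v : R) (h : algebraMap K R e * ev (up3 K F) x y z =
      ev (up3 K E) x y z ^ 2 * (v * (1 - v))) :
    algebraMap K R e * ev (MvPolynomial.map (algebraMap k K) F) x y z -
      ev (MvPolynomial.map (algebraMap k K) (E ^ 2)) x y z * (v ^ 1 * (1 - v) ^ 1) = 0 := by
  rw [ev_upsq, pow_one, pow_one, h, sub_self]

theorem fw_unit (F E : MvPolynomial (Fin 3) k) (e : K) {R : Type} [CommRing R] [Algebra K R]
    (x : (FibT (MvPolynomial.map (algebraMap k K) F) (MvPolynomial.map (algebraMap k K)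
      (E ^ 2)) (MvPolynomial.map (algebraMap k K) (F * E)) 1 1 e).obj R) :
    IsUnit (ev (up3 K F) x.1.1.1 x.1.1.2.1 x.1.1.2.2.1) ∧
      IsUnit (ev (up3 K E) x.1.1.1 x.1.1.2.1 x.1.1.2.2.1) := by
  have h1 : IsUnit (ev (MvPolynomial.map (algebraMap k K) (F * E)) x.1.1.1 x.1.1.2.1
      x.1.1.2.2.1) := x.2
  rw [ev_up2] at h1
  exact ⟨isUnit_of_mul_isUnit_left h1, isUnit_of_mul_isUnit_right h1⟩

/-- **(F6)** the fibre over zero -/
theorem fib6_zero (hG : GOps K G) [Finite k] (hW : Cst k G) (F E : MvPolynomial (Fin 3) k)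
    (hF : IsWeightedHomogeneous wt F 6) (hE : IsWeightedHomogeneous wt E 3) (hF0 : F ≠ 0)
    (hE0 : E ≠ 0) :
    (FibT (MvPolynomial.map (algebraMap k K) F) (MvPolynomial.map (algebraMap k K) (E ^ 2))
      (MvPolynomial.map (algebraMap k K) (F * E)) 1 1 0).Mem G := by
  have hU := mem_UW hG hW F E hF hE hF0 hE0
  let v : Coord (FibT (MvPolynomial.map (algebraMap k K) F)
    (MvPolynomial.map (algebraMap k K) (E ^ 2))
      (MvPolynomial.map (algebraMap k K) (F * E)) 1 1 0) := ⟨fun x => x.1.1.2.2.2, fun _ _ => rfl⟩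
  have key : ∀ (R : Type) [CommRing R] [Algebra K R] (x : (FibT (MvPolynomial.map
      (algebraMap k K) F) (MvPolynomial.map (algebraMap k K) (E ^ 2))
      (MvPolynomial.map (algebraMap k K) (F * E)) 1 1 0).obj R),
      x.1.1.2.2.2 * (1 - x.1.1.2.2.2) = 0 := by
    intro R _ _ x
    have h1 := fw_eq F E 0 x
    have h2 := (fw_unit F E 0 x).2
    rw [map_zero, zero_mul] at h1
    exact (h2.pow 2).mul_right_eq_zero.1 h1.symm
  refine Mem.glue hG.toKOps v ?_ ?_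
  · refine Mem.of_iso ?_ hU
    exact
      { hom := fun {R} _ _ x => ⟨(x.1.1.1.1, x.1.1.1.2.1, x.1.1.1.2.2.1), x.1.2⟩
        inv := fun {R} _ _ y => ⟨⟨⟨(y.1.1, y.1.2.1, y.1.2.2, 1), by
          refine fw_mk F E 0 _ _ _ _ ?_
          rw [map_zero]
          ring⟩, y.2⟩, isUnit_one⟩
        inv_hom := fun {R} _ _ x => by
          have h1 := key R x.1
          have h2 : IsUnit x.1.1.1.2.2.2 := x.2
          have h3 : (1 : R) = x.1.1.1.2.2.2 := sub_eq_zero.1 (h2.mul_right_eq_zero.1 h1)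
          exact Subtype.ext (Subtype.ext (Subtype.ext (Prod.ext rfl
            (Prod.ext rfl (Prod.ext rfl h3)))))
        hom_inv := fun {R} _ _ y => rfl
        nat := fun {R S} _ _ _ _ f x => rfl }
  · refine Mem.of_iso ?_ hU
    exact
      { hom := fun {R} _ _ x => ⟨(x.1.1.1.1, x.1.1.1.2.1, x.1.1.1.2.2.1), x.1.2⟩
        inv := fun {R} _ _ y => ⟨⟨⟨(y.1.1, y.1.2.1, y.1.2.2, 0), by
          refine fw_mk F E 0 _ _ _ _ ?_
          rw [map_zero]
          ring⟩, y.2⟩, rfl⟩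
        inv_hom := fun {R} _ _ x => by
          have h2 : x.1.1.1.2.2.2 = 0 := x.2
          exact Subtype.ext (Subtype.ext (Subtype.ext (Prod.ext rfl
            (Prod.ext rfl (Prod.ext rfl h2.symm)))))
        hom_inv := fun {R} _ _ y => rfl
        nat := fun {R S} _ _ _ _ f x => rfl }

theorem cw_eq (Q : MvPolynomial (Fin 3) K) {R : Type} [CommRing R] [Algebra K R]
    (x : (CW Q).obj R) : x.1.2.2.2 ^ 2 = ev Q x.1.1 x.1.2.1 x.1.2.2.1 := sub_eq_zero.1 x.2

/-- the part `F E = 0` of the cone -/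
theorem mem_cw_cls [IsAlgClosed K] (h2 : (2 : K) ≠ 0) (hG : GOps K G) [Finite k] (hW : Cst k G)
    (F E : MvPolynomial (Fin 3) k) (hF : IsWeightedHomogeneous wt F 6)
    (hE : IsWeightedHomogeneous wt E 3) (hF0 : F ≠ 0) (hE0 : E ≠ 0) (b : K) (hb : b ≠ 0) :
    ((CW (Qp (up3 K F) (up3 K E) 1 b)).cls (CW.c _ (up3 K (F * E)))).Mem G := by
  have hE1 := conic6 hG hW F E hF hE hE0 1 b hb
  have hFW := mem_FW hG.toKOps hW F E hF hE hF0 hE0
  refine Mem.glue hG.toKOps (resC _ (CW.c _ (up3 K E))) ?_ ?_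
  · let w : Coord (((CW (Qp (up3 K F) (up3 K E) 1 b)).cls (CW.c _ (up3 K (F * E)))).opn
        (resC _ (CW.c _ (up3 K E)))) :=
      ⟨fun x => x.1.1.1.2.2.2 - ev (up3 K E) x.1.1.1.1 x.1.1.1.2.1 x.1.1.1.2.2.1, fun f x => by
        rw [map_sub, ev_map]
        rfl⟩
    have key : ∀ (R : Type) [CommRing R] [Algebra K R] (x : (((CW (Qp (up3 K F) (up3 K E) 1
        b)).cls (CW.c _ (up3 K (F * E)))).opn (resC _ (CW.c _ (up3 K E)))).obj R),
        ev (up3 K F) x.1.1.1.1 x.1.1.1.2.1 x.1.1.1.2.2.1 = 0 ∧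
          x.1.1.1.2.2.2 ^ 2 = ev (up3 K E) x.1.1.1.1 x.1.1.1.2.1 x.1.1.1.2.2.1 ^ 2 := by
      intro R _ _ x
      have h3 : ev (up3 K (F * E)) x.1.1.1.1 x.1.1.1.2.1 x.1.1.1.2.2.1 = 0 := x.1.2
      have h4 : IsUnit (ev (up3 K E) x.1.1.1.1 x.1.1.1.2.1 x.1.1.1.2.2.1) := x.2
      rw [ev_up2] at h3
      have h5 := h4.mul_left_eq_zero.1 h3
      refine ⟨h5, ?_⟩
      rw [cw_eq _ x.1.1, ev_Qp, h5, map_one, one_mul, mul_zero, add_zero]
    refine Mem.glue hG.toKOps w ?_ ?_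
    · refine Mem.of_iso ?_ hFW
      exact
        { hom := fun {R} _ _ x => ⟨⟨(x.1.1.1.1.1, x.1.1.1.1.2.1, x.1.1.1.1.2.2.1), x.1.1.2⟩,
            x.1.2⟩
          inv := fun {R} _ _ y => ⟨⟨⟨⟨(y.1.1.1, y.1.1.2.1, y.1.1.2.2,
              - ev (up3 K E) y.1.1.1 y.1.1.2.1 y.1.1.2.2), by
            have h3 : ev (up3 K (F * E)) y.1.1.1 y.1.1.2.1 y.1.1.2.2 = 0 := y.1.2
            have h4 : IsUnit (ev (up3 K E) y.1.1.1 y.1.1.2.1 y.1.1.2.2) := y.2
            rw [ev_up2] at h3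
            have h5 := h4.mul_left_eq_zero.1 h3
            change (- ev (up3 K E) y.1.1.1 y.1.1.2.1 y.1.1.2.2) ^ 2 -
              ev (Qp (up3 K F) (up3 K E) 1 b) y.1.1.1 y.1.1.2.1 y.1.1.2.2 = 0
            rw [ev_Qp, h5, map_one]
            ring⟩, y.1.2⟩, y.2⟩, by
              have h4 : IsUnit (ev (up3 K E) y.1.1.1 y.1.1.2.1 y.1.1.2.2) := y.2
              change IsUnit (- ev (up3 K E) y.1.1.1 y.1.1.2.1 y.1.1.2.2 -
                ev (up3 K E) y.1.1.1 y.1.1.2.1 y.1.1.2.2)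
              have h5 : - ev (up3 K E) y.1.1.1 y.1.1.2.1 y.1.1.2.2 -
                ev (up3 K E) y.1.1.1 y.1.1.2.1 y.1.1.2.2 =
                algebraMap K R (-2) * ev (up3 K E) y.1.1.1 y.1.1.2.1 y.1.1.2.2 := by
                rw [map_neg, map_ofNat]
                ring
              rw [h5]
              exact (unit_const (neg_ne_zero.2 h2)).mul h4⟩
          inv_hom := fun {R} _ _ x => by
            have h3 := (key R x.1).2
            have h4 : IsUnit (x.1.1.1.1.2.2.2 - ev (up3 K E) x.1.1.1.1.1 x.1.1.1.1.2.1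
              x.1.1.1.1.2.2.1) := x.2
            have h5 : - ev (up3 K E) x.1.1.1.1.1 x.1.1.1.1.2.1 x.1.1.1.1.2.2.1 =
                x.1.1.1.1.2.2.2 := by
              have h6 : (x.1.1.1.1.2.2.2 - ev (up3 K E) x.1.1.1.1.1 x.1.1.1.1.2.1
                x.1.1.1.1.2.2.1) * (x.1.1.1.1.2.2.2 + ev (up3 K E) x.1.1.1.1.1 x.1.1.1.1.2.1
                x.1.1.1.1.2.2.1) = 0 := by
                linear_combination h3
              have h7 := h4.mul_right_eq_zero.1 h6
              linear_combination - h7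
            exact Subtype.ext (Subtype.ext (Subtype.ext (Subtype.ext (Prod.ext rfl
              (Prod.ext rfl (Prod.ext rfl h5))))))
          hom_inv := fun {R} _ _ y => rfl
          nat := fun {R S} _ _ _ _ f x => rfl }
    · refine Mem.of_iso ?_ hFW
      exact
        { hom := fun {R} _ _ x => ⟨⟨(x.1.1.1.1.1, x.1.1.1.1.2.1, x.1.1.1.1.2.2.1), x.1.1.2⟩,
            x.1.2⟩
          inv := fun {R} _ _ y => ⟨⟨⟨⟨(y.1.1.1, y.1.1.2.1, y.1.1.2.2,
              ev (up3 K E) y.1.1.1 y.1.1.2.1 y.1.1.2.2), by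
            have h3 : ev (up3 K (F * E)) y.1.1.1 y.1.1.2.1 y.1.1.2.2 = 0 := y.1.2
            have h4 : IsUnit (ev (up3 K E) y.1.1.1 y.1.1.2.1 y.1.1.2.2) := y.2
            rw [ev_up2] at h3
            have h5 := h4.mul_left_eq_zero.1 h3
            change ev (up3 K E) y.1.1.1 y.1.1.2.1 y.1.1.2.2 ^ 2 -
              ev (Qp (up3 K F) (up3 K E) 1 b) y.1.1.1 y.1.1.2.1 y.1.1.2.2 = 0
            rw [ev_Qp, h5, map_one]
            ring⟩, y.1.2⟩, y.2⟩, sub_self _⟩
          inv_hom := fun {R} _ _ x => by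
            have h4 : x.1.1.1.1.2.2.2 - ev (up3 K E) x.1.1.1.1.1 x.1.1.1.1.2.1
              x.1.1.1.1.2.2.1 = 0 := x.2
            exact Subtype.ext (Subtype.ext (Subtype.ext (Subtype.ext (Prod.ext rfl
              (Prod.ext rfl (Prod.ext rfl (sub_eq_zero.1 h4).symm))))))
          hom_inv := fun {R} _ _ y => rfl
          nat := fun {R S} _ _ _ _ f x => rfl }
  · refine Mem.of_iso (F' := (CW (Qp (up3 K F) (up3 K E) 1 b)).cls (CW.c _ (up3 K E))) ?_ hE1
    exact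
      { hom := fun {R} _ _ x => ⟨x.1.1, x.2⟩
        inv := fun {R} _ _ x => ⟨⟨x.1, by
          have h3 : ev (up3 K E) x.1.1.1 x.1.1.2.1 x.1.1.2.2.1 = 0 := x.2
          change ev (up3 K (F * E)) x.1.1.1 x.1.1.2.1 x.1.1.2.2.1 = 0
          rw [ev_up2, h3, mul_zero]⟩, x.2⟩
        inv_hom := fun _ => rfl
        hom_inv := fun _ => rfl
        nat := fun _ _ => rfl }

theorem ev_Qp4 (F E : MvPolynomial (Fin 3) K) (e : K) {R : Type} [CommRing R] [Algebra K R]
    (x y z : R) : ev (Qp F E 1 (-(4 * e))) x y z =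
      ev E x y z ^ 2 - 4 * algebraMap K R e * ev F x y z := by
  rw [ev_Qp, map_one, map_neg, map_mul, map_ofNat]
  ring

theorem two_c (h2 : (2 : K) ≠ 0) (R : Type) [CommRing R] [Algebra K R] :
    (2 : R) * algebraMap K R 2⁻¹ = 1 := by
  have h6 := congrArg (algebraMap K R) (mul_inv_cancel₀ h2)
  rwa [map_mul, map_ofNat, map_one] at h6

theorem f6a {R : Type} [CommRing R] {f g V w c ε : R} (h1 : V ^ 2 = g ^ 2 - 4 * ε * f)
    (h4 : g * w = 1) (h5 : 2 * c = 1) :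
    ε * f = g ^ 2 * ((c * (1 - V * w)) * (1 - c * (1 - V * w))) := by
  linear_combination c ^ 2 * h1 + (c ^ 2 * V ^ 2 * (g * w + 1)) * h4 +
    (-(ε * f * (1 + 2 * c)) + g ^ 2 * c * (1 - V * w)) * h5

theorem f6b {R : Type} [CommRing R] {g w c v : R} (h4 : g * w = 1) (h5 : 2 * c = 1) :
    c * (1 - g * (1 - 2 * v) * w) = v := by
  linear_combination (-(c * (1 - 2 * v))) * h4 + v * h5

theorem f6c {R : Type} [CommRing R] {g w c V : R} (h4 : g * w = 1) (h5 : 2 * c = 1) :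
    g * (1 - 2 * (c * (1 - V * w))) = V := by
  linear_combination (-(g * (1 - V * w))) * h5 + V * h4

theorem f6d (E : MvPolynomial (Fin 3) K) {R S : Type} [CommRing R] [CommRing S] [Algebra K R]
    [Algebra K S] (f : R →ₐ[K] S) (x y z v : R) : f (ev E x y z * (1 - 2 * v)) =
      ev E (f x) (f y) (f z) * (1 - 2 * f v) := by
  rw [map_mul, map_sub, map_mul, map_one, map_ofNat, ev_map]

/-- the fibre as an open part of the cone -/
noncomputable def isoFib6 (h2 : (2 : K) ≠ 0) (F E : MvPolynomial (Fin 3) k) (e : K) :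
    Iso (FibT (MvPolynomial.map (algebraMap k K) F) (MvPolynomial.map (algebraMap k K) (E ^ 2))
      (MvPolynomial.map (algebraMap k K) (F * E)) 1 1 e)
      ((CW (Qp (up3 K F) (up3 K E) 1 (-(4 * e)))).opn (CW.c _ (up3 K (F * E)))) where
  hom {R} _ _ x := ⟨⟨(x.1.1.1, x.1.1.2.1, x.1.1.2.2.1,
      ev (up3 K E) x.1.1.1 x.1.1.2.1 x.1.1.2.2.1 * (1 - 2 * x.1.1.2.2.2)), by
    have h1 := fw_eq F E e x
    change (ev (up3 K E) x.1.1.1 x.1.1.2.1 x.1.1.2.2.1 * (1 - 2 * x.1.1.2.2.2)) ^ 2 -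
      ev (Qp (up3 K F) (up3 K E) 1 (-(4 * e))) x.1.1.1 x.1.1.2.1 x.1.1.2.2.1 = 0
    rw [ev_Qp4]
    linear_combination 4 * h1⟩, x.2⟩
  inv {R} _ _ y := ⟨⟨(y.1.1.1, y.1.1.2.1, y.1.1.2.2.1, algebraMap K R 2⁻¹ *
      (1 - y.1.1.2.2.2 * Ring.inverse (ev (up3 K E) y.1.1.1 y.1.1.2.1 y.1.1.2.2.1))),
    fw_mk F E e _ _ _ _ (f6a ((cw_eq _ y.1).trans (ev_Qp4 _ _ _ _ _ _)) (mul_inv'
      (isUnit_of_mul_isUnit_right ((congrArg IsUnit (ev_up2 F E y.1.1.1 y.1.1.2.1
        y.1.1.2.2.1)).mp y.2))) (two_c h2 R))⟩, y.2⟩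
  inv_hom {R} _ _ x := Subtype.ext (Subtype.ext (Prod.ext rfl (Prod.ext rfl (Prod.ext rfl
    (f6b (mul_inv' (fw_unit F E e x).2) (two_c h2 R))))))
  hom_inv {R} _ _ y := Subtype.ext (Subtype.ext (Prod.ext rfl (Prod.ext rfl (Prod.ext rfl
    (f6c (mul_inv' (isUnit_of_mul_isUnit_right ((congrArg IsUnit (ev_up2 F E y.1.1.1 y.1.1.2.1
        y.1.1.2.2.1)).mp y.2))) (two_c h2 R))))))
  nat {R S} _ _ _ _ f x := Subtype.ext (Subtype.ext (Prod.ext rfl (Prod.ext rfl
    (Prod.ext rfl (f6d (up3 K E) f _ _ _ _)))))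

/-- **(F6)** the fibre over a point `e ≠ 0` -/
theorem fib6_ne [IsAlgClosed K] (h2 : (2 : K) ≠ 0) (hG : GOps K G) [Finite k] (hW : Cst k G)
    (F E : MvPolynomial (Fin 3) k) (hF : IsWeightedHomogeneous wt F 6)
    (hE : IsWeightedHomogeneous wt E 3) (hF0 : F ≠ 0) (hE0 : E ≠ 0) (e : K) (he : e ≠ 0)
    (h : (CW (Qp (MvPolynomial.map (algebraMap k K) F) (MvPolynomial.map (algebraMap k K) E) 1
      (-(4 * e)))).Mem G) :
    (FibT (MvPolynomial.map (algebraMap k K) F) (MvPolynomial.map (algebraMap k K) (E ^ 2))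
      (MvPolynomial.map (algebraMap k K) (F * E)) 1 1 e).Mem G := by
  have h4 : (4 : K) ≠ 0 := by
    have h5 : (4 : K) = 2 * 2 := by norm_num
    rw [h5]
    exact mul_ne_zero h2 h2
  exact Mem.of_iso (isoFib6 h2 F E e) (mem_opn hG.toKOps _ h
    (mem_cw_cls h2 hG hW F E hF hE hF0 hE0 _ (neg_ne_zero.2 (mul_ne_zero h4 he))))

end Pool.Agent.Helper29.PF
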