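import Pool.Agent.Helper67.SF.Defs

/-!
# Forms: extension of the field
-/

set_option autoImplicit false

namespace Pool.Agent.Helper29.PF

open MvPolynomial
open Pool.Agent.Helper67.SF (comp Form Small Independent)

variable {k K : Type} [Field k] [Field K] [Algebra k K]

theorem map_comp {s : ℕ} {σ : Fin s → Type} (H : MvPolynomial (Fin s) k)
    (F : ∀ j, MvPolynomial (σ j) k) : map (algebraMap k K) (comp H F) =
      comp (map (algebraMap k K) H) fun j => map (algebraMap k K) (F j) := by
  rw [comp, comp, aeval_def, eval₂_comp_left, aeval_def, eval₂_map]
  congr 1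
  · ext r
    simp [algebraMap_eq]
  · funext j
    rw [Function.comp_apply, map_rename]

theorem whom_map {σ : Type} {M : Type} [AddCommMonoid M] {w : σ → M} {F : MvPolynomial σ k}
    {d : M} (h : IsWeightedHomogeneous w F d) :
    IsWeightedHomogeneous w (map (algebraMap k K) F) d := by
  intro n hn
  apply h
  intro h0
  rw [coeff_map, h0, map_zero] at hn
  exact hn rfl

theorem independent_map {s : ℕ} {H : MvPolynomial (Fin s) k} (h : Independent H) :
    Independent (map (algebraMap k K) H) := by
  rcases h with h | h
  · exact Or.inl h
  · right
    have h1 : (map (algebraMap k K) H).support = H.support :=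
      support_map_of_injective _ (algebraMap k K).injective
    rw [h1]
    exact h

theorem small_map {σ : Type} [Fintype σ] {F : MvPolynomial σ k} {d : ℕ} (h : Small F d) :
    Small (map (algebraMap k K) F) d := by
  obtain ⟨h1, h2, h3⟩ := h
  exact ⟨whom_map h1, h2, h3⟩

theorem form_map {σ : Type} {F : MvPolynomial σ k} {d : ℕ} (h : Form F d) :
    Form (map (algebraMap k K) F) d := by
  induction h with
  | small F d h => exact Form.small _ _ (small_map h)
  | comp F d H w e _ hH he hw ih =>
    rw [map_comp]
    exact Form.comp _ d _ w e ih (independent_map hH) he (whom_map hw)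

end Pool.Agent.Helper29.PF
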