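import Pool.Agent.Helper29.PF.DropT
import Pool.Agent.Helper29.PF.Fib
import Pool.Agent.Helper29.PF.DefsT
import Pool.Agent.Helper9.RS.N

/-!
# Systems of equations in forms over an algebra
-/

set_option autoImplicit false

namespace Pool.Agent.Helper29.PF

open Pool.Agent.Helper29.CQ Pool.Agent.Helper65.CC Pool.Agent.Helper87.CC
open Pool.Agent.Helper65.CC.KFn
open MvPolynomial (aeval eval₂ eval₂Hom C X rename map)

variable {p : ℕ} {P : ∀ (A : Type) [CommRing A], Prop} {k : Type} [Field k]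
variable {T : Type} [CommRing T] [Algebra k T] {s : ℕ} {σ : Fin s → Type}

theorem eval_compT {R : Type} [CommRing R] [Algebra k R] (f : T →ₐ[k] R) (z : (Σ j, σ j) → R)
    (H : MvPolynomial (Fin s) T) (F : ∀ j, MvPolynomial (σ j) k) :
    eval₂ (f : T →+* R) z (compT H F) =
      eval₂ (f : T →+* R) (fun j => aeval (fun a => z ⟨j, a⟩) (F j)) H := by
  have h2 := MvPolynomial.eval₂_comp_left (eval₂Hom (f : T →+* R) z)
    (algebraMap T (MvPolynomial (Σ j, σ j) T))
    (fun j => map (algebraMap k T) (rename (Sigma.mk j) (F j))) H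
  rw [MvPolynomial.algebraMap_eq, MvPolynomial.eval₂Hom_comp_C] at h2
  refine Eq.trans h2 ?_
  congr 1
  funext j
  rw [Function.comp_apply, MvPolynomial.coe_eval₂Hom, MvPolynomial.eval₂_map,
    MvPolynomial.eval₂_rename, MvPolynomial.aeval_def]
  congr 1
  exact f.comp_algebraMap

/-- the values of the forms -/
def vT (k : Type) [Field k] {T : Type} [CommRing T] [Algebra k T] {s : ℕ}
    (V : Set (MvPolynomial (Fin s) T)) (j : Fin s) : Coord (ZfT k V) where
  val x := x.1.2 j
  nat _ _ := rfl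

/-- the roots of the values -/
def bsIso (d : Fin s → ℕ) (V : Set (MvPolynomial (Fin s) T)) (S : Fin s → Prop) :
    Iso (BS (vT k V) d S) (ZfT k (EqPT d V S)) where
  hom x := ⟨(x.1.1.1.1, x.1.2), (eqPT_iff d V S _ _).2 ⟨fun h hh => by
    have h1 : (fun j => x.1.2 j ^ d j) = x.1.1.1.2 := funext fun j => (x.2 j).1.symm
    change eval₂ _ (fun j => x.1.2 j ^ d j) h = 0
    rw [h1]
    exact x.1.1.2 h hh, fun j hj => (x.2 j).2 hj⟩⟩
  inv y := ⟨(⟨(y.1.1, fun j => y.1.2 j ^ d j), ((eqPT_iff d V S _ _).1 y.2).1⟩, y.1.2),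
    fun j => ⟨rfl, ((eqPT_iff d V S _ _).1 y.2).2 j⟩⟩
  inv_hom x := by
    apply Subtype.ext
    refine Prod.ext (Subtype.ext (Prod.ext rfl ?_)) rfl
    exact funext fun j => (x.2 j).1.symm
  hom_inv _ := rfl
  nat _ _ := rfl

/-- the variables of the forms -/
noncomputable def lvIso (V : Set (MvPolynomial (Fin s) T)) (F : ∀ j, MvPolynomial (σ j) k) :
    Iso (ZfT k ((fun H => compT H F) '' V)) (LV (vT k V) F) where
  hom x := ⟨(⟨(x.1.1, fun j => aeval (fun a => x.1.2 ⟨j, a⟩) (F j)), fun h hh => by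
    have h1 := x.2 _ ⟨h, hh, rfl⟩
    exact (eval_compT x.1.1 x.1.2 h F).symm.trans h1⟩, fun j a => x.1.2 ⟨j, a⟩), fun _ => rfl⟩
  inv y := ⟨(y.1.1.1.1, fun a => y.1.2 a.1 a.2), by
    rintro _ ⟨h, hh, rfl⟩
    refine (eval_compT y.1.1.1.1 (fun a => y.1.2 a.1 a.2) h F).trans ?_
    have h1 : (fun j => aeval (fun a => y.1.2 j a) (F j)) = y.1.1.1.2 :=
      funext fun j => (y.2 j).symm
    exact (congrArg (fun z => eval₂ _ z h) h1).trans (y.1.1.2 h hh)⟩
  inv_hom _ := rfl
  hom_inv y := by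
    apply Subtype.ext
    refine Prod.ext (Subtype.ext (Prod.ext rfl ?_)) rfl
    exact funext fun j => (y.2 j).symm
  nat f x := by
    apply Subtype.ext
    refine Prod.ext (Subtype.ext (Prod.ext rfl ?_)) rfl
    exact funext fun j => MvPolynomial.comp_aeval_apply (R := k) _ f (F j)

/-- **Systems of equations in forms.** -/
theorem formsT [Finite k] (hP : FormalClass p P) (hk : (p : k) = 0)
    (hT : Algebra.FiniteType k T) [∀ j, Fintype (σ j)] {F : ∀ j, MvPolynomial (σ j) k}
    {d : Fin s → ℕ} (hF : ∀ j, Pool.Agent.Helper67.CQ.GoodD P (F j) (d j))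
    (V : Set (MvPolynomial (Fin s) T))
    (h : ∀ S : Fin s → Prop, P (MvPolynomial (Fin s) T ⧸ Ideal.span (EqPT d V S))) :
    P (MvPolynomial (Σ j, σ j) T ⧸ Ideal.span ((fun H => compT H F) '' V)) := by
  have hr : Rp (ZfT k V) := rp_ZfT hT V
  refine of_mem_ZfT hT (Mem.of_iso (lvIso V F) ?_)
  exact mem_fib hP hk (vT k V) hF fun S => Mem.of_iso (bsIso d V S) (mem_ZfT hP hk (h S))

/-- the substitution of powers does not increase the dimension -/
theorem dim_eqPT (d : Fin s → ℕ) (hd : ∀ j, d j ≠ 0) (V : Set (MvPolynomial (Fin s) T))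
    (S : Fin s → Prop) : ringKrullDim (MvPolynomial (Fin s) T ⧸ Ideal.span (EqPT d V S)) ≤
      ringKrullDim (MvPolynomial (Fin s) T ⧸ Ideal.span V) := by
  set B := MvPolynomial (Fin s) T ⧸ Ideal.span V
  set E := MvPolynomial (Fin s) T ⧸ Ideal.span (EqPT d V S) with hE
  let g : MvPolynomial (Fin s) T →ₐ[T] E :=
    (Ideal.Quotient.mkₐ T (Ideal.span (EqPT d V S))).comp (aeval fun j => X j ^ d j)
  have hg : ∀ a ∈ Ideal.span V, g a = 0 := by
    intro a ha
    have h2 : Ideal.span V ≤ RingHom.ker g := by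
      rw [Ideal.span_le]
      intro q hq
      exact Ideal.Quotient.eq_zero_iff_mem.2 (Ideal.subset_span (Or.inl ⟨q, hq, rfl⟩))
    exact h2 ha
  let f : B →ₐ[T] E := Ideal.Quotient.liftₐ (Ideal.span V) g hg
  let _ : Algebra B E := (f : B →+* E).toAlgebra
  have _ : IsScalarTower T B E := IsScalarTower.of_algebraMap_eq fun r => (f.commutes r).symm
  have hfX : ∀ j, f (Ideal.Quotient.mk _ (X j)) = (Ideal.Quotient.mk _ (X j) : E) ^ d j := by
    intro j
    change Ideal.Quotient.mkₐ T (Ideal.span (EqPT d V S)) (aeval (fun j => X j ^ d j) (X j)) = _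
    rw [MvPolynomial.aeval_X, map_pow]
    rfl
  have h5 : ∀ q : MvPolynomial (Fin s) T, Ideal.Quotient.mk (Ideal.span (EqPT d V S)) q =
      aeval (fun j => (Ideal.Quotient.mk (Ideal.span (EqPT d V S)) (X j) : E)) q := by
    intro q
    have h6 := MvPolynomial.comp_aeval_apply (R := T) (X : Fin s → MvPolynomial (Fin s) T)
      (Ideal.Quotient.mkₐ T (Ideal.span (EqPT d V S))) q
    rw [MvPolynomial.aeval_X_left, AlgHom.id_apply] at h6
    exact h6
  have h3 : ∀ j, IsIntegral B (Ideal.Quotient.mk (Ideal.span (EqPT d V S)) (X j)) := by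
    intro j
    refine IsIntegral.of_pow (Nat.pos_of_ne_zero (hd j)) ?_
    rw [← hfX j]
    exact isIntegral_algebraMap (R := B) (A := E)
  have hint : Algebra.IsIntegral B E := by
    refine ⟨fun x => ?_⟩
    obtain ⟨q, rfl⟩ := Ideal.Quotient.mk_surjective x
    rw [h5]
    induction q using MvPolynomial.induction_on with
    | C r =>
      rw [MvPolynomial.aeval_C, IsScalarTower.algebraMap_apply T B E]
      exact isIntegral_algebraMap
    | add q q' h h' =>
      rw [map_add]
      exact IsIntegral.add h h'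
    | mul_X q j h =>
      rw [map_mul, MvPolynomial.aeval_X]
      exact IsIntegral.mul h (h3 j)
  exact Pool.Agent.Helper9.RS.ringKrullDim_le_of_integral hint

/-- **base systems of dimension at most one** -/
theorem curve_baseT [Finite k] (hP : FormalClass p P) (hk : (p : k) = 0)
    (hT : Algebra.FiniteType k T) (d : Fin s → ℕ)
    (hd : ∀ j, d j ≠ 0) (V : Set (MvPolynomial (Fin s) T))
    (hV : ringKrullDim (MvPolynomial (Fin s) T ⧸ Ideal.span V) ≤ 1) (S : Fin s → Prop) :
    P (MvPolynomial (Fin s) T ⧸ Ideal.span (EqPT d V S)) :=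
  hP.curve _ (ftZ (ft_pqT hT _)) (char0 hk) ((dim_eqPT d hd V S).trans hV)

end Pool.Agent.Helper29.PF
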