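import Pool.Agent.Helper29.PF.Drop
import Pool.Agent.Helper29.PF.Curve
import Pool.Agent.Helper29.PF.Defs
import Pool.Agent.Helper29.PF.Desc
import Pool.Agent.Helper29.PF.FormMap
import Pool.Agent.Helper67.SF.Par
import Pool.Agent.Helper67.SF.Main

/-!
# Systems of equations in forms: main theorem
-/

set_option autoImplicit false

namespace Pool.Agent.Helper29.PF

open Pool.Agent.Helper29.CQ
open Pool.Agent.Helper67.SF (comp Form simplex_par)
open MvPolynomial (aeval C X monomial)

variable {p : ℕ} {P : ∀ (A : Type) [CommRing A], Prop} {k : Type} [Field k]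

theorem eqF_eq {s : ℕ} {σ : Fin s → Type} (F : ∀ j, MvPolynomial (σ j) k)
    (V : Set (MvPolynomial (Fin s) k)) : EqF F V = (fun H => comp H F) '' V := rfl

/-- normal systems of at least one equation -/
theorem main_normal [Finite k] [CharP k p] (hp : p.Prime) (hp2 : p ≠ 2) (hP : StableClass p P)
    {s : ℕ} {σ : Fin s → Type} [∀ j, Fintype (σ j)] {F : ∀ j, MvPolynomial (σ j) k}
    {d : Fin s → ℕ} (hF : ∀ j, Form (F j) (d j)) {J : Type} [Fintype J] {α : J → Fin s →₀ ℕ}
    (hα : AffineIndependent ℚ (fun (j : J) (i : Fin s) => ((α j i : ℕ) : ℚ))) (c a b : J → k)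
    (n : ℕ) : P (MvPolynomial (Σ j, σ j) k ⧸
      Ideal.span ((fun H => comp H F) '' (sysE α a b c n))) := by
  have hk : (p : k) = 0 := CharP.cast_eq_zero k p
  have hG := fun j => (hF j).good hp hp2 hP.toFormalClass
  have h1 := main_sys (t := a) (s := b) hP hk hG (α := α) (fun n c => ?_) c n
  · exact h1
  · exact simplex_par hp hP.toFormalClass hk _ (affine_mul hα fun i => (hG i).1) c b a

/-- normal systems -/
theorem main_isNormal [Finite k] [CharP k p] (hp : p.Prime) (hp2 : p ≠ 2) (hP : StableClass p P)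
    {s : ℕ} {σ : Fin s → Type} [∀ j, Fintype (σ j)] {F : ∀ j, MvPolynomial (σ j) k}
    {d : Fin s → ℕ} (hF : ∀ j, Form (F j) (d j)) {V : Set (MvPolynomial (Fin s) k)}
    (hV : IsNormal V) :
    P (MvPolynomial (Σ j, σ j) k ⧸ Ideal.span ((fun H => comp H F) '' V)) := by
  obtain ⟨J, _, α, c, a, b, r, hα, rfl⟩ := hV
  rcases Nat.eq_zero_or_pos r with rfl | hr
  · have h1 := main_normal hp hp2 hP hF hα (fun _ => 0) a b 0
    have h2 : Ideal.span ((fun H => comp H F) '' (sysE α a b (fun _ => 0) 0)) = ⊥ := by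
      rw [Ideal.span_eq_bot]
      rintro _ ⟨_, ⟨i, rfl⟩, rfl⟩
      simp [comp]
    have h3 : Ideal.span ((fun H => comp H F) '' (Set.range fun m : Fin 0 =>
        ∑ j, monomial (α j) (c j * a j ^ (m : ℕ) * b j ^ (0 - 1 - (m : ℕ))))) = ⊥ := by
      rw [Ideal.span_eq_bot]
      rintro _ ⟨_, ⟨i, rfl⟩, rfl⟩
      exact i.elim0
    rw [h3, ← h2]
    exact h1
  · obtain ⟨n, rfl⟩ := Nat.exists_eq_succ_of_ne_zero hr.ne'
    exact main_normal hp hp2 hP hF hα c a b n

theorem span_comp {s : ℕ} {σ : Fin s → Type} (F : ∀ j, MvPolynomial (σ j) k)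
    (V : Set (MvPolynomial (Fin s) k)) : Ideal.span ((fun H => comp H F) '' V) =
      Ideal.map (aeval fun j => MvPolynomial.rename (Sigma.mk j) (F j) :
        MvPolynomial (Fin s) k →ₐ[k] MvPolynomial (Σ j, σ j) k) (Ideal.span V) := by
  rw [Ideal.map_span]
  rfl

/-- **Systems of equations in forms.** -/
theorem main [Finite k] [CharP k p] (hp : p.Prime) (hp2 : p ≠ 2) (hP : StableClass p P) {s : ℕ}
    {σ : Fin s → Type} [∀ j, Fintype (σ j)] {F : ∀ j, MvPolynomial (σ j) k} {d : Fin s → ℕ}
    (hF : ∀ j, Form (F j) (d j)) {V : Set (MvPolynomial (Fin s) k)} (hV : IsGoodSystem V) :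
    P (MvPolynomial (Σ j, σ j) k ⧸ Ideal.span ((fun H => comp H F) '' V)) := by
  have hk : (p : k) = 0 := CharP.cast_eq_zero k p
  have hG := fun j => (hF j).good hp hp2 hP.toFormalClass
  rcases hV with hV | ⟨K, _, _, _, W, hW, hVW⟩
  · exact forms_mem F d V hP.toFormalClass hk hG fun S =>
      curve_base hP.toFormalClass hk d (fun j => (hG j).1) V hV S
  · have hKp : CharP K p := charP_of_injective_algebraMap (algebraMap k K).injective p
    apply descend (K := K) hP.toFormalClass hk
    have h1 := main_isNormal hp hp2 hP (fun j => form_map (K := K) (hF j)) hW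
    rw [span_comp, hVW, ← span_comp] at h1
    have h2 : (fun x => MvPolynomial.map (algebraMap k K) (comp x F)) = fun x =>
        comp (MvPolynomial.map (algebraMap k K) x) fun j =>
          MvPolynomial.map (algebraMap k K) (F j) := funext fun x => map_comp x F
    rw [Set.image_image] at h1 ⊢
    rw [h2]
    exact h1

end Pool.Agent.Helper29.PF
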