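import Pool.Agent.Helper29.PF.FormsT
import Pool.Agent.Helper67.SF.Par
import Pool.Agent.Helper67.SF.Main

/-!
# Systems of equations in forms: main theorem
-/

set_option autoImplicit false

namespace Pool.Agent.Helper29.PF

open Pool.Agent.Helper29.CQ
open Pool.Agent.Helper67.SF (Form par_mem_const')
open Pool.Agent.Helper67.CQ (of_tame)
open Pool.Agent.Helper87.CC (ProductFunctions CurveProd IsPush isPush_tensor curveProd_zmod pqC
  tameClosed_tame)
open MvPolynomial (aeval C X monomial map)
open TensorProduct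

variable {p : ℕ} {P : ∀ (A : Type) [CommRing A], Prop}

/-! ### Products of functions -/

theorem pf_prod (hp : p.Prime) {J T : Type} [CommRing T] {c : J → T}
    (h : ProductFunctions p J T c) : CurveProd T := by
  have hpp : Fact p.Prime := ⟨hp⟩
  induction h with
  | one => exact curveProd_zmod p
  | tensor T R c d _ hR hd ih => exact CurveProd.tensor T R ih hR hd
  | iso T T' c e _ ih => exact CurveProd.iso T T' ih e

theorem pf_char {J T : Type} [CommRing T] {c : J → T} (h : ProductFunctions p J T c) :
    (p : T) = 0 := by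
  induction h with
  | one => exact CharP.cast_eq_zero (ZMod p) p
  | tensor T R c d _ hR hd ih =>
    have h1 : ((p : ℕ) : T ⊗[ℤ] R) =
        (Algebra.TensorProduct.includeLeft : T →ₐ[ℤ] T ⊗[ℤ] R) (p : T) := by
      rw [map_natCast]
    rw [h1, ih, map_zero]
  | iso T T' c e _ ih => rw [← map_natCast e, ih, map_zero]

theorem pf_mem (hp : p.Prime) (hP : FormalClass p P) {J T : Type} [CommRing T] {c : J → T}
    (h : ProductFunctions p J T c) : P T :=
  of_tame hp hP (tameClosed_tame.cutPaste.curves T (pf_prod hp h)) (pf_char h)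

theorem p_sub (hP : FormalClass p P) {A : Type} [CommRing A] (h : Subsingleton A) : P A := by
  refine hP.curve A ?_ (Subsingleton.elim _ _) ?_
  · exact (inferInstance : Algebra.FiniteType ℤ ℤ).of_surjective (Algebra.ofId ℤ A)
      fun x => ⟨0, Subsingleton.elim _ _⟩
  · rw [ringKrullDim_eq_bot_of_subsingleton]
    exact bot_le

/-! ### Normal systems -/

theorem normal_succ (hp : p.Prime) (hP : StableClass p P) {T : Type} [CommRing T] {K : Type}
    [Field K] [Finite K] [Algebra K T] {J : Type} [Fintype J] {s : ℕ} {α : J → Fin s →₀ ℕ}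
    {c : J → T} {a b : J → K} (hc : ProductFunctions p J T c)
    (hα : AffineIndependent ℚ (fun (j : J) (i : Fin s) => ((α j i : ℕ) : ℚ))) {d : Fin s → ℕ}
    (hd : ∀ j, d j ≠ 0) (n : ℕ) (S : Fin s → Prop) :
    P (MvPolynomial (Fin s) T ⧸ Ideal.span (EqPT d (sysET α a b c n) S)) := by
  have hT : Algebra.FiniteType ℤ T := (pf_prod hp hc).ft
  rcases subsingleton_or_nontrivial T with h0 | h0
  · exact p_sub hP.toFormalClass ((Ideal.Quotient.mk_surjective
      (I := Ideal.span (EqPT d (sysET α a b c n) S))).subsingleton)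
  · have hk : (p : K) = 0 := by
      apply (algebraMap K T).injective
      rw [map_natCast, pf_char hc, map_zero]
    refine mem_baseT hP hk (Algebra.FiniteType.of_restrictScalars_finiteType ℤ K T)
      (pf_mem hp hP.toFormalClass hc) hd (fun n e => ?_) n S
    exact par_mem_const' hp hP.toFormalClass hk (affine_mulT hα hd) b a n hc e

theorem span_eqPT {T : Type} [CommRing T] {s : ℕ} (d : Fin s → ℕ)
    {V W : Set (MvPolynomial (Fin s) T)} (h : Ideal.span V = Ideal.span W) (S : Fin s → Prop) :
    Ideal.span (EqPT d V S) = Ideal.span (EqPT d W S) := by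
  have key : ∀ V : Set (MvPolynomial (Fin s) T), Ideal.span (EqPT d V S) =
      Ideal.map (aeval (fun j => X j ^ d j : Fin s → MvPolynomial (Fin s) T) :
        MvPolynomial (Fin s) T →ₐ[T] MvPolynomial (Fin s) T) (Ideal.span V) ⊔
          Ideal.span (X '' {j | S j}) := by
    intro V
    rw [EqPT, Ideal.span_union, Ideal.map_span]
  rw [key, key, h]

/-- normal systems -/
theorem normal_mem (hp : p.Prime) (hP : StableClass p P) {T : Type} [CommRing T] {s : ℕ}
    {V : Set (MvPolynomial (Fin s) T)} (hV : IsNormal p V) {d : Fin s → ℕ} (hd : ∀ j, d j ≠ 0)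
    (S : Fin s → Prop) : P (MvPolynomial (Fin s) T ⧸ Ideal.span (EqPT d V S)) := by
  obtain ⟨K, _, _, _, J, _, α, c, a, b, r, hc, hα, rfl⟩ := hV
  rcases Nat.eq_zero_or_pos r with rfl | hr
  · have h1 := normal_succ hp hP (a := fun _ => (0 : K)) (b := fun _ => (0 : K)) hc hα hd 1 S
    have h2 : Ideal.span (sysET α (fun _ => (0 : K)) (fun _ => (0 : K)) c 1) =
        Ideal.span (Set.range fun m : Fin 0 => ∑ j, monomial (α j)
          (c j * algebraMap K T (a j ^ (m : ℕ) * b j ^ (0 - 1 - (m : ℕ))))) := by
      rw [(Ideal.span_eq_bot).2, (Ideal.span_eq_bot).2]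
      · rintro _ ⟨i, rfl⟩
        exact i.elim0
      · rintro _ ⟨i, rfl⟩
        refine Finset.sum_eq_zero fun j _ => ?_
        have h3 : (0 : K) ^ (i : ℕ) * 0 ^ (1 - (i : ℕ)) = 0 := by
          fin_cases i <;> simp
        rw [h3, map_zero, mul_zero, map_zero]
    rw [← span_eqPT d h2 S]
    exact h1
  · obtain ⟨n, rfl⟩ := Nat.exists_eq_succ_of_ne_zero hr.ne'
    exact normal_succ hp hP hc hα hd n S

/-! ### Descent -/

/-- **descent** -/
theorem descendT (hP : FormalClass p P) {T T' : Type} [CommRing T] [CommRing T'] [Algebra T T']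
    [Nontrivial T'] [Module.Free T T'] [Module.Finite T T'] {σ : Type}
    (E : Set (MvPolynomial σ T)) (hft : Algebra.FiniteType ℤ (MvPolynomial σ T ⧸ Ideal.span E))
    (h : P (MvPolynomial σ T' ⧸ Ideal.span (map (algebraMap T T') '' E))) :
    P (MvPolynomial σ T ⧸ Ideal.span E) := by
  set A := MvPolynomial σ T ⧸ Ideal.span E with hA
  rcases subsingleton_or_nontrivial A with h0 | h0
  · exact p_sub hP h0
  have h1 : IsPush (RingHom.id T) (algebraMap T T') (algebraMap T T') (RingHom.id T') :=
    { comm := by rw [RingHom.comp_id, RingHom.id_comp]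
      ex := fun E _ f g hfg => ⟨g, by rw [← hfg, RingHom.comp_id], RingHom.comp_id g⟩
      uniq := fun E _ f g _ h => by rwa [RingHom.comp_id, RingHom.comp_id] at h }
  obtain ⟨u, hu⟩ := h1.pq E
  rw [RingHom.comp_id, RingHom.comp_id] at hu
  have h2 := isPush_tensor (R := T) (A := A) (K := T')
  obtain ⟨e, -⟩ := IsPush.equiv (a := pqC E) hu h2
  have h3 : P (T' ⊗[T] A) := hP.iso _ _ e h
  have h4 : P (A ⊗[T] T') := hP.iso _ _ (Algebra.TensorProduct.comm T T' A).toRingEquiv h3
  have : Nontrivial (A ⊗[T] T') := by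
    let b := Module.Free.chooseBasis T T'
    have hne : Nonempty (Module.Free.ChooseBasisIndex T T') := b.index_nonempty
    exact ((Algebra.TensorProduct.basis A b).repr.toEquiv.nontrivial :
      Nontrivial (A ⊗[T] T'))
  exact hP.transfer A (A ⊗[T] T') hft h4

/-- **Systems of equations in forms.** -/
theorem mainT (hp : p.Prime) (hP : StableClass p P) {k : Type} [Field k] [Finite k] [CharP k p]
    {T : Type} [CommRing T] [Algebra k T] (hT : Algebra.FiniteType k T) {s : ℕ}
    {σ : Fin s → Type} [∀ j, Fintype (σ j)] {F : ∀ j, MvPolynomial (σ j) k} {d : Fin s → ℕ}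
    (hF : ∀ j, Form (F j) (d j)) {V : Set (MvPolynomial (Fin s) T)} (hV : IsGoodSystem p V) :
    P (MvPolynomial (Σ j, σ j) T ⧸ Ideal.span ((fun H => compT H F) '' V)) := by
  have hk : (p : k) = 0 := CharP.cast_eq_zero k p
  have hG := fun j => (hF j).good hp hP.toFormalClass
  refine formsT hP.toFormalClass hk hT hG V fun S => ?_
  have hd : ∀ j, d j ≠ 0 := fun j => (hG j).1
  rcases hV with hV | ⟨T', _, _, _, _, _, W, hW, hVW⟩
  · exact curve_baseT hP.toFormalClass hk hT d hd V hV S
  · refine descendT (T' := T') hP.toFormalClass _ (ftZ (ft_pqT hT _)) ?_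
    have h1 : map (algebraMap T T') '' EqPT d V S = EqPT d (map (algebraMap T T') '' V) S := by
      rw [EqPT, EqPT, Set.image_union, Set.image_image, Set.image_image, Set.image_image]
      congr 1
      · refine Set.image_congr fun q _ => ?_
        rw [MvPolynomial.aeval_def, MvPolynomial.eval₂_comp_left, MvPolynomial.aeval_def,
          MvPolynomial.eval₂_map]
        congr 1
        · refine RingHom.ext fun r => ?_
          simp [MvPolynomial.algebraMap_eq]
        · funext j
          simp
      · simp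
    rw [h1, ← span_eqPT d hVW S]
    exact normal_mem hp hP hW hd S

end Pool.Agent.Helper29.PF
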