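import Pool.Agent.Helper29.PF.Zf

/-!
# Systems of equations in forms: replacing the forms by powers of variables
-/

set_option autoImplicit false

namespace Pool.Agent.Helper29.PF

open Pool.Agent.Helper29.CQ Pool.Agent.Helper65.CC Pool.Agent.Helper87.CC
open Pool.Agent.Helper65.CC.KFn
open MvPolynomial (aeval rename X)

variable {p : ℕ} {P : ∀ (A : Type) [CommRing A], Prop} {k : Type} [Field k]

/-- how the value of a form is described -/
inductive Mode : Type
  | zero | pow | form | free
  deriving DecidableEq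

/-- the variables: values, roots, variables of the forms -/
abbrev Kap {s : ℕ} (σ : Fin s → Type) : Type := (Fin s ⊕ Fin s) ⊕ (Σ j, σ j)

/-- the relation between the value, the root and the variables of the form -/
def Rel {s : ℕ} {σ : Fin s → Type} (F : ∀ j, MvPolynomial (σ j) k) (d : Fin s → ℕ) (m : Mode)
    (j : Fin s) {R : Type} [CommRing R] [Algebra k R] (x : Kap σ → R) : Prop :=
  match m with
  | .zero => x (.inl (.inl j)) = 0 ∧ x (.inl (.inr j)) = 0 ∧ ∀ a, x (.inr ⟨j, a⟩) = 0
  | .pow => x (.inl (.inl j)) = x (.inl (.inr j)) ^ d j ∧ ∀ a, x (.inr ⟨j, a⟩) = 0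
  | .form => x (.inl (.inl j)) = aeval (fun a => x (.inr ⟨j, a⟩)) (F j) ∧ x (.inl (.inr j)) = 0
  | .free => x (.inl (.inr j)) = 0 ∧ ∀ a, x (.inr ⟨j, a⟩) = 0

/-- the equations of the relation -/
noncomputable def RelE {s : ℕ} {σ : Fin s → Type} (F : ∀ j, MvPolynomial (σ j) k) (d : Fin s → ℕ)
    (m : Mode) (j : Fin s) : Set (MvPolynomial (Kap σ) k) :=
  match m with
  | .zero => {X (.inl (.inl j)), X (.inl (.inr j))} ∪ Set.range fun a => X (.inr ⟨j, a⟩)
  | .pow => {X (.inl (.inl j)) - X (.inl (.inr j)) ^ d j} ∪ Set.range fun a => X (.inr ⟨j, a⟩)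
  | .form => {X (.inl (.inl j)) - rename (fun a => .inr ⟨j, a⟩) (F j), X (.inl (.inr j))}
  | .free => {X (.inl (.inr j))} ∪ Set.range fun a => X (.inr ⟨j, a⟩)

theorem rel_iff {s : ℕ} {σ : Fin s → Type} (F : ∀ j, MvPolynomial (σ j) k) (d : Fin s → ℕ)
    (m : Mode) (j : Fin s) {R : Type} [CommRing R] [Algebra k R] (x : Kap σ → R) :
    (∀ q ∈ RelE F d m j, aeval x q = 0) ↔ Rel F d m j x := by
  rcases m with _ | _ | _ | _
  · simp [RelE, Rel, or_imp, forall_and, and_assoc]
  · simp [RelE, Rel, or_imp, forall_and, sub_eq_zero]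
  · simp only [RelE, Rel, Set.mem_insert_iff, Set.mem_singleton_iff, forall_eq_or_imp, forall_eq,
      map_sub, MvPolynomial.aeval_X, MvPolynomial.aeval_rename, sub_eq_zero]
    rfl
  · simp [RelE, Rel, or_imp, forall_and]

/-- the equations -/
noncomputable def EqM {s : ℕ} {σ : Fin s → Type} (F : ∀ j, MvPolynomial (σ j) k) (d : Fin s → ℕ)
    (V : Set (MvPolynomial (Fin s) k)) (m : Fin s → Mode) : Set (MvPolynomial (Kap σ) k) :=
  (rename (fun j => .inl (.inl j))) '' V ∪ ⋃ j, RelE F d (m j) j

theorem eqM_iff {s : ℕ} {σ : Fin s → Type} (F : ∀ j, MvPolynomial (σ j) k) (d : Fin s → ℕ)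
    (V : Set (MvPolynomial (Fin s) k)) (m : Fin s → Mode) {R : Type} [CommRing R] [Algebra k R]
    (x : Kap σ → R) : (∀ q ∈ EqM F d V m, aeval x q = 0) ↔
      (∀ h ∈ V, aeval (fun j => x (.inl (.inl j))) h = 0) ∧ ∀ j, Rel F d (m j) j x := by
  have h1 : (∀ q ∈ EqM F d V m, aeval x q = 0) ↔
      (∀ h ∈ V, aeval x (rename (fun j => .inl (.inl j)) h : MvPolynomial (Kap σ) k) = 0) ∧
        ∀ j, ∀ q ∈ RelE F d (m j) j, aeval x q = 0 := by
    constructor
    · intro h
      exact ⟨fun h' hh => h _ (Or.inl ⟨h', hh, rfl⟩), fun j q hq => h q (Or.inr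
        (Set.mem_iUnion.2 ⟨j, hq⟩))⟩
    · rintro ⟨h2, h3⟩ q (⟨h', hh, rfl⟩ | hq)
      · exact h2 h' hh
      · obtain ⟨j, hj⟩ := Set.mem_iUnion.1 hq
        exact h3 j q hj
  rw [h1]
  refine and_congr ?_ (forall_congr' fun j => rel_iff F d (m j) j x)
  refine forall₂_congr fun h _ => ?_
  rw [MvPolynomial.aeval_rename]
  rfl

/-- the functor -/
noncomputable def FM {s : ℕ} {σ : Fin s → Type} (F : ∀ j, MvPolynomial (σ j) k) (d : Fin s → ℕ)
    (V : Set (MvPolynomial (Fin s) k)) (m : Fin s → Mode) : KFn k := Zf (EqM F d V m)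

instance {s : ℕ} {σ : Fin s → Type} [∀ j, Finite (σ j)] (F : ∀ j, MvPolynomial (σ j) k)
    (d : Fin s → ℕ) (V : Set (MvPolynomial (Fin s) k)) (m : Fin s → Mode) : Rp (FM F d V m) := by
  unfold FM
  infer_instance

variable {s : ℕ} {σ : Fin s → Type} (F : ∀ j, MvPolynomial (σ j) k) (d : Fin s → ℕ)
    (V : Set (MvPolynomial (Fin s) k)) (m : Fin s → Mode)

/-- the value -/
noncomputable def cv (j : Fin s) : Coord (FM F d V m) where
  val x := x.1 (.inl (.inl j))
  nat _ _ := rfl

theorem FM.V_of {R : Type} [CommRing R] [Algebra k R] (x : (FM F d V m).obj R) :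
    ∀ h ∈ V, aeval (fun j => x.1 (.inl (.inl j))) h = 0 := ((eqM_iff F d V m x.1).1 x.2).1

theorem FM.rel_of {R : Type} [CommRing R] [Algebra k R] (x : (FM F d V m).obj R) (i : Fin s) :
    Rel F d (m i) i x.1 := ((eqM_iff F d V m x.1).1 x.2).2 i

/-- the relation depends only on the coordinates with the index `j` -/
theorem Rel.congr {n : Mode} {i : Fin s} {R : Type} [CommRing R] [Algebra k R] {x y : Kap σ → R}
    (h1 : x (.inl (.inl i)) = y (.inl (.inl i))) (h2 : x (.inl (.inr i)) = y (.inl (.inr i)))
    (h3 : ∀ a, x (.inr ⟨i, a⟩) = y (.inr ⟨i, a⟩)) (h : Rel F d n i x) : Rel F d n i y := by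
  have h4 : (fun a => x (.inr ⟨i, a⟩)) = fun a => y (.inr ⟨i, a⟩) := funext h3
  rcases n with _ | _ | _ | _
  · exact ⟨h1 ▸ h.1, h2 ▸ h.2.1, fun a => h3 a ▸ h.2.2 a⟩
  · exact ⟨by rw [← h1, ← h2]; exact h.1, fun a => h3 a ▸ h.2 a⟩
  · refine ⟨?_, h2 ▸ h.2⟩
    rw [← h1, ← h4]
    exact h.1
  · exact ⟨h2 ▸ h.1, fun a => h3 a ▸ h.2 a⟩

/-- the value zero -/
noncomputable def isoZero (j : Fin s) (hj : m j = .free) :
    Iso (FM F d V (Function.update m j .zero)) ((FM F d V m).cls (cv F d V m j)) where
  hom x := ⟨⟨x.1, (eqM_iff F d V m x.1).2 ⟨FM.V_of F d V _ x, fun i => by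
      by_cases hi : i = j
      · subst hi
        rw [hj]
        have h1 := FM.rel_of F d V _ x i
        rw [Function.update_self] at h1
        exact ⟨h1.2.1, h1.2.2⟩
      · have h1 := FM.rel_of F d V _ x i
        rwa [Function.update_of_ne hi] at h1⟩⟩, by
    have h1 := FM.rel_of F d V _ x j
    rw [Function.update_self] at h1
    exact h1.1⟩
  inv y := ⟨y.1.1, (eqM_iff F d V _ y.1.1).2 ⟨FM.V_of F d V _ y.1, fun i => by
      have h1 := FM.rel_of F d V _ y.1 i
      by_cases hi : i = j
      · subst hi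
        rw [Function.update_self]
        rw [hj] at h1
        exact ⟨y.2, h1.1, h1.2⟩
      · rwa [Function.update_of_ne hi]⟩⟩
  inv_hom _ := rfl
  hom_inv _ := rfl
  nat _ _ := rfl

open Classical in
/-- the value is a power -/
noncomputable def isoPow (j : Fin s) (hj : m j = .free) :
    Iso (FM F d V (Function.update m j .pow)) (root (FM F d V m) (cv F d V m j) (d j)) where
  hom x := ⟨(⟨Function.update x.1 (.inl (.inr j)) 0, (eqM_iff F d V m _).2 ⟨fun h hh => by
      have h1 := FM.V_of F d V _ x h hh
      exact h1, fun i => by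
      have h1 := FM.rel_of F d V _ x i
      by_cases hi : i = j
      · subst hi
        rw [Function.update_self] at h1
        rw [hj]
        refine ⟨Function.update_self _ _ _, fun a => ?_⟩
        rw [Function.update_of_ne (by simp)]
        exact h1.2 a
      · rw [Function.update_of_ne hi] at h1
        refine h1.congr F d ?_ ?_ ?_
        · rw [Function.update_of_ne (by simp)]
        · rw [Function.update_of_ne (by simpa using hi)]
        · intro a
          rw [Function.update_of_ne (by simp)]⟩⟩, x.1 (.inl (.inr j))), by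
    have h1 := FM.rel_of F d V _ x j
    rw [Function.update_self] at h1
    have h2 : x.1 (.inl (.inl j)) = x.1 (.inl (.inr j)) ^ d j := h1.1
    change x.1 (.inl (.inr j)) ^ d j - Function.update x.1 (.inl (.inr j)) 0 (.inl (.inl j)) = 0
    rw [Function.update_of_ne (by simp), h2, sub_self]⟩
  inv y := ⟨Function.update y.1.1.1 (.inl (.inr j)) y.1.2, (eqM_iff F d V _ _).2 ⟨fun h hh => by
      have h1 := FM.V_of F d V _ y.1.1 h hh
      exact h1, fun i => by
      have h1 := FM.rel_of F d V _ y.1.1 i
      by_cases hi : i = j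
      · subst hi
        rw [Function.update_self]
        rw [hj] at h1
        refine ⟨?_, fun a => ?_⟩
        · rw [Function.update_self, Function.update_of_ne (by simp)]
          exact (sub_eq_zero.1 y.2).symm
        · rw [Function.update_of_ne (by simp)]
          exact h1.2 a
      · rw [Function.update_of_ne hi]
        refine h1.congr F d ?_ ?_ ?_
        · rw [Function.update_of_ne (by simp)]
        · rw [Function.update_of_ne (by simpa using hi)]
        · intro a
          rw [Function.update_of_ne (by simp)]⟩⟩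
  inv_hom x := by
    apply Subtype.ext
    change Function.update (Function.update x.1 _ _) _ _ = x.1
    rw [Function.update_idem, Function.update_eq_self]
  hom_inv y := by
    apply Subtype.ext
    refine Prod.ext (Subtype.ext ?_) ?_
    · change Function.update (Function.update y.1.1.1 _ _) _ _ = y.1.1.1
      rw [Function.update_idem]
      have h1 := FM.rel_of F d V _ y.1.1 j
      rw [hj] at h1
      have h2 : y.1.1.1 (.inl (.inr j)) = 0 := h1.1
      funext i
      by_cases hi : i = .inl (.inr j)
      · rw [hi, Function.update_self, h2]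
      · rw [Function.update_of_ne hi]
    · exact Function.update_self _ _ _
  nat f x := by
    apply Subtype.ext
    refine Prod.ext (Subtype.ext ?_) rfl
    funext i
    change f (Function.update x.1 (.inl (.inr j)) 0 i) =
      Function.update (fun i => f (x.1 i)) (.inl (.inr j)) 0 i
    by_cases hi : i = .inl (.inr j)
    · subst hi
      rw [Function.update_self, Function.update_self, map_zero]
    · rw [Function.update_of_ne hi, Function.update_of_ne hi]

/-- replace the variables of the form with index `j` -/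
def repl (j : Fin s) {R : Type} (z : σ j → R) (x : Kap σ → R) : Kap σ → R
  | .inl a => x (.inl a)
  | .inr ⟨i, a⟩ => if h : i = j then z (h ▸ a) else x (.inr ⟨i, a⟩)

theorem repl_self (j : Fin s) {R : Type} (z : σ j → R) (x : Kap σ → R) (a : σ j) :
    repl j z x (.inr ⟨j, a⟩) = z a := by
  simp [repl]

theorem repl_ne {i j : Fin s} (h : i ≠ j) {R : Type} (z : σ j → R) (x : Kap σ → R) (a : σ i) :
    repl j z x (.inr ⟨i, a⟩) = x (.inr ⟨i, a⟩) := by
  simp [repl, h]

theorem repl_inl (j : Fin s) {R : Type} (z : σ j → R) (x : Kap σ → R) (a : Fin s ⊕ Fin s) :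
    repl j z x (.inl a) = x (.inl a) := rfl

theorem repl_repl (j : Fin s) {R : Type} (z z' : σ j → R) (x : Kap σ → R) :
    repl j z (repl j z' x) = repl j z x := by
  funext i
  rcases i with i | ⟨i, a⟩
  · rfl
  · by_cases h : i = j
    · subst h
      rw [repl_self, repl_self]
    · rw [repl_ne h, repl_ne h, repl_ne h]

theorem repl_eq (j : Fin s) {R : Type} (z : σ j → R) (x : Kap σ → R)
    (h : ∀ a, x (.inr ⟨j, a⟩) = z a) : repl j z x = x := by
  funext i
  rcases i with i | ⟨i, a⟩
  · rfl
  · by_cases hi : i = j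
    · subst hi
      rw [repl_self, h]
    · rw [repl_ne hi]

/-- the value is the value of the form -/
noncomputable def isoForm (j : Fin s) (hj : m j = .free) :
    Iso (FM F d V (Function.update m j .form)) (lev (FM F d V m) (cv F d V m j) (F j)) where
  hom x := ⟨(⟨repl j (fun _ => 0) x.1, (eqM_iff F d V m _).2 ⟨fun h hh => by
      have h1 := FM.V_of F d V _ x h hh
      exact h1, fun i => by
      have h1 := FM.rel_of F d V _ x i
      by_cases hi : i = j
      · subst hi
        rw [Function.update_self] at h1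
        rw [hj]
        exact ⟨h1.2, fun a => repl_self _ _ _ a⟩
      · rw [Function.update_of_ne hi] at h1
        refine Rel.congr F d (x := x.1) rfl rfl (fun a => (repl_ne hi _ _ a).symm) h1⟩⟩,
      fun a => x.1 (.inr ⟨j, a⟩)), by
    have h1 := FM.rel_of F d V _ x j
    rw [Function.update_self] at h1
    exact h1.1⟩
  inv y := ⟨repl j y.1.2 y.1.1.1, (eqM_iff F d V _ _).2 ⟨fun h hh => by
      have h1 := FM.V_of F d V _ y.1.1 h hh
      exact h1, fun i => by
      have h1 := FM.rel_of F d V _ y.1.1 i
      by_cases hi : i = j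
      · subst hi
        rw [Function.update_self]
        rw [hj] at h1
        refine ⟨?_, h1.1⟩
        have h2 : (fun a => repl i y.1.2 y.1.1.1 (.inr ⟨i, a⟩)) = y.1.2 :=
          funext fun a => repl_self _ _ _ a
        rw [h2]
        exact y.2
      · rw [Function.update_of_ne hi]
        refine Rel.congr F d (x := y.1.1.1) rfl rfl (fun a => (repl_ne hi _ _ a).symm) h1⟩⟩
  inv_hom x := by
    apply Subtype.ext
    change repl j (fun a => x.1 (.inr ⟨j, a⟩)) (repl j (fun _ => 0) x.1) = x.1
    rw [repl_repl]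
    exact repl_eq _ _ _ fun _ => rfl
  hom_inv y := by
    apply Subtype.ext
    refine Prod.ext (Subtype.ext ?_) ?_
    · change repl j (fun _ => 0) (repl j y.1.2 y.1.1.1) = y.1.1.1
      rw [repl_repl]
      have h1 := FM.rel_of F d V _ y.1.1 j
      rw [hj] at h1
      exact repl_eq _ _ _ h1.2
    · exact funext fun a => repl_self _ _ _ a
  nat f x := by
    apply Subtype.ext
    refine Prod.ext (Subtype.ext ?_) rfl
    funext i
    change f (repl j (fun _ => 0) x.1 i) = repl j (fun _ => 0) (fun i => f (x.1 i)) i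
    rcases i with i | ⟨i, a⟩
    · rfl
    · by_cases hi : i = j
      · subst hi
        rw [repl_self, repl_self, map_zero]
      · rw [repl_ne hi, repl_ne hi]

/-- the equations between the powers of variables -/
noncomputable def EqP (d : Fin s → ℕ) (V : Set (MvPolynomial (Fin s) k)) (S : Set (Fin s)) :
    Set (MvPolynomial (Fin s) k) :=
  (aeval (fun j => X j ^ d j : Fin s → MvPolynomial (Fin s) k)) '' V ∪ X '' S

theorem eqP_iff (S : Set (Fin s)) {R : Type} [CommRing R] [Algebra k R] (u : Fin s → R) :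
    (∀ q ∈ EqP d V S, aeval u q = 0) ↔
      (∀ h ∈ V, aeval (fun j => u j ^ d j) h = 0) ∧ ∀ j ∈ S, u j = 0 := by
  have h1 : ∀ h : MvPolynomial (Fin s) k,
      aeval u (aeval (fun j => X j ^ d j : Fin s → MvPolynomial (Fin s) k) h) =
        aeval (fun j => u j ^ d j) h := by
    intro h
    rw [MvPolynomial.comp_aeval_apply]
    simp
  constructor
  · intro h
    refine ⟨fun g hg => ?_, fun j hj => ?_⟩
    · rw [← h1]
      exact h _ (Or.inl ⟨g, hg, rfl⟩)
    · have h2 := h _ (Or.inr ⟨j, hj, rfl⟩)
      rwa [MvPolynomial.aeval_X] at h2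
  · rintro ⟨h2, h3⟩ q (⟨g, hg, rfl⟩ | ⟨j, hj, rfl⟩)
    · rw [h1]
      exact h2 g hg
    · rw [MvPolynomial.aeval_X]
      exact h3 j hj

/-- only powers and zeros -/
noncomputable def isoBase (hd : ∀ j, d j ≠ 0) (hm : ∀ j, m j = .zero ∨ m j = .pow) :
    Iso (FM F d V m) (Zf (EqP d V {j | m j = .zero})) where
  hom x := ⟨fun j => x.1 (.inl (.inr j)), (eqP_iff d V _ _).2 ⟨fun h hh => by
      have h1 : (fun j => x.1 (.inl (.inr j)) ^ d j) = fun j => x.1 (.inl (.inl j)) := by
        funext j
        have h2 := FM.rel_of F d V m x j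
        rcases hm j with h3 | h3
        · rw [h3] at h2
          have h4 : x.1 (.inl (.inr j)) = 0 := h2.2.1
          have h5 : x.1 (.inl (.inl j)) = 0 := h2.1
          rw [h4, h5, zero_pow (hd j)]
        · rw [h3] at h2
          exact h2.1.symm
      rw [h1]
      exact FM.V_of F d V m x h hh, fun j hj => by
      have h2 := FM.rel_of F d V m x j
      have h3 : m j = .zero := hj
      rw [h3] at h2
      exact h2.2.1⟩⟩
  inv u := ⟨Sum.elim (Sum.elim (fun j => u.1 j ^ d j) u.1) fun _ => 0,
    (eqM_iff F d V m _).2 ⟨((eqP_iff d V _ _).1 u.2).1, fun j => by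
      rcases hm j with h3 | h3
      · rw [h3]
        have h4 : u.1 j = 0 := ((eqP_iff d V _ _).1 u.2).2 j h3
        refine ⟨?_, h4, fun _ => rfl⟩
        change u.1 j ^ d j = 0
        rw [h4, zero_pow (hd j)]
      · rw [h3]
        exact ⟨rfl, fun _ => rfl⟩⟩⟩
  inv_hom x := by
    apply Subtype.ext
    funext i
    rcases i with (j | j) | ⟨j, a⟩
    · change x.1 (.inl (.inr j)) ^ d j = x.1 (.inl (.inl j))
      have h2 := FM.rel_of F d V m x j
      rcases hm j with h3 | h3
      · rw [h3] at h2
        have h4 : x.1 (.inl (.inr j)) = 0 := h2.2.1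
        have h5 : x.1 (.inl (.inl j)) = 0 := h2.1
        rw [h4, h5, zero_pow (hd j)]
      · rw [h3] at h2
        exact h2.1.symm
    · rfl
    · change 0 = x.1 (.inr ⟨j, a⟩)
      have h2 := FM.rel_of F d V m x j
      rcases hm j with h3 | h3
      · rw [h3] at h2
        exact (h2.2.2 a).symm
      · rw [h3] at h2
        exact (h2.2 a).symm
  hom_inv _ := rfl
  nat f x := rfl

/-- the equations in the forms -/
noncomputable def EqF (V : Set (MvPolynomial (Fin s) k)) : Set (MvPolynomial (Σ j, σ j) k) :=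
  (aeval (fun j => rename (Sigma.mk j) (F j) : Fin s → MvPolynomial (Σ j, σ j) k)) '' V

theorem eqF_iff {R : Type} [CommRing R] [Algebra k R] (z : (Σ j, σ j) → R) :
    (∀ q ∈ EqF F V, aeval z q = 0) ↔
      ∀ h ∈ V, aeval (fun j => aeval (fun a => z ⟨j, a⟩) (F j)) h = 0 := by
  have h1 : ∀ h : MvPolynomial (Fin s) k,
      aeval z (aeval (fun j => rename (Sigma.mk j) (F j) : Fin s → MvPolynomial (Σ j, σ j) k) h) =
        aeval (fun j => aeval (fun a => z ⟨j, a⟩) (F j)) h := by
    intro h
    rw [MvPolynomial.comp_aeval_apply]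
    congr 2
    funext j
    rw [MvPolynomial.aeval_rename]
    rfl
  constructor
  · intro h g hg
    rw [← h1]
    exact h _ ⟨g, hg, rfl⟩
  · rintro h2 q ⟨g, hg, rfl⟩
    rw [h1]
    exact h2 g hg

/-- only forms -/
noncomputable def isoTop : Iso (Zf (EqF F V)) (FM F d V fun _ => .form) where
  hom z := ⟨Sum.elim (Sum.elim (fun j => aeval (fun a => z.1 ⟨j, a⟩) (F j)) fun _ => 0) z.1,
    (eqM_iff F d V _ _).2 ⟨(eqF_iff F V z.1).1 z.2, fun _ => ⟨rfl, rfl⟩⟩⟩
  inv x := ⟨fun a => x.1 (.inr a), (eqF_iff F V _).2 fun h hh => by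
    have h1 : (fun j => aeval (fun a => x.1 (.inr ⟨j, a⟩)) (F j)) =
        fun j => x.1 (.inl (.inl j)) := by
      funext j
      exact (FM.rel_of F d V _ x j).1.symm
    rw [h1]
    exact FM.V_of F d V _ x h hh⟩
  inv_hom _ := rfl
  hom_inv x := by
    apply Subtype.ext
    funext i
    rcases i with (j | j) | a
    · exact (FM.rel_of F d V _ x j).1.symm
    · exact (FM.rel_of F d V _ x j).2.symm
    · rfl
  nat f z := by
    apply Subtype.ext
    funext i
    rcases i with (j | j) | a
    · exact MvPolynomial.comp_aeval_apply (R := k) _ f (F j)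
    · exact map_zero f
    · rfl

/-- **the induction** -/
theorem mem_FM [Finite k] (hP : FormalClass p P) (hk : (p : k) = 0) [∀ j, Fintype (σ j)]
    (hF : ∀ j, Pool.Agent.Helper67.CQ.GoodD P (F j) (d j))
    (hbase : ∀ S : Set (Fin s), (Zf (EqP d V S)).Mem (Pk P k)) (n : ℕ) :
    ∀ m : Fin s → Mode, (∀ j, m j ≠ .free) → (Finset.univ.filter fun j => m j = .form).card = n →
      (FM F d V m).Mem (Pk P k) := by
  induction n using Nat.strong_induction_on with
  | _ n ih =>
  intro m hfree hn
  by_cases h : ∃ j, m j = .form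
  · obtain ⟨j, hj⟩ := h
    have h1 : Function.update (Function.update m j .free) j .form = m := by
      rw [Function.update_idem, ← hj, Function.update_eq_self]
    have h2 : ∀ q : Mode, q ≠ .form → q ≠ .free →
        (FM F d V (Function.update (Function.update m j .free) j q)).Mem (Pk P k) := by
      intro q hq hq'
      rw [Function.update_idem]
      refine ih _ ?_ _ ?_ rfl
      · rw [← hn]
        apply Finset.card_lt_card
        rw [Finset.ssubset_iff_of_subset]
        · refine ⟨j, by simpa using hj, ?_⟩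
          simp [hq]
        · intro i hi
          rw [Finset.mem_filter] at hi ⊢
          refine ⟨Finset.mem_univ _, ?_⟩
          by_cases hij : i = j
          · subst hij
            exact hj
          · rw [Function.update_of_ne hij] at hi
            exact hi.2
      · intro i
        by_cases hij : i = j
        · subst hij
          rw [Function.update_self]
          exact hq'
        · rw [Function.update_of_ne hij]
          exact hfree i
    have hm' : Function.update m j Mode.free j = .free := Function.update_self _ _ _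
    rw [← h1]
    refine Mem.of_iso (isoForm F d V _ j hm') (mem_lev hP hk _ (hF j) ?_ ?_)
    · exact Mem.of_iso (isoZero F d V _ j hm').symm (h2 .zero (by decide) (by decide))
    · exact Mem.of_iso (isoPow F d V _ j hm').symm (h2 .pow (by decide) (by decide))
  · push Not at h
    refine Mem.of_iso (isoBase F d V m (fun j => (hF j).1) fun j => ?_) (hbase _)
    have h1 := h j
    have h2 := hfree j
    rcases hmj : m j with _ | _ | _ | _
    · exact Or.inl rfl
    · exact Or.inr rfl
    · exact absurd hmj h1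
    · exact absurd hmj h2

/-- **Systems of equations in forms.** -/
theorem forms_mem [Finite k] (hP : FormalClass p P) (hk : (p : k) = 0) [∀ j, Fintype (σ j)]
    (hF : ∀ j, Pool.Agent.Helper67.CQ.GoodD P (F j) (d j))
    (hbase : ∀ S : Set (Fin s), P (MvPolynomial (Fin s) k ⧸ Ideal.span (EqP d V S))) :
    P (MvPolynomial (Σ j, σ j) k ⧸ Ideal.span (EqF F V)) := by
  refine of_mem_Zf (Mem.of_iso (isoTop F d V) ?_)
  exact mem_FM F d V hP hk hF (fun S => mem_Zf hP hk (hbase S)) _ _ (fun _ => by decide) rfl

end Pool.Agent.Helper29.PF
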