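import Mathlib

/-!
# The coefficients of a monic polynomial with a root
-/

set_option autoImplicit false

namespace Pool.Agent.Helper29.PF

open Polynomial

variable {R : Type} [CommRing R]

/-- the value of the monic binary form with the given coefficients -/
def pol (n : ℕ) (e : Fin n → R) (t s : R) : R :=
  t ^ n + ∑ b : Fin n, e b * t ^ (b : ℕ) * s ^ (n - b)

/-- the coefficients of the product with a linear form -/
def mulc {n : ℕ} (l : R) (e : Fin n → R) : Fin (n + 1) → R :=
  fun b => (Fin.cons 0 e : Fin (n + 1) → R) b - l * (Fin.snoc e 1 : Fin (n + 1) → R) b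

theorem pol_mulc {n : ℕ} (l : R) (e : Fin n → R) (t s : R) :
    pol (n + 1) (mulc l e) t s = (t - l * s) * pol n e t s := by
  have h1 : ∑ b : Fin (n + 1), (Fin.cons 0 e : Fin (n + 1) → R) b * t ^ (b : ℕ) *
      s ^ (n + 1 - b) = t * ∑ b : Fin n, e b * t ^ (b : ℕ) * s ^ (n - b) := by
    rw [Fin.sum_univ_succ, Fin.cons_zero, zero_mul, zero_mul, zero_add, Finset.mul_sum]
    refine Finset.sum_congr rfl fun i _ => ?_
    rw [Fin.cons_succ, Fin.val_succ, Nat.add_sub_add_right]
    ring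
  have h2 : ∑ b : Fin (n + 1), (Fin.snoc e 1 : Fin (n + 1) → R) b * t ^ (b : ℕ) *
      s ^ (n + 1 - b) = s * (∑ b : Fin n, e b * t ^ (b : ℕ) * s ^ (n - b)) + t ^ n * s := by
    rw [Fin.sum_univ_castSucc, Fin.snoc_last, Fin.val_last, Nat.add_sub_cancel_left, pow_one,
      one_mul, Finset.mul_sum]
    congr 1
    refine Finset.sum_congr rfl fun i _ => ?_
    rw [Fin.snoc_castSucc, Fin.val_castSucc]
    have h : n + 1 - (i : ℕ) = (n - i) + 1 := by omega
    rw [h]
    ring
  have h3 : ∑ b : Fin (n + 1), mulc l e b * t ^ (b : ℕ) * s ^ (n + 1 - b) =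
      (∑ b : Fin (n + 1), (Fin.cons 0 e : Fin (n + 1) → R) b * t ^ (b : ℕ) * s ^ (n + 1 - b)) -
        l * ∑ b : Fin (n + 1), (Fin.snoc e 1 : Fin (n + 1) → R) b * t ^ (b : ℕ) *
          s ^ (n + 1 - b) := by
    rw [Finset.mul_sum, ← Finset.sum_sub_distrib]
    refine Finset.sum_congr rfl fun i _ => ?_
    rw [mulc]
    ring
  rw [pol, h3, h1, h2, pol]
  ring

/-- the monic polynomial -/
noncomputable def Pn {n : ℕ} (e : Fin n → R) : R[X] := X ^ n + ∑ b : Fin n, C (e b) * X ^ (b : ℕ)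

theorem Pn_eq {n : ℕ} (e : Fin n → R) : Pn e = pol n (fun b => C (e b)) X 1 := by
  simp [Pn, pol]

theorem Pn_deg {n : ℕ} (e : Fin n → R) : (∑ b : Fin n, C (e b) * X ^ (b : ℕ)).degree < (n : WithBot ℕ) :=
  degree_sum_fin_lt e

theorem Pn_monic {n : ℕ} (e : Fin n → R) : (Pn e).Monic := monic_X_pow_add (Pn_deg e)

theorem Pn_natDegree {n : ℕ} [Nontrivial R] (e : Fin n → R) : (Pn e).natDegree = n := by
  apply natDegree_eq_of_degree_eq_some
  rw [Pn, degree_add_eq_left_of_degree_lt, degree_X_pow]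
  rw [degree_X_pow]
  exact Pn_deg e

theorem Pn_coeff {n : ℕ} (e : Fin n → R) (b : Fin n) : (Pn e).coeff b = e b := by
  rw [Pn, coeff_add, coeff_X_pow, if_neg b.2.ne, zero_add, finsetSum_coeff,
    Finset.sum_eq_single b]
  · rw [coeff_C_mul, coeff_X_pow, if_pos rfl, mul_one]
  · intro c _ hc
    rw [coeff_C_mul, coeff_X_pow, if_neg (fun h => hc (Fin.ext h.symm)), mul_zero]
  · exact fun h => absurd (Finset.mem_univ b) h

theorem Pn_inj {n : ℕ} {e e' : Fin n → R} (h : Pn e = Pn e') : e = e' := by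
  funext b
  rw [← Pn_coeff e, h, Pn_coeff]

theorem Pn_of_monic {n : ℕ} {g : R[X]} (hg : g.Monic) (hn : g.natDegree = n) :
    Pn (fun b : Fin n => g.coeff b) = g := by
  conv_rhs => rw [hg.as_sum, hn]
  rw [Pn, Finset.sum_range]

theorem Pn_mulc {n : ℕ} (l : R) (e : Fin n → R) : Pn (mulc l e) = (X - C l) * Pn e := by
  have h : (fun b => C (mulc l e b)) = mulc (C l) (fun b => C (e b)) := by
    funext b
    simp only [mulc, C_sub, C_mul]
    congr 1
    · refine Fin.cases ?_ (fun i => ?_) b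
      · simp
      · simp
    · congr 1
      refine Fin.lastCases ?_ (fun i => ?_) b
      · simp
      · simp
  rw [Pn_eq, h, pol_mulc, Pn_eq, mul_one]

/-- the coefficients of the quotient by a linear form -/
noncomputable def divc {n : ℕ} (l : R) (e : Fin (n + 1) → R) : Fin n → R :=
  fun b => (Pn e /ₘ (X - C l)).coeff b

theorem divc_mulc {n : ℕ} (l : R) (e : Fin n → R) : divc l (mulc l e) = e := by
  funext b
  rw [divc, Pn_mulc, mul_divByMonic_cancel_left _ (monic_X_sub_C l), Pn_coeff]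

theorem Pn_eval {n : ℕ} (l : R) (e : Fin n → R) : (Pn e).eval l = pol n e l 1 := by
  simp [Pn, pol, eval_finsetSum]

theorem mulc_divc {n : ℕ} (l : R) (e : Fin (n + 1) → R) (h : pol (n + 1) e l 1 = 0) :
    mulc l (divc l e) = e := by
  cases subsingleton_or_nontrivial R
  · exact Subsingleton.elim _ _
  apply Pn_inj
  rw [Pn_mulc]
  have h1 : (X - C l) * (Pn e /ₘ (X - C l)) = Pn e :=
    mul_divByMonic_eq_iff_isRoot.2 ((Pn_eval l e).trans h)
  have h2 : (Pn e /ₘ (X - C l)).Monic := by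
    apply (monic_X_sub_C l).of_mul_monic_left
    rw [h1]
    exact Pn_monic e
  have h3 : (Pn e /ₘ (X - C l)).natDegree = n := by
    have h4 := congrArg natDegree h1
    rw [(monic_X_sub_C l).natDegree_mul h2, natDegree_X_sub_C, Pn_natDegree] at h4
    omega
  have h5 : Pn (divc l e) = Pn e /ₘ (X - C l) := Pn_of_monic h2 h3
  rw [h5, h1]

theorem mulc_root {n : ℕ} (l : R) (e : Fin n → R) : pol (n + 1) (mulc l e) l 1 = 0 := by
  rw [pol_mulc, mul_one, sub_self, zero_mul]

theorem map_mulc {n : ℕ} {S : Type} [CommRing S] (f : R →+* S) (l : R) (e : Fin n → R) :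
    (fun b => f (mulc l e b)) = mulc (f l) (fun b => f (e b)) := by
  funext b
  simp only [mulc, map_sub, map_mul]
  congr 1
  · refine Fin.cases ?_ (fun i => ?_) b
    · simp
    · simp
  · congr 1
    refine Fin.lastCases ?_ (fun i => ?_) b
    · simp
    · simp

theorem map_divc {n : ℕ} {S : Type} [CommRing S] (f : R →+* S) (l : R) (e : Fin (n + 1) → R)
    (h : pol (n + 1) e l 1 = 0) :
    (fun b => f (divc l e b)) = divc (f l) (fun b => f (e b)) := by
  have h1 := map_mulc f l (divc l e)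
  rw [mulc_divc l e h] at h1
  rw [h1, divc_mulc]

end Pool.Agent.Helper29.PF
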