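import Pool.Agent.Helper29.PF.Stable
import Pool.Agent.Helper29.PF.Vieta

/-!
# Transfer from ordered to unordered parameters
-/

set_option autoImplicit false

namespace Pool.Agent.Helper29.PF

open Pool.Agent.Helper29.CQ Pool.Agent.Helper65.CC Pool.Agent.Helper87.CC
open Pool.Agent.Helper65.CC.KFn

variable {p : ℕ} {P : ∀ (A : Type) [CommRing A], Prop} {k : Type} [Field k]
variable {J : Type} [Fintype J] (t s : J → k)

/-- transfer for roots of monic polynomials -/
theorem transfer_root [Finite k] (hP : FormalClass p P) (hk : (p : k) = 0) {R : Type} [CommRing R]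
    [Algebra k R] (hR : Algebra.FiniteType k R) {g : Polynomial R} (hg : g.Monic)
    (hd : 0 < g.natDegree) (h : P (AdjoinRoot g)) : P R := by
  cases subsingleton_or_nontrivial R
  · exact (kops hP hk).zero R inferInstance
  have h1 : Nontrivial (AdjoinRoot g) := by
    have hi : 0 < (AdjoinRoot.powerBasis' hg).dim := by
      rwa [AdjoinRoot.powerBasis'_dim]
    exact ⟨⟨(AdjoinRoot.powerBasis' hg).basis ⟨0, hi⟩, 0,
      (AdjoinRoot.powerBasis' hg).basis.ne_zero _⟩⟩
  have h2 : Module.Free R (AdjoinRoot g) := hg.free_adjoinRoot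
  have h3 : Module.Finite R (AdjoinRoot g) := hg.finite_adjoinRoot
  exact hP.transfer R (AdjoinRoot g) (ftZ hR) h

/-- the polynomial ring represents the product with the line -/
theorem rep_line {F : KFn k} {A : Type} [CommRing A] [Algebra k A] {a : F.obj A}
    (h : F.Rep A a) : F.line.Rep (Polynomial A)
      ((F.map (IsScalarTower.toAlgHom k A (Polynomial A)) a, Polynomial.X) : F.obj _ × _) := by
  intro R _ _ x
  obtain ⟨f, hf, hu⟩ := h R x.1
  let g0 : Polynomial A →ₐ[k] R :=
    { Polynomial.eval₂RingHom (f : A →+* R) x.2 with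
      commutes' := fun k => by
        rw [IsScalarTower.algebraMap_apply _ A (Polynomial A)]
        change Polynomial.eval₂ (f : A →+* R) x.2 (Polynomial.C _) = _
        rw [Polynomial.eval₂_C]
        exact f.commutes k }
  have hg0 : g0.comp (IsScalarTower.toAlgHom k A (Polynomial A)) = f := by
    ext b
    change Polynomial.eval₂ (f : A →+* R) x.2 (Polynomial.C b) = _
    rw [Polynomial.eval₂_C]
    rfl
  have hX : g0 Polynomial.X = x.2 := by
    change Polynomial.eval₂ (f : A →+* R) x.2 Polynomial.X = _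
    rw [Polynomial.eval₂_X]
  refine ⟨g0, ?_, ?_⟩
  · refine Prod.ext ?_ hX
    change F.map _ (F.map _ a) = x.1
    rw [← F.comp_map, hg0, hf]
  · intro g hg
    have h1 : g.comp (IsScalarTower.toAlgHom k A (Polynomial A)) = f := by
      apply hu
      rw [F.comp_map]
      exact congrArg Prod.fst hg
    have h2 : g Polynomial.X = x.2 := congrArg Prod.snd hg
    apply AlgHom.coe_ringHom_injective
    apply Polynomial.ringHom_ext
    · intro b
      exact DFunLike.congr_fun (h1.trans hg0.symm) b
    · exact h2.trans hX.symm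

/-- the equation with unordered parameters -/
noncomputable def unC {F : KFn k} (C : J → Coord F) (n : ℕ) : Coord (pw F n) where
  val {R} _ _ x := ∑ i, (C i).val x.1 * pol n x.2 (algebraMap k R (t i)) (algebraMap k R (s i))
  nat {R S} _ _ _ _ f x := by
    rw [map_sum]
    refine Finset.sum_congr rfl fun i _ => ?_
    rw [map_mul, (C i).nat, pol, pol, map_add, map_sum, map_pow, f.commutes]
    congr 2
    refine Finset.sum_congr rfl fun b _ => ?_
    rw [map_mul, map_mul, map_pow, map_pow, f.commutes, f.commutes]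
    rfl

/-- the variety with unordered parameters -/
noncomputable def Un {F : KFn k} (C : J → Coord F) (n : ℕ) : KFn k := (pw F n).cls (unC t s C n)

instance {F : KFn k} [Rp F] (C : J → Coord F) (n : ℕ) : Rp (Un t s C n) := by
  unfold Un
  infer_instance

/-- the coordinates with one more ordered parameter -/
noncomputable def nx {F : KFn k} (C : J → Coord F) : J → Coord F.line := fun i =>
  { val := fun {R} _ _ x => (C i).val x.1 * (algebraMap k R (t i) - x.2 * algebraMap k R (s i))
    nat := fun f x => by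
      rw [map_mul, map_sub, map_mul, (C i).nat, f.commutes, f.commutes]
      rfl }

/-- the root of the polynomial -/
noncomputable def rtC {F : KFn k} (C : J → Coord F) (n : ℕ) : Coord (Un t s C n).line where
  val x := pol n x.1.1.2 x.2 1
  nat f x := by
    rw [pol, pol, map_add, map_sum, map_pow]
    congr 1
    refine Finset.sum_congr rfl fun b _ => ?_
    rw [map_mul, map_mul, map_pow, map_pow, map_one]
    rfl

/-- one ordered parameter -/
noncomputable def unIso {F : KFn k} (C : J → Coord F) (n : ℕ) :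
    Iso ((Un t s C (n + 1)).line.cls (rtC t s C (n + 1))) (Un t s (nx t s C) n) where
  hom {R} _ _ x := ⟨((x.1.1.1.1, x.1.2), divc x.1.2 x.1.1.1.2), by
    have h1 : ∑ i, (C i).val x.1.1.1.1 *
      pol (n + 1) x.1.1.1.2 (algebraMap k R (t i)) (algebraMap k R (s i)) = 0 := x.1.1.2
    have h2 := mulc_divc x.1.2 x.1.1.1.2 x.2
    refine Eq.trans ?_ h1
    refine Finset.sum_congr rfl fun i _ => ?_
    have h3 := pol_mulc x.1.2 (divc x.1.2 x.1.1.1.2) (algebraMap k R (t i)) (algebraMap k R (s i))
    rw [h2] at h3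
    rw [h3, ← mul_assoc]
    rfl⟩
  inv {R} _ _ y := ⟨(⟨(y.1.1.1, mulc y.1.1.2 y.1.2), by
    have h1 : ∑ i, ((C i).val y.1.1.1 * (algebraMap k R (t i) - y.1.1.2 * algebraMap k R (s i))) *
      pol n y.1.2 (algebraMap k R (t i)) (algebraMap k R (s i)) = 0 := y.2
    refine Eq.trans ?_ h1
    refine Finset.sum_congr rfl fun i _ => ?_
    rw [mul_assoc, ← pol_mulc]⟩, y.1.1.2), mulc_root y.1.1.2 y.1.2⟩
  inv_hom {R} _ _ x := by
    apply Subtype.ext
    refine Prod.ext (Subtype.ext (Prod.ext rfl ?_)) rfl
    exact mulc_divc x.1.2 x.1.1.1.2 x.2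
  hom_inv y := by
    apply Subtype.ext
    refine Prod.ext rfl ?_
    exact divc_mulc y.1.1.2 y.1.2
  nat f x := by
    apply Subtype.ext
    refine Prod.ext rfl ?_
    exact map_divc f.toRingHom x.1.2 x.1.1.1.2 x.2

/-- **transfer** -/
theorem mem_un_succ [Finite k] (hP : FormalClass p P) (hk : (p : k) = 0) {F : KFn k} [Rp F]
    (C : J → Coord F) (n : ℕ) (h : (Un t s (nx t s C) n).Mem (Pk P k)) :
    (Un t s C (n + 1)).Mem (Pk P k) := by
  intro A _ _ a hA ha
  have h1 := Mem.of_iso (unIso t s C n) h
  have h2 := rep_line ha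
  obtain ⟨b, hb⟩ := h2.cls (rtC t s C (n + 1))
  have h3 := h1 _ b (ft_quot (ft_poly hA) _) hb
  have h4 : (rtC t s C (n + 1)).val (((Un t s C (n + 1)).map
      (IsScalarTower.toAlgHom k A (Polynomial A)) a, Polynomial.X) :
        (Un t s C (n + 1)).obj _ × _) = Pn a.1.2 := by
    rw [Pn_eq]
    rfl
  rw [h4] at h3
  cases subsingleton_or_nontrivial A
  · exact (kops hP hk).zero A inferInstance
  refine transfer_root hP hk hA (Pn_monic a.1.2) ?_ h3
  rw [Pn_natDegree]
  exact Nat.succ_pos n

/-- the equation with ordered parameters -/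
noncomputable def orC {F : KFn k} (C : J → Coord F) (n : ℕ) : Coord (pw F n) where
  val {R} _ _ x := ∑ i, (C i).val x.1 *
    ∏ a : Fin n, (algebraMap k R (t i) - x.2 a * algebraMap k R (s i))
  nat {R S} _ _ _ _ f x := by
    rw [map_sum]
    refine Finset.sum_congr rfl fun i _ => ?_
    rw [map_mul, (C i).nat, map_prod]
    congr 1
    refine Finset.prod_congr rfl fun b _ => ?_
    rw [map_sub, map_mul, f.commutes, f.commutes]
    rfl

/-- the variety with ordered parameters -/
noncomputable def Or {F : KFn k} (C : J → Coord F) (n : ℕ) : KFn k := (pw F n).cls (orC t s C n)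

/-- no parameters -/
noncomputable def orZero {F : KFn k} (C : J → Coord F) : Iso (Un t s C 0) (Or t s C 0) where
  hom {R} _ _ x := ⟨x.1, by
    have h : ∑ i, (C i).val x.1.1 * pol 0 x.1.2 (algebraMap k R (t i)) (algebraMap k R (s i)) = 0 :=
      x.2
    refine Eq.trans ?_ h
    refine Finset.sum_congr rfl fun i _ => ?_
    simp [pol]⟩
  inv {R} _ _ x := ⟨x.1, by
    have h : ∑ i, (C i).val x.1.1 *
      ∏ a : Fin 0, (algebraMap k R (t i) - x.1.2 a * algebraMap k R (s i)) = 0 := x.2
    refine Eq.trans ?_ h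
    refine Finset.sum_congr rfl fun i _ => ?_
    simp [pol]⟩
  inv_hom _ := rfl
  hom_inv _ := rfl
  nat _ _ := rfl

/-- one more ordered parameter -/
noncomputable def orSucc {F : KFn k} (C : J → Coord F) (n : ℕ) :
    Iso (Or t s (nx t s C) n) (Or t s C (n + 1)) where
  hom {R} _ _ x := ⟨(x.1.1.1, Fin.cons x.1.1.2 x.1.2), by
    have h : ∑ i, ((C i).val x.1.1.1 * (algebraMap k R (t i) - x.1.1.2 * algebraMap k R (s i))) *
      ∏ a : Fin n, (algebraMap k R (t i) - x.1.2 a * algebraMap k R (s i)) = 0 := x.2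
    refine Eq.trans ?_ h
    refine Finset.sum_congr rfl fun i _ => ?_
    rw [Fin.prod_univ_succ, mul_assoc]
    rfl⟩
  inv {R} _ _ x := ⟨((x.1.1, x.1.2 0), Fin.tail x.1.2), by
    have h : ∑ i, (C i).val x.1.1 *
      ∏ a : Fin (n + 1), (algebraMap k R (t i) - x.1.2 a * algebraMap k R (s i)) = 0 := x.2
    refine Eq.trans ?_ h
    refine Finset.sum_congr rfl fun i _ => ?_
    rw [Fin.prod_univ_succ, ← mul_assoc]
    rfl⟩
  inv_hom _ := rfl
  hom_inv x := Subtype.ext (Prod.ext rfl (Fin.cons_self_tail _))
  nat f x := by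
    apply Subtype.ext
    refine Prod.ext rfl ?_
    funext i
    exact Fin.cases rfl (fun _ => rfl) i

/-- **from ordered to unordered parameters** -/
theorem mem_un [Finite k] (hP : FormalClass p P) (hk : (p : k) = 0) (n : ℕ) :
    ∀ {F : KFn k} [Rp F] (C : J → Coord F), (Or t s C n).Mem (Pk P k) →
      (Un t s C n).Mem (Pk P k) := by
  induction n with
  | zero => exact fun C h => Mem.of_iso (orZero t s C) h
  | succ n ih =>
    intro F _ C h
    exact mem_un_succ t s hP hk C n (ih (nx t s C) (Mem.of_iso (orSucc t s C n) h))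

end Pool.Agent.Helper29.PF
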