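import Pool.Agent.Helper29.PF.ZfT
import Pool.Agent.Helper29.PF.Unord
import Pool.Agent.Helper29.PF.Fib

/-!
# From cyclic covers to forms
-/

set_option autoImplicit false

namespace Pool.Agent.Helper29.PF

open Pool.Agent.Helper29.CQ Pool.Agent.Helper65.CC Pool.Agent.Helper87.CC
open Pool.Agent.Helper65.CC.KFn
open MvPolynomial (aeval eval₂ C X map)

variable {p : ℕ} {P : ∀ (A : Type) [CommRing A], Prop} {k : Type} [Field k]
variable {B : Type} [CommRing B] [Algebra k B]

/-- the coordinate given by an element -/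
def elC (k : Type) [Field k] {B : Type} [CommRing B] [Algebra k B] (a : B) :
    Coord (HT k B) where
  val x := ev x a
  nat _ _ := rfl

theorem rep_HT : (HT k B).Rep B (AlgHom.id k B) := fun _ _ _ x => ⟨x, AlgHom.comp_id x,
  fun g hg => by
    rw [← hg]
    exact (AlgHom.comp_id g).symm⟩

theorem mem_el [Finite k] (hP : FormalClass p P) (hk : (p : k) = 0) {a : B}
    (h : P (B ⧸ Ideal.span {a})) : ((HT k B).cls (elC k a)).Mem (Pk P k) := by
  obtain ⟨c, hc⟩ := (rep_HT (k := k) (B := B)).cls (elC k a)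
  exact Mem.of_rep (kops hP hk) hc h

/-- the zeros of a set of elements -/
def Hq (k : Type) [Field k] {B : Type} [CommRing B] [Algebra k B] (E : Set B) : KFn k where
  obj R _ _ := {x : B →ₐ[k] R // ∀ e ∈ E, x e = 0}
  map f x := ⟨f.comp x.1, fun e he => (congrArg f (x.2 e he)).trans (map_zero f)⟩
  id_map x := Subtype.ext (AlgHom.id_comp x.1)
  comp_map _ _ _ := rfl

theorem mem_hq [Finite k] (hP : FormalClass p P) (hk : (p : k) = 0) {E : Set B}
    (h : P (B ⧸ Ideal.span E)) : (Hq k E).Mem (Pk P k) := by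
  refine Mem.of_rep (kops hP hk) (A := B ⧸ Ideal.span E) (a := ⟨Ideal.Quotient.mkₐ k _,
    fun e he => Ideal.Quotient.eq_zero_iff_mem.2 (Ideal.subset_span he)⟩) ?_ h
  intro R _ _ x
  have h1 : ∀ a ∈ Ideal.span E, x.1 a = 0 := by
    intro a ha
    have h2 : Ideal.span E ≤ RingHom.ker x.1 := by
      rw [Ideal.span_le]
      intro q hq
      exact x.2 q hq
    exact h2 ha
  refine ⟨Ideal.Quotient.liftₐ (Ideal.span E) x.1 h1, ?_, ?_⟩
  · apply Subtype.ext
    apply AlgHom.ext
    intro r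
    rfl
  · intro g hg
    apply Ideal.Quotient.algHom_ext
    exact congrArg Subtype.val hg

/-- the cyclic cover -/
def genF (k : Type) [Field k] {B : Type} [CommRing B] [Algebra k B] (n : ℕ) (b a : B) : KFn k :=
  (HT k B).line.cls ⟨fun x => ev x.1 b * x.2 ^ n - ev x.1 a, fun f x => by
    rw [map_sub, map_mul, map_pow]
    rfl⟩

theorem mem_gen [Finite k] (hP : FormalClass p P) (hk : (p : k) = 0) {a b : B} {n : ℕ}
    (h : P (AdjoinRoot (Polynomial.C b * Polynomial.X ^ n - Polynomial.C a : Polynomial B))) :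
    (genF k n b a).Mem (Pk P k) := by
  have h1 := rep_line (rep_HT (k := k) (B := B))
  obtain ⟨c, hc⟩ := h1.cls (⟨fun x => ev x.1 b * x.2 ^ n - ev x.1 a, fun f x => by
    rw [map_sub, map_mul, map_pow]
    rfl⟩ : Coord (HT k B).line)
  exact Mem.of_rep (kops hP hk) hc h

/-- the quotient -/
noncomputable def quoC (k : Type) [Field k] {B : Type} [CommRing B] [Algebra k B] (b a : B) :
    Coord ((HT k B).opn (elC k b)) where
  val x := ev x.1 a * Ring.inverse (ev x.1 b)
  nat f x := by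
    have hb : IsUnit (ev x.1 b) := x.2
    rw [map_mul, inv_nat f hb]
    rfl

/-- a coordinate on the target -/
def tgC (k : Type) [Field k] {B : Type} [CommRing B] [Algebra k B] {κ : Type}
    {E : Set (MvPolynomial κ B)} (b : B) : Coord (ZfT k E) where
  val x := ev x.1.1 b
  nat _ _ := rfl

theorem eval_tg {R : Type} [CommRing R] [Algebra k R] (f : B →ₐ[k] R) {σ : Type} (z : σ → R)
    (F : MvPolynomial σ k) (b a : B) :
    eval₂ (f : B →+* R) z (C b * map (algebraMap k B) F - C a) = f b * aeval z F - f a := by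
  rw [MvPolynomial.eval₂_sub, MvPolynomial.eval₂_mul, MvPolynomial.eval₂_C, MvPolynomial.eval₂_C,
    MvPolynomial.eval₂_map, MvPolynomial.aeval_def]
  congr 3
  exact f.comp_algebraMap

/-- the part where the coefficient is a unit -/
noncomputable def tgOpn {σ : Type} (F : MvPolynomial σ k) (b a : B) :
    Iso ((ZfT k {C b * map (algebraMap k B) F - C a}).opn (tgC k b))
      (lev ((HT k B).opn (elC k b)) (quoC k b a) F) where
  hom x := ⟨(⟨x.1.1.1, x.2⟩, x.1.1.2), by
    have h1 := x.1.2 _ (Set.mem_singleton _)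
    have h2 := (eval_tg x.1.1.1 x.1.1.2 F b a).symm.trans h1
    have h3 : IsUnit (ev x.1.1.1 b) := x.2
    have h4 := Ring.mul_inverse_cancel _ h3
    change ev x.1.1.1 a * Ring.inverse (ev x.1.1.1 b) = aeval x.1.1.2 F
    have h5 : ev x.1.1.1 b * aeval x.1.1.2 F - ev x.1.1.1 a = 0 := h2
    linear_combination (-Ring.inverse (ev x.1.1.1 b)) * h5 + aeval x.1.1.2 F * h4⟩
  inv y := ⟨⟨(y.1.1.1, y.1.2), by
    intro q hq
    rw [Set.mem_singleton_iff.1 hq]
    refine (eval_tg y.1.1.1 y.1.2 F b a).trans ?_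
    have h1 : ev y.1.1.1 a * Ring.inverse (ev y.1.1.1 b) = aeval y.1.2 F := y.2
    have h3 : IsUnit (ev y.1.1.1 b) := y.1.1.2
    have h4 := Ring.mul_inverse_cancel _ h3
    change ev y.1.1.1 b * aeval y.1.2 F - ev y.1.1.1 a = 0
    linear_combination (-(ev y.1.1.1 b)) * h1 + ev y.1.1.1 a * h4⟩, y.1.1.2⟩
  inv_hom _ := rfl
  hom_inv _ := rfl
  nat _ _ := rfl

/-- the part where the coefficient vanishes -/
noncomputable def tgCls {σ : Type} (F : MvPolynomial σ k) (b a : B) :
    Iso ((ZfT k {C b * map (algebraMap k B) F - C a}).cls (tgC k b))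
      (pwT (((HT k B).cls (elC k b)).cls (resC (elC k b) (elC k a))) σ) where
  hom x := (⟨⟨x.1.1.1, x.2⟩, by
    have h1 := x.1.2 _ (Set.mem_singleton _)
    have h2 := (eval_tg x.1.1.1 x.1.1.2 F b a).symm.trans h1
    have h3 : ev x.1.1.1 b = 0 := x.2
    have h5 : ev x.1.1.1 b * aeval x.1.1.2 F - ev x.1.1.1 a = 0 := h2
    change ev x.1.1.1 a = 0
    linear_combination (-1) * h5 + aeval x.1.1.2 F * h3⟩, x.1.1.2)
  inv y := ⟨⟨(y.1.1.1, y.2), by
    intro q hq
    rw [Set.mem_singleton_iff.1 hq]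
    refine (eval_tg y.1.1.1 y.2 F b a).trans ?_
    have h1 : ev y.1.1.1 a = 0 := y.1.2
    have h3 : ev y.1.1.1 b = 0 := y.1.1.2
    change ev y.1.1.1 b * aeval y.2 F - ev y.1.1.1 a = 0
    linear_combination aeval y.2 F * h3 - h1⟩, y.1.1.2⟩
  inv_hom _ := rfl
  hom_inv _ := rfl
  nat _ _ := rfl

/-- the roots of the quotient -/
noncomputable def rootIso (n : ℕ) (b a : B) : Iso (root ((HT k B).opn (elC k b)) (quoC k b a) n)
    ((genF k n b a).opn ⟨fun x => ev x.1.1 b, fun _ _ => rfl⟩) where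
  hom x := ⟨⟨(x.1.1.1, x.1.2), by
    have h1 : x.1.2 ^ n - ev x.1.1.1 a * Ring.inverse (ev x.1.1.1 b) = 0 := x.2
    have h3 : IsUnit (ev x.1.1.1 b) := x.1.1.2
    have h4 := Ring.mul_inverse_cancel _ h3
    change ev x.1.1.1 b * x.1.2 ^ n - ev x.1.1.1 a = 0
    linear_combination (ev x.1.1.1 b) * h1 + ev x.1.1.1 a * h4⟩, x.1.1.2⟩
  inv y := ⟨(⟨y.1.1.1, y.2⟩, y.1.1.2), by
    have h1 : ev y.1.1.1 b * y.1.1.2 ^ n - ev y.1.1.1 a = 0 := y.1.2
    have h3 : IsUnit (ev y.1.1.1 b) := y.2
    have h4 := Ring.mul_inverse_cancel _ h3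
    change y.1.1.2 ^ n - ev y.1.1.1 a * Ring.inverse (ev y.1.1.1 b) = 0
    linear_combination (Ring.inverse (ev y.1.1.1 b)) * h1 - y.1.1.2 ^ n * h4⟩
  inv_hom _ := rfl
  hom_inv _ := rfl
  nat _ _ := rfl

/-- **From cyclic covers to forms**: if the cyclic cover `b w ^ n = a` and the closed subsets
`a = 0` and `a = b = 0` are in the class, then so is `b F(z) = a`, if `F` is a form of degree
`n`. -/
theorem tower_forms [Finite k] (hP : FormalClass p P) (hk : (p : k) = 0)
    (hB : Algebra.FiniteType k B) {a b : B} {σ : Type} [Fintype σ] {F : MvPolynomial σ k} {n : ℕ}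
    (hF : Pool.Agent.Helper67.CQ.GoodD P F n)
    (h1 : P (AdjoinRoot (Polynomial.C b * Polynomial.X ^ n - Polynomial.C a : Polynomial B)))
    (h2 : P (B ⧸ Ideal.span {a})) (h3 : P (B ⧸ Ideal.span {b, a})) :
    P (MvPolynomial σ B ⧸ Ideal.span {C b * map (algebraMap k B) F - C a}) := by
  have hG := kops hP hk
  have hr : Rp (HT k B) := rp_HT hB
  have hr2 : Rp (genF k n b a) := by
    unfold genF
    infer_instance
  have h4 : (((HT k B).cls (elC k b)).cls (resC (elC k b) (elC k a))).Mem (Pk P k) := by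
    refine Mem.of_iso (F' := Hq k {b, a}) ?_ (mem_hq hP hk h3)
    exact
      { hom := fun x => ⟨x.1.1, fun e he => by
          rcases he with rfl | rfl
          · exact x.1.2
          · exact x.2⟩
        inv := fun y => ⟨⟨y.1, y.2 b (Or.inl rfl)⟩, y.2 a (Or.inr rfl)⟩
        inv_hom := fun _ => rfl
        hom_inv := fun _ => rfl
        nat := fun _ _ => rfl }
  have h5 : ((HT k B).cls (elC k a)).Mem (Pk P k) := mem_el hP hk h2
  apply of_mem_ZfT hB
  refine Mem.glue hG (tgC k b) ?_ ?_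
  · refine Mem.of_iso (tgOpn F b a) (mem_lev hP hk _ hF ?_ ?_)
    · refine Mem.of_iso (F' := ((HT k B).cls (elC k a)).opn (resC (elC k a) (elC k b))) ?_
        (mem_opn hG _ h5 (Mem.of_iso ?_ h4))
      · exact
          { hom := fun x => ⟨⟨x.1.1, by
              have h6 : ev x.1.1 a * Ring.inverse (ev x.1.1 b) = 0 := x.2
              have h7 : IsUnit (ev x.1.1 b) := x.1.2
              have h8 := Ring.mul_inverse_cancel _ h7
              change ev x.1.1 a = 0
              linear_combination (ev x.1.1 b) * h6 - ev x.1.1 a * h8⟩, x.1.2⟩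
            inv := fun y => ⟨⟨y.1.1, y.2⟩, by
              have h6 : ev y.1.1 a = 0 := y.1.2
              change ev y.1.1 a * Ring.inverse (ev y.1.1 b) = 0
              rw [h6, zero_mul]⟩
            inv_hom := fun _ => rfl
            hom_inv := fun _ => rfl
            nat := fun _ _ => rfl }
      · exact
          { hom := fun x => ⟨⟨x.1.1, x.2⟩, x.1.2⟩
            inv := fun y => ⟨⟨y.1.1, y.2⟩, y.1.2⟩
            inv_hom := fun _ => rfl
            hom_inv := fun _ => rfl
            nat := fun _ _ => rfl }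
    · refine Mem.of_iso (rootIso n b a) (mem_opn hG _ (mem_gen hP hk h1) ?_)
      refine Mem.of_iso (F' := (((HT k B).cls (elC k b)).cls
        (resC (elC k b) (elC k a))).line) ?_ (Mem.line hG h4)
      exact
        { hom := fun x => (⟨⟨x.1.1.1, x.2⟩, by
            have h6 : ev x.1.1.1 b * x.1.1.2 ^ n - ev x.1.1.1 a = 0 := x.1.2
            have h7 : ev x.1.1.1 b = 0 := x.2
            change ev x.1.1.1 a = 0
            linear_combination (-1) * h6 + x.1.1.2 ^ n * h7⟩, x.1.1.2)
          inv := fun y => ⟨⟨(y.1.1.1, y.2), by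
            have h6 : ev y.1.1.1 a = 0 := y.1.2
            have h7 : ev y.1.1.1 b = 0 := y.1.1.2
            change ev y.1.1.1 b * y.2 ^ n - ev y.1.1.1 a = 0
            linear_combination y.2 ^ n * h7 - h6⟩, y.1.1.2⟩
          inv_hom := fun _ => rfl
          hom_inv := fun _ => rfl
          nat := fun _ _ => rfl }
  · refine Mem.of_iso (tgCls F b a) ?_
    exact Mem.of_iso (pwIso _ (Fintype.equivFin σ)).symm (mem_pw hP hk h4 _)

end Pool.Agent.Helper29.PF
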