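import Pool.Agent.Helper29.PF.Pencil
import Pool.Agent.Helper9.QP.Thm
import Pool.Agent.Helper67.SF.Main

/-!
# Pencils of quartic curves and forms
-/

set_option autoImplicit false

namespace Pool.Agent.Helper29.PF

open Pool.Agent.Helper29.CQ
open Pool.Agent.Helper67.SF (Form)
open MvPolynomial (C map)

variable {p : ℕ} {P : ∀ (A : Type) [CommRing A], Prop} {k : Type} [Field k]

/-- closed subsets of the plane -/
theorem plane_closed [Finite k] (hP : FormalClass p P) (hk : (p : k) = 0)
    (E : Set (MvPolynomial (Fin 2) k)) : P (MvPolynomial (Fin 2) k ⧸ Ideal.span E) := by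
  by_cases h : ∃ f ∈ E, f ≠ 0
  · obtain ⟨f, hf, hf0⟩ := h
    refine hP.curve _ ?_ (char0 hk) ?_
    · exact ftZ ((inferInstance : Algebra.FiniteType k (MvPolynomial (Fin 2) k)).of_surjective
        (Ideal.Quotient.mkₐ k _) (Ideal.Quotient.mkₐ_surjective k _))
    · refine le_trans ?_ (Pool.Agent.Helper67.CQ.dim_quot hf0)
      have h1 : Ideal.span {f} ≤ Ideal.span E :=
        Ideal.span_mono (Set.singleton_subset_iff.2 hf)
      exact ringKrullDim_le_of_surjective (Ideal.Quotient.factor h1)
        (Ideal.Quotient.factor_surjective h1)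
  · push Not at h
    have h1 : Ideal.span E = Ideal.span {(0 : MvPolynomial (Fin 2) k)} := by
      rw [Ideal.span_eq_bot.2 h, Ideal.span_singleton_eq_bot.2 rfl]
    rw [h1]
    exact (Pool.Agent.Helper67.CQ.mem_two hP hk le_rfl 0).1

/-- **Pencils of quartic curves**: `g(x, y) ^ 2 F(z) = f(x, y)` for `deg f ≤ 4`, `deg g ≤ 2` and
every form `F`. -/
theorem quartic_forms [Finite k] [CharP k p] (hp : p.Prime) (hp2 : p ≠ 2) (hP : StableClass p P)
    (f g : MvPolynomial (Fin 2) k) (hf : f.totalDegree ≤ 4) (hg : g.totalDegree ≤ 2)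
    {σ : Type} [Fintype σ] {F : MvPolynomial σ k} {d : ℕ} (hF : Form F d) :
    P (MvPolynomial σ (MvPolynomial (Fin 2) k) ⧸ Ideal.span {C (g ^ 2) * map C F - C f}) := by
  have hk : (p : k) = 0 := CharP.cast_eq_zero k p
  have hG := hF.good hp hP.toFormalClass
  exact tower_forms hP.toFormalClass hk inferInstance hG
    (Pool.Agent.Helper9.QP.quartic_pencils hp hp2 hP f g hf hg d (Nat.pos_of_ne_zero hG.1))
    (plane_closed hP.toFormalClass hk _) (plane_closed hP.toFormalClass hk _)

end Pool.Agent.Helper29.PF
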