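import Pool.Agent.Helper29.PF.FormsT
import Pool.Agent.Helper71.PN.FibK

/-!
# The fibre decomposition over an algebra of dimension at most one
-/

set_option autoImplicit false

namespace Pool.Agent.Helper29.PF

open Pool.Agent.Helper29.CQ Pool.Agent.Helper65.CC Pool.Agent.Helper87.CC
open Pool.Agent.Helper65.CC.KFn
open TensorProduct

/-- the fibre of an algebra over a field -/
def BT (T D K : Type) [CommRing T] [CommRing D] [Algebra T D] [Field K] [Algebra T K] :
    KFn K where
  obj R _ _ := {f : D →+* R // ∀ t, f (algebraMap T D t) = algebraMap K R (algebraMap T K t)}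
  map g f := ⟨(g : _ →+* _).comp f.1, fun t => (congrArg g (f.2 t)).trans (g.commutes _)⟩
  id_map f := Subtype.ext (RingHom.ext fun _ => rfl)
  comp_map _ _ _ := Subtype.ext (RingHom.ext fun _ => rfl)

theorem rep_BT (T D K : Type) [CommRing T] [CommRing D] [Algebra T D] [Field K] [Algebra T K] :
    ∃ pt, (BT T D K).Rep (K ⊗[T] D) pt := by
  let ι : D →ₐ[T] K ⊗[T] D := Algebra.TensorProduct.includeRight
  refine ⟨⟨(ι : D →+* K ⊗[T] D), fun t => ?_⟩, ?_⟩
  · refine (ι.commutes t).trans ?_
    exact IsScalarTower.algebraMap_apply T K (K ⊗[T] D) t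
  · intro R _ _ x
    let _ : Algebra T R := ((algebraMap K R).comp (algebraMap T K)).toAlgebra
    have _ : IsScalarTower T K R := IsScalarTower.of_algebraMap_eq fun _ => rfl
    let f : D →ₐ[T] R := { x.1 with commutes' := x.2 }
    let g0 : K ⊗[T] D →ₐ[K] R := Algebra.TensorProduct.lift (Algebra.ofId K R) f
      (fun _ _ => Commute.all _ _)
    refine ⟨g0, ?_, ?_⟩
    · apply Subtype.ext
      apply RingHom.ext
      intro d
      change g0 ((1 : K) ⊗ₜ[T] d) = x.1 d
      simp only [g0, Algebra.TensorProduct.lift_tmul, map_one, one_mul]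
      rfl
    · intro g hg
      apply Algebra.TensorProduct.ext
      · ext
      · ext v
        have h2 : g ((1 : K) ⊗ₜ[T] v) = x.1 v := RingHom.congr_fun (congrArg Subtype.val hg) v
        change g ((1 : K) ⊗ₜ[T] v) = g0 ((1 : K) ⊗ₜ[T] v)
        rw [h2]
        simp only [g0, Algebra.TensorProduct.lift_tmul, map_one, one_mul]
        rfl

variable {p : ℕ} {P : ∀ (A : Type) [CommRing A], Prop}

/-- **the fibre decomposition** -/
theorem fibT (hp : p.Prime) (hP : FormalClass p P) (k : Type) [Field k] [Finite k] [CharP k p]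
    {T D : Type} [CommRing T] [Algebra k T] (hT : Algebra.FiniteType k T)
    (hdim : ringKrullDim T ≤ 1) [CommRing D] [Algebra T D] (hD : Algebra.FiniteType T D)
    (h : ∀ (K : Type) [Field K] [IsAlgClosed K] [Algebra k K] [Algebra T K]
      (_ : ∀ a : k, algebraMap k K a = algebraMap T K (algebraMap k T a))
      (G : ∀ (R : Type) [CommRing R] [Algebra K R], Prop), GOps K G →
      (∀ (W : Type) [CommRing W] [Algebra k W], P W → G (K ⊗[k] W)) → (BT T D K).Mem G) :
    P D := by
  have hS := Pool.Agent.Helper9.CQ.Sops.sops hp hP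
  have hft2 : Algebra.FiniteType ℤ T := ft_alg (Pool.Agent.Helper71.PN.ft_fin k) hT
  have hmult : MultS (fun A _ => Algebra.FiniteType ℤ A ∧ P (ZMod p ⊗[ℤ] A)) D := by
    refine Pool.Agent.Helper20.BL.fibres_mult hS hft2 hD ?_ ?_
    · intro q _ _
      obtain ⟨pt, hpt⟩ := rep_BT T D (AlgebraicClosure q.ResidueField)
      let _ : Algebra k (AlgebraicClosure q.ResidueField) :=
        ((algebraMap T (AlgebraicClosure q.ResidueField)).comp (algebraMap k T)).toAlgebra
      have hmem := h (AlgebraicClosure q.ResidueField) (fun _ => rfl) _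
        (Pool.Agent.Helper9.CQ.Thr.geo_gops hS (AlgebraicClosure q.ResidueField))
        (fun W _ _ h1 => Pool.Agent.Helper9.CQ.ConstOver.const_over W
          (Pool.Agent.Helper71.PN.mult_of_mem hp hP W h1))
      exact hmem _ pt (Algebra.FiniteType.baseChange _) hpt
    · intro q _ h
      exact absurd h (not_lt.2 ((ringKrullDim_quotient_le q).trans hdim))
  have h1 := (MultS.mem hS hmult).2
  have hchar : ((p : ℕ) : D) = 0 := by
    rw [← map_natCast (algebraMap T D), ← map_natCast (algebraMap k T), CharP.cast_eq_zero,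
      map_zero, map_zero]
  obtain ⟨e⟩ := Pool.Agent.Helper9.CQ.Thr.zmod_ten D hchar
  exact hP.iso _ _ e h1

end Pool.Agent.Helper29.PF
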