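import Pool.Agent.Helper29.PF.QJoin2
import Pool.Agent.Helper29.PF.Fermat
import Pool.Agent.Helper29.PF.QBase
import Pool.Agent.Helper49.QP.Fb.Base

/-!
# Sums of powers with constant coefficients
-/

set_option autoImplicit false

namespace Pool.Agent.Helper29.PF

open Pool.Agent.Helper29.CQ Pool.Agent.Helper65.CC Pool.Agent.Helper87.CC
open Pool.Agent.Helper65.CC.KFn
open Pool.Agent.Helper49.QP (rs bc rep_bc)
open MvPolynomial (aeval C X rename)
open TensorProduct

section small

variable {k : Type} [Field k]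

/-- sums of powers -/
def smp {ι : Type} [Fintype ι] (c : ι → k) (n : ι → ℕ) {R : Type} [CommRing R] [Algebra k R]
    (w : ι → R) : R := ∑ i, algebraMap k R (c i) * w i ^ n i

theorem smp_map {ι : Type} [Fintype ι] (c : ι → k) (n : ι → ℕ) {R S : Type} [CommRing R]
    [CommRing S] [Algebra k R] [Algebra k S] (f : R →ₐ[k] S) (w : ι → R) :
    smp c n (fun i => f (w i)) = f (smp c n w) := by
  rw [smp, smp, map_sum]
  refine Finset.sum_congr rfl fun i _ => ?_
  rw [map_mul, map_pow, f.commutes]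

theorem smp_equiv {ι ι' : Type} [Fintype ι] [Fintype ι'] (a : ι ≃ ι') (c : ι → k) (n : ι → ℕ)
    {R : Type} [CommRing R] [Algebra k R] (w : ι' → R) :
    smp (fun i => c (a.symm i)) (fun i => n (a.symm i)) w = smp c n (fun i => w (a i)) := by
  rw [smp, smp, ← Equiv.sum_comp a]
  refine Finset.sum_congr rfl fun i _ => ?_
  rw [Equiv.symm_apply_apply]

/-- sums of powers with a given value -/
def FS {ι : Type} [Fintype ι] (c : ι → k) (n : ι → ℕ) (e : k) : KFn k where
  obj R _ _ := {w : ι → R // smp c n w = algebraMap k R e}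
  map f x := ⟨fun i => f (x.1 i), (smp_map c n f x.1).trans
    ((congrArg f x.2).trans (f.commutes e))⟩
  id_map _ := rfl
  comp_map _ _ _ := rfl

/-- enumeration -/
def fsIso {ι ι' : Type} [Fintype ι] [Fintype ι'] (a : ι ≃ ι') (c : ι → k) (n : ι → ℕ) (e : k) :
    Iso (FS c n e) (FS (fun i => c (a.symm i)) (fun i => n (a.symm i)) e) where
  hom {R} _ _ x := ⟨fun i => x.1 (a.symm i), (smp_equiv a c n _).trans
    ((congrArg (smp c n) (funext fun i => congrArg x.1 (a.symm_apply_apply i))).trans x.2)⟩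
  inv {R} _ _ y := ⟨fun i => y.1 (a i), (smp_equiv a c n y.1).symm.trans y.2⟩
  inv_hom x := Subtype.ext (funext fun i => congrArg x.1 (a.symm_apply_apply i))
  hom_inv y := Subtype.ext (funext fun i => congrArg y.1 (a.apply_symm_apply i))
  nat _ _ := rfl

theorem aeval_fsum {m : ℕ} (c : Fin m → k) (n : Fin m → ℕ) (e : k) {R : Type} [CommRing R]
    [Algebra k R] (w : Fin m → R) :
    aeval w (fsum c n - C e) = smp c n w - algebraMap k R e := by
  rw [fsum, map_sub, map_sum, MvPolynomial.aeval_C, smp]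
  congr 1
  refine Finset.sum_congr rfl fun i _ => ?_
  rw [map_mul, map_pow, MvPolynomial.aeval_C, MvPolynomial.aeval_X]

/-- the equation -/
noncomputable def fsZf {m : ℕ} (c : Fin m → k) (n : Fin m → ℕ) (e : k) :
    Iso (FS c n e) (Zf {fsum c n - C e}) where
  hom {R} _ _ x := ⟨x.1, fun q hq => by
    rw [Set.mem_singleton_iff.1 hq, aeval_fsum, sub_eq_zero]
    exact x.2⟩
  inv {R} _ _ y := ⟨y.1, by
    have h1 := y.2 _ (Set.mem_singleton _)
    rw [aeval_fsum, sub_eq_zero] at h1
    exact h1⟩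
  inv_hom _ := rfl
  hom_inv _ := rfl
  nat _ _ := rfl

instance {ι : Type} [Fintype ι] (c : ι → k) (n : ι → ℕ) (e : k) : Rp (FS c n e) := by
  have h := Rp.iso (fsZf (fun i => c ((Fintype.equivFin ι).symm i))
    (fun i => n ((Fintype.equivFin ι).symm i)) e).symm
  exact Rp.iso (fsIso (Fintype.equivFin ι) c n e).symm

/-- the composed form -/
noncomputable def zfU {m : ℕ} (c : Fin m → k) (n : Fin m → ℕ) (e : k) :
    Iso (Zf {fsum c n - C e}) (Zf {Pool.Agent.Helper67.SF.comp (fsum c n)
      (fun _ => (X () : MvPolynomial Unit k)) - C e}) := by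
  have h1 : ∀ (R : Type) [CommRing R] [Algebra k R] (w : (Σ _ : Fin m, Unit) → R),
      aeval w (Pool.Agent.Helper67.SF.comp (fsum c n)
        (fun _ => (X () : MvPolynomial Unit k)) - C e) =
      aeval (fun i => w ⟨i, ()⟩) (fsum c n - C e) := by
    intro R _ _ w
    have h5 : Pool.Agent.Helper67.SF.comp (fsum c n) (fun _ => (X () : MvPolynomial Unit k)) =
        ∑ i, C (c i) * X ⟨i, ()⟩ ^ n i := by
      simp only [Pool.Agent.Helper67.SF.comp, fsum, map_sum, map_mul, map_pow,
        MvPolynomial.rename_X, MvPolynomial.aeval_X, MvPolynomial.algHom_C,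
        MvPolynomial.algebraMap_eq]
    rw [aeval_fsum, h5, map_sub, map_sum, MvPolynomial.aeval_C, smp]
    congr 1
    refine Finset.sum_congr rfl fun i _ => ?_
    rw [map_mul, map_pow, MvPolynomial.aeval_C, MvPolynomial.aeval_X]
  exact
    { hom := fun {R} _ _ x => ⟨fun a => x.1 a.1, fun q hq => by
        rw [Set.mem_singleton_iff.1 hq, h1]
        exact x.2 _ (Set.mem_singleton _)⟩
      inv := fun {R} _ _ y => ⟨fun i => y.1 ⟨i, ()⟩, fun q hq => by
        rw [Set.mem_singleton_iff.1 hq, ← h1]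
        exact y.2 _ (Set.mem_singleton _)⟩
      inv_hom := fun _ => rfl
      hom_inv := fun _ => rfl
      nat := fun _ _ => rfl }

variable {p : ℕ} {P : ∀ (A : Type) [CommRing A], Prop}

theorem mem_fs [Finite k] [CharP k p] (hp : p.Prime) (hP : FormalClass p P) {ι : Type}
    [Fintype ι] (c : ι → k) {n : ι → ℕ} (hn : ∀ i, 0 < n i) (e : k) (he : e = 0 ∨ e = 1) :
    (FS c n e).Mem (Pk P k) := by
  have hk : (p : k) = 0 := CharP.cast_eq_zero k p
  have h1 := (form_fermat (fun i => c ((Fintype.equivFin ι).symm i))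
    (n := fun i => n ((Fintype.equivFin ι).symm i)) fun i => hn _).good hp hP
  refine Mem.of_iso (fsIso (Fintype.equivFin ι) c n e) (Mem.of_iso (fsZf _ _ e)
    (Mem.of_iso (zfU _ _ e) ?_))
  rcases he with rfl | rfl
  · rw [map_zero, sub_zero]
    exact mem_Zf hP hk h1.2.2.1
  · rw [map_one]
    exact mem_Zf hP hk h1.2.2.2

end small

variable {k K : Type} [Field k] [Field K] [Algebra k K]
  {G : ∀ (R : Type) [CommRing R] [Algebra K R], Prop}

/-- constant functors -/
theorem mem_bcP (hG : KOps K G) {P : ∀ (A : Type) [CommRing A], Prop}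
    (hW : ∀ (W : Type) [CommRing W] [Algebra k W], P W → G (K ⊗[k] W)) {F : KFn k} [hF : Rp F]
    (h : F.Mem (Pk P k)) : (bc K F).Mem G := by
  obtain ⟨W, _, _, w, hft, hw⟩ := hF.out
  obtain ⟨w', hw'⟩ := rep_bc (K := K) hw
  exact Mem.of_rep hG hw' (hW W (h W w hft hw))

theorem smp_scale {ι : Type} [Fintype ι] (c' : ι → k) (c μ : ι → K) (n : ι → ℕ) (u : K)
    (h : ∀ i, algebraMap k K (c' i) * μ i ^ n i = u * c i) {R : Type} [CommRing R] [Algebra K R]
    (w : ι → R) : @smp k _ ι _ c' n R _ (rs k K R) (fun i => algebraMap K R (μ i) * w i) =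
      algebraMap K R u * smp c n w := by
  rw [smp, smp, Finset.mul_sum]
  refine Finset.sum_congr rfl fun i _ => ?_
  have h1 := congrArg (algebraMap K R) (h i)
  rw [map_mul, map_mul, map_pow] at h1
  change algebraMap K R (algebraMap k K (c' i)) * (algebraMap K R (μ i) * w i) ^ n i = _
  rw [mul_pow, ← mul_assoc, h1, mul_assoc]

/-- scaling -/
noncomputable def fsBc {ι : Type} [Fintype ι] (c' : ι → k) (c μ : ι → K) (n : ι → ℕ) (u : K)
    (hu : u ≠ 0) (hμ : ∀ i, μ i ≠ 0)
    (h : ∀ i, algebraMap k K (c' i) * μ i ^ n i = u * c i) (ε : k) (e : K)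
    (he : algebraMap k K ε = u * e) : Iso (FS c n e) (bc K (FS c' n ε)) where
  hom {R} _ _ x := ⟨fun i => algebraMap K R (μ i) * x.1 i, by
    have h1 := smp_scale c' c μ n u h x.1
    refine h1.trans ?_
    change _ = algebraMap K R (algebraMap k K ε)
    rw [he, map_mul]
    exact congrArg (fun z => algebraMap K R u * z) x.2⟩
  inv {R} _ _ y := ⟨fun i => algebraMap K R (μ i)⁻¹ * y.1 i, by
    have h1 := smp_scale c' c μ n u h (fun i => algebraMap K R (μ i)⁻¹ * y.1 i)
    have h2 : (fun i => algebraMap K R (μ i) * (algebraMap K R (μ i)⁻¹ * y.1 i)) = y.1 := by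
      funext i
      rw [← mul_assoc, ← map_mul, mul_inv_cancel₀ (hμ i), map_one, one_mul]
    rw [h2] at h1
    have h3 : @smp k _ ι _ c' n R _ (rs k K R) y.1 = algebraMap K R (algebraMap k K ε) := y.2
    rw [h3, he, map_mul] at h1
    exact (((IsUnit.mk0 u hu).map (algebraMap K R)).mul_right_inj.1 h1).symm⟩
  inv_hom {R} _ _ x := Subtype.ext (funext fun i => by
    change algebraMap K R (μ i)⁻¹ * (algebraMap K R (μ i) * x.1 i) = x.1 i
    rw [← mul_assoc, ← map_mul, inv_mul_cancel₀ (hμ i), map_one, one_mul])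
  hom_inv {R} _ _ y := Subtype.ext (funext fun i => by
    change algebraMap K R (μ i) * (algebraMap K R (μ i)⁻¹ * y.1 i) = y.1 i
    rw [← mul_assoc, ← map_mul, mul_inv_cancel₀ (hμ i), map_one, one_mul])
  nat {R S} _ _ _ _ f x := Subtype.ext (funext fun i => by
    change f (algebraMap K R (μ i) * x.1 i) = algebraMap K S (μ i) * f (x.1 i)
    rw [map_mul, f.commutes])

/-- **sums of powers over an algebraically closed field** are constant -/
theorem mem_FSK [IsAlgClosed K] (hG : KOps K G) [Finite k] {p : ℕ} [CharP k p] (hp : p.Prime)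
    {P : ∀ (A : Type) [CommRing A], Prop} (hP : FormalClass p P)
    (hW : ∀ (W : Type) [CommRing W] [Algebra k W], P W → G (K ⊗[k] W)) {ι : Type} [Fintype ι]
    (c : ι → K) {n : ι → ℕ} (hn : ∀ i, 0 < n i) (e : K) : (FS c n e).Mem G := by
  classical
  have key : ∀ (u : K), u ≠ 0 → ∀ ε : k, (ε = 0 ∨ ε = 1) → algebraMap k K ε = u * e →
      (FS c n e).Mem G := by
    intro u hu ε hε he
    choose ν hν using fun i => IsAlgClosed.exists_pow_nat_eq (u * c i) (hn i)
    refine Mem.of_iso (fsBc (fun i => if c i = 0 then 0 else 1) c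
      (fun i => if c i = 0 then 1 else ν i) n u hu ?_ ?_ ε e he)
      (mem_bcP hG hW (mem_fs hp hP _ hn ε hε))
    · intro i
      by_cases hc : c i = 0
      · rw [if_pos hc]
        exact one_ne_zero
      · rw [if_neg hc]
        intro h0
        have h1 := hν i
        rw [h0, zero_pow (hn i).ne'] at h1
        exact mul_ne_zero hu hc h1.symm
    · intro i
      by_cases hc : c i = 0
      · rw [if_pos hc, if_pos hc, hc, map_zero, zero_mul, mul_zero]
      · rw [if_neg hc, if_neg hc, map_one, one_mul, hν]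
  by_cases he : e = 0
  · exact key 1 one_ne_zero 0 (Or.inl rfl) (by rw [he, map_zero, mul_zero])
  · exact key e⁻¹ (inv_ne_zero he) 1 (Or.inr rfl) (by rw [map_one, inv_mul_cancel₀ he])

end Pool.Agent.Helper29.PF
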