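import Pool.Agent.Helper29.PF.Stable
import Pool.Agent.Helper65.CC.Quadric
import Pool.Agent.Helper36.TQ.Lin

/-!
# Quadratic polynomials with values in a functor
-/

set_option autoImplicit false

namespace Pool.Agent.Helper29.PF

open Pool.Agent.Helper29.CQ Pool.Agent.Helper65.CC Pool.Agent.Helper87.CC
open Pool.Agent.Helper65.CC.KFn
open MvPolynomial (aeval C X rename)

variable {K : Type} [Field K] {G : ∀ (R : Type) [CommRing R] [Algebra K R], Prop}

theorem mem_pwG (hG : KOps K G) {F : KFn K} (h : F.Mem G) (q : ℕ) : (pw F q).Mem G := by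
  induction q with
  | zero => exact Mem.of_iso (pwZero F) h
  | succ q ih => exact Mem.of_iso (pwSucc F q) (Mem.line hG ih)

/-- sums of squares -/
def SQ {F : KFn K} (v : Coord F) {r : ℕ} (c : Fin r → K) (e : K) : KFn K where
  obj R _ _ := {x : F.obj R × (Fin r → R) //
    ∑ i, algebraMap K R (c i) * x.2 i ^ 2 + algebraMap K R e = v.val x.1}
  map f x := ⟨(F.map f x.1.1, fun i => f (x.1.2 i)), by
    rw [← v.nat, ← x.2, map_add, map_sum, f.commutes]
    congr 1
    refine Finset.sum_congr rfl fun i _ => ?_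
    rw [map_mul, map_pow, f.commutes]⟩
  id_map x := Subtype.ext (Prod.ext (F.id_map x.1.1) rfl)
  comp_map f g x := Subtype.ext (Prod.ext (F.comp_map f g x.1.1) rfl)

/-- values of a polynomial -/
def QJ {F : KFn K} (v : Coord F) {N : ℕ} (q : MvPolynomial (Fin N) K) : KFn K where
  obj R _ _ := {x : F.obj R × (Fin N → R) // aeval x.2 q = v.val x.1}
  map f x := ⟨(F.map f x.1.1, fun i => f (x.1.2 i)), by
    rw [← v.nat, ← x.2]
    exact (MvPolynomial.comp_aeval_apply (R := K) _ f q).symm⟩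
  id_map x := Subtype.ext (Prod.ext (F.id_map x.1.1) rfl)
  comp_map f g x := Subtype.ext (Prod.ext (F.comp_map f g x.1.1) rfl)

/-- the hypothesis -/
def SqMem (G : ∀ (R : Type) [CommRing R] [Algebra K R], Prop) {F : KFn K} (v : Coord F) : Prop :=
  F.Mem G ∧ ∀ (r : ℕ) (c : Fin r → K) (e : K), (SQ v c e).Mem G

/-- the difference with the square of a new variable -/
def sqC {F : KFn K} (v : Coord F) (a : K) : Coord F.line where
  val {R} _ _ x := v.val x.1 - algebraMap K R a * x.2 ^ 2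
  nat f x := by
    rw [map_sub, map_mul, map_pow, v.nat, f.commutes]
    rfl

/-- one more square -/
def sqSucc {F : KFn K} (v : Coord F) (a : K) {r : ℕ} (c : Fin r → K) (e : K) :
    Iso (SQ (sqC v a) c e) (SQ v (Fin.cons a c : Fin (r + 1) → K) e) where
  hom {R} _ _ x := ⟨(x.1.1.1, Fin.cons x.1.1.2 x.1.2), by
    have h : ∑ i, algebraMap K R (c i) * x.1.2 i ^ 2 + algebraMap K R e =
      v.val x.1.1.1 - algebraMap K R a * x.1.1.2 ^ 2 := x.2
    change ∑ i : Fin (r + 1), algebraMap K R ((Fin.cons a c : Fin (r + 1) → K) i) *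
      (Fin.cons x.1.1.2 x.1.2 : Fin (r + 1) → R) i ^ 2 + algebraMap K R e = v.val x.1.1.1
    rw [Fin.sum_univ_succ]
    simp only [Fin.cons_zero, Fin.cons_succ]
    linear_combination h⟩
  inv {R} _ _ y := ⟨((y.1.1, y.1.2 0), Fin.tail y.1.2), by
    have h : ∑ i : Fin (r + 1), algebraMap K R ((Fin.cons a c : Fin (r + 1) → K) i) *
      y.1.2 i ^ 2 + algebraMap K R e = v.val y.1.1 := y.2
    rw [Fin.sum_univ_succ] at h
    simp only [Fin.cons_zero, Fin.cons_succ] at h
    change ∑ i, algebraMap K R (c i) * (Fin.tail y.1.2) i ^ 2 + algebraMap K R e =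
      v.val y.1.1 - algebraMap K R a * y.1.2 0 ^ 2
    change algebraMap K R a * y.1.2 0 ^ 2 + ∑ i, algebraMap K R (c i) * (Fin.tail y.1.2) i ^ 2 +
      algebraMap K R e = v.val y.1.1 at h
    linear_combination h⟩
  inv_hom _ := rfl
  hom_inv y := Subtype.ext (Prod.ext rfl (Fin.cons_self_tail _))
  nat f x := by
    apply Subtype.ext
    refine Prod.ext rfl ?_
    funext i
    exact Fin.cases rfl (fun _ => rfl) i

theorem SqMem.sq (hG : KOps K G) {F : KFn K} {v : Coord F} (h : SqMem G v) (a : K) :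
    SqMem G (sqC v a) :=
  ⟨Mem.line hG h.1, fun _ c e => Mem.of_iso (sqSucc v a c e) (h.2 _ _ e)⟩

/-- constants -/
def qjConst {F : KFn K} (v : Coord F) (e : K) :
    Iso (QJ v (C e : MvPolynomial (Fin 0) K)) (SQ v (Fin.elim0 : Fin 0 → K) e) where
  hom {R} _ _ x := ⟨x.1, by
    have h0 : (∑ i : Fin 0, algebraMap K R ((Fin.elim0 : Fin 0 → K) i) * x.1.2 i ^ 2) = 0 :=
      Finset.sum_of_isEmpty _
    exact (congrArg (· + algebraMap K R e) h0).trans ((zero_add _).trans
      ((MvPolynomial.aeval_C _ e).symm.trans x.2))⟩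
  inv {R} _ _ x := ⟨x.1, by
    have h0 : (∑ i : Fin 0, algebraMap K R ((Fin.elim0 : Fin 0 → K) i) * x.1.2 i ^ 2) = 0 :=
      Finset.sum_of_isEmpty _
    exact (MvPolynomial.aeval_C _ e).trans ((zero_add _).symm.trans
      ((congrArg (· + algebraMap K R e) h0.symm).trans x.2))⟩
  inv_hom _ := rfl
  hom_inv _ := rfl
  nat _ _ := rfl

theorem aeval_dec {N : ℕ} (a : K) (l g : MvPolynomial (Fin N) K) {R : Type} [CommRing R]
    [Algebra K R] (x : Fin (N + 1) → R) :
    aeval x (C a * X 0 ^ 2 + rename Fin.succ l * X 0 + rename Fin.succ g) =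
      algebraMap K R a * x 0 ^ 2 + aeval (Fin.tail x) l * x 0 + aeval (Fin.tail x) g := by
  rw [map_add, map_add, map_mul, map_mul, map_pow, MvPolynomial.aeval_X, MvPolynomial.aeval_C,
    MvPolynomial.aeval_rename, MvPolynomial.aeval_rename]
  rfl

theorem aeval_sqr {N : ℕ} (a b : K) (l g : MvPolynomial (Fin N) K) {R : Type} [CommRing R]
    [Algebra K R] (x : Fin N → R) : aeval x (g - C (a * b ^ 2) * l ^ 2) =
      aeval x g - algebraMap K R a * algebraMap K R b ^ 2 * aeval x l ^ 2 := by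
  rw [map_sub, map_mul, map_pow, MvPolynomial.aeval_C, map_mul, map_pow]

theorem sq1 {R : Type} [CommRing R] {a b l x g v : R} (h1 : 2 * (a * b) = 1)
    (h : a * x ^ 2 + l * x + g = v) : g - a * b ^ 2 * l ^ 2 = v - a * (x + b * l) ^ 2 := by
  linear_combination h + (l * x) * h1

theorem sq2 {R : Type} [CommRing R] {a b l x g v : R} (h1 : 2 * (a * b) = 1)
    (h : g - a * b ^ 2 * l ^ 2 = v - a * x ^ 2) :
    a * (x - b * l) ^ 2 + l * (x - b * l) + g = v := by
  linear_combination h - (l * (x - b * l)) * h1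

theorem two_ab {a b : K} (hab : 2 * (a * b) = 1) (R : Type) [CommRing R] [Algebra K R] :
    (2 : R) * (algebraMap K R a * algebraMap K R b) = 1 := by
  have h1 := congrArg (algebraMap K R) hab
  rwa [map_mul, map_mul, map_one, map_ofNat] at h1

/-- complete the square -/
noncomputable def qjSquare {F : KFn K} (v : Coord F) {N : ℕ} (a b : K) (hab : 2 * (a * b) = 1)
    (l g : MvPolynomial (Fin N) K) :
    Iso (QJ v (C a * X 0 ^ 2 + rename Fin.succ l * X 0 + rename Fin.succ g))
      (QJ (sqC v a) (g - C (a * b ^ 2) * l ^ 2)) where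
  hom {R} _ _ x := ⟨((x.1.1, x.1.2 0 + algebraMap K R b * aeval (Fin.tail x.1.2) l),
      Fin.tail x.1.2),
    (aeval_sqr a b l g _).trans (sq1 (two_ab hab R) ((aeval_dec a l g x.1.2).symm.trans x.2))⟩
  inv {R} _ _ y := ⟨(y.1.1.1, Fin.cons (y.1.1.2 - algebraMap K R b * aeval y.1.2 l) y.1.2),
    (aeval_dec a l g _).trans (sq2 (two_ab hab R) ((aeval_sqr a b l g _).symm.trans y.2))⟩
  inv_hom {R} _ _ x := by
    apply Subtype.ext
    refine Prod.ext rfl ?_
    funext i
    refine Fin.cases ?_ (fun _ => rfl) i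
    exact add_sub_cancel_right (x.1.2 0) (algebraMap K R b * aeval (Fin.tail x.1.2) l)
  hom_inv {R} _ _ y := by
    apply Subtype.ext
    refine Prod.ext (Prod.ext rfl ?_) rfl
    exact sub_add_cancel y.1.1.2 (algebraMap K R b * aeval y.1.2 l)
  nat f x := by
    apply Subtype.ext
    refine Prod.ext (Prod.ext rfl ?_) rfl
    change f (x.1.2 0 + algebraMap K _ b * aeval (Fin.tail x.1.2) l) =
      f (x.1.2 0) + algebraMap K _ b * aeval (fun i => f (Fin.tail x.1.2 i)) l
    rw [map_add, map_mul, f.commutes, MvPolynomial.comp_aeval_apply]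

/-- the coefficient of the first variable -/
noncomputable def linQ {F : KFn K} (v : Coord F) {N : ℕ} (q : MvPolynomial (Fin (N + 1)) K)
    (l : MvPolynomial (Fin N) K) : Coord (QJ v q) where
  val x := aeval (Fin.tail x.1.2) l
  nat f x := MvPolynomial.comp_aeval_apply (R := K) _ f l

/-- a polynomial as a coordinate -/
noncomputable def polQ (F : KFn K) {N : ℕ} (l : MvPolynomial (Fin N) K) : Coord (pw F N) where
  val x := aeval x.2 l
  nat f x := MvPolynomial.comp_aeval_apply (R := K) _ f l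

/-- solve for the first variable -/
noncomputable def qjOpn {F : KFn K} (v : Coord F) {N : ℕ} (l g : MvPolynomial (Fin N) K) :
    Iso ((QJ v (C 0 * X 0 ^ 2 + rename Fin.succ l * X 0 + rename Fin.succ g)).opn
      (linQ v _ l)) ((pw F N).opn (polQ F l)) where
  hom x := ⟨(x.1.1.1, Fin.tail x.1.1.2), x.2⟩
  inv {R} _ _ y := ⟨⟨(y.1.1, Fin.cons (Ring.inverse (aeval y.1.2 l) *
      (v.val y.1.1 - aeval y.1.2 g)) y.1.2), by
    have h3 : IsUnit (aeval y.1.2 l) := y.2
    have h4 := Ring.mul_inverse_cancel _ h3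
    refine (aeval_dec 0 l g _).trans ?_
    change algebraMap K R 0 * _ ^ 2 + aeval y.1.2 l * (Ring.inverse (aeval y.1.2 l) *
      (v.val y.1.1 - aeval y.1.2 g)) + aeval y.1.2 g = v.val y.1.1
    rw [map_zero]
    linear_combination (v.val y.1.1 - aeval y.1.2 g) * h4⟩, y.2⟩
  inv_hom {R} _ _ x := by
    apply Subtype.ext
    apply Subtype.ext
    refine Prod.ext rfl ?_
    have h3 : IsUnit (aeval (Fin.tail x.1.1.2) l) := x.2
    have h4 := Ring.mul_inverse_cancel _ h3
    have h5 := (aeval_dec 0 l g x.1.1.2).symm.trans x.1.2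
    rw [map_zero] at h5
    funext i
    refine Fin.cases ?_ (fun _ => rfl) i
    change Ring.inverse (aeval (Fin.tail x.1.1.2) l) *
      (v.val x.1.1.1 - aeval (Fin.tail x.1.1.2) g) = x.1.1.2 0
    linear_combination (-Ring.inverse (aeval (Fin.tail x.1.1.2) l)) * h5 + x.1.1.2 0 * h4
  hom_inv _ := rfl
  nat f x := rfl

/-- the first variable does not occur -/
noncomputable def qjCls {F : KFn K} (v : Coord F) {N : ℕ} (l g : MvPolynomial (Fin N) K) :
    Iso ((QJ v (C 0 * X 0 ^ 2 + rename Fin.succ l * X 0 + rename Fin.succ g)).cls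
      (linQ v _ l)) ((QJ v g).cls ⟨fun x => aeval x.1.2 l, fun f x =>
        MvPolynomial.comp_aeval_apply (R := K) _ f l⟩).line where
  hom {R} _ _ x := (⟨⟨(x.1.1.1, Fin.tail x.1.1.2), by
    have h3 : aeval (Fin.tail x.1.1.2) l = 0 := x.2
    have h5 := (aeval_dec 0 l g x.1.1.2).symm.trans x.1.2
    rw [map_zero, h3] at h5
    change aeval (Fin.tail x.1.1.2) g = v.val x.1.1.1
    linear_combination h5⟩, x.2⟩, x.1.1.2 0)
  inv {R} _ _ y := ⟨⟨(y.1.1.1.1, Fin.cons y.2 y.1.1.1.2), by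
    have h3 : aeval y.1.1.1.2 l = 0 := y.1.2
    have h4 : aeval y.1.1.1.2 g = v.val y.1.1.1.1 := y.1.1.2
    refine (aeval_dec 0 l g _).trans ?_
    change algebraMap K R 0 * _ ^ 2 + aeval y.1.1.1.2 l * y.2 + aeval y.1.1.1.2 g =
      v.val y.1.1.1.1
    rw [map_zero, h3, h4]
    ring⟩, y.1.2⟩
  inv_hom x := Subtype.ext (Subtype.ext (Prod.ext rfl (Fin.cons_self_tail _)))
  hom_inv _ := rfl
  nat f x := rfl

end Pool.Agent.Helper29.PF
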