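import Pool.Agent.Helper29.PF.QJoin

/-!
# Quadratic polynomials with values in a functor: the induction
-/

set_option autoImplicit false

namespace Pool.Agent.Helper29.PF

open Pool.Agent.Helper29.CQ Pool.Agent.Helper65.CC Pool.Agent.Helper87.CC
open Pool.Agent.Helper65.CC.KFn
open Pool.Agent.Helper36.TQ (lp aeval_lp exists_lp lp_const)
open MvPolynomial (aeval C X rename)

variable {K : Type} [Field K] {G : ∀ (R : Type) [CommRing R] [Algebra K R], Prop}

/-- parametrisations of hyperplanes -/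
structure Hyp {n : ℕ} (l : MvPolynomial (Fin (n + 1)) K) where
  /-- the parametrisation -/
  s : Fin (n + 1) → MvPolynomial (Fin n) K
  /-- the variables -/
  r : Fin n → Fin (n + 1)
  deg : ∀ i, (s i).totalDegree ≤ 1
  h1 : ∀ (R : Type) [CommRing R] [Algebra K R] (y : Fin n → R),
    aeval (fun i => aeval y (s i)) l = 0
  h2 : ∀ (R : Type) [CommRing R] [Algebra K R] (y : Fin n → R) (i : Fin n),
    aeval y (s (r i)) = y i
  h3 : ∀ (R : Type) [CommRing R] [Algebra K R] (x : Fin (n + 1) → R), aeval x l = 0 →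
    ∀ i, aeval (fun j => x (r j)) (s i) = x i

theorem exists_hyp {n : ℕ} (b : Fin (n + 1) → K) (c : K) (j : Fin (n + 1)) (hb : b j ≠ 0) :
    Nonempty (Hyp (lp b c)) := by
  let m : MvPolynomial (Fin n) K := lp (fun i => -(b j)⁻¹ * b (j.succAbove i)) (-(b j)⁻¹ * c)
  let s : Fin (n + 1) → MvPolynomial (Fin n) K := Fin.insertNth j m (fun i => X i)
  have hsj : s j = m := by simp only [s, Fin.insertNth_apply_same]
  have hsi : ∀ i, s (j.succAbove i) = X i := fun i => by
    simp only [s, Fin.insertNth_apply_succAbove]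
  have hm : ∀ (R : Type) [CommRing R] [Algebra K R] (y : Fin n → R),
      algebraMap K R (b j) * aeval y m =
        -(∑ i, algebraMap K R (b (j.succAbove i)) * y i + algebraMap K R c) := by
    intro R _ _ y
    have h0 : algebraMap K R (b j) * algebraMap K R (b j)⁻¹ = 1 := by
      rw [← map_mul, mul_inv_cancel₀ hb, map_one]
    simp only [m]
    rw [aeval_lp, mul_add, Finset.mul_sum, neg_add, ← Finset.sum_neg_distrib]
    congr 1
    · refine Finset.sum_congr rfl fun i _ => ?_
      rw [map_mul, map_neg]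
      linear_combination (-(algebraMap K R (b (j.succAbove i)) * y i)) * h0
    · rw [map_mul, map_neg]
      linear_combination (-(algebraMap K R c)) * h0
  refine ⟨⟨s, j.succAbove, ?_, ?_, ?_, ?_⟩⟩
  · intro i
    rcases Fin.eq_self_or_eq_succAbove j i with rfl | ⟨i, rfl⟩
    · rw [hsj]
      simp only [m, Pool.Agent.Helper36.TQ.lp]
      refine (MvPolynomial.totalDegree_add _ _).trans (max_le ?_ ?_)
      · refine MvPolynomial.totalDegree_finsetSum_le fun i _ => ?_
        refine (MvPolynomial.totalDegree_mul _ _).trans ?_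
        rw [MvPolynomial.totalDegree_C, MvPolynomial.totalDegree_X, zero_add]
      · rw [MvPolynomial.totalDegree_C]
        exact zero_le_one
    · rw [hsi, MvPolynomial.totalDegree_X]
  · intro R _ _ y
    rw [aeval_lp, Fin.sum_univ_succAbove _ j, hsj, hm]
    simp only [hsi, MvPolynomial.aeval_X]
    ring
  · intro R _ _ y i
    rw [hsi, MvPolynomial.aeval_X]
  · intro R _ _ x hx i
    rcases Fin.eq_self_or_eq_succAbove j i with rfl | ⟨i, rfl⟩
    · rw [hsj]
      rw [aeval_lp, Fin.sum_univ_succAbove _ i] at hx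
      have h4 := hm R fun j => x (i.succAbove j)
      have h0 : algebraMap K R (b i)⁻¹ * algebraMap K R (b i) = 1 := by
        rw [← map_mul, inv_mul_cancel₀ hb, map_one]
      have h5 : algebraMap K R (b i) * aeval (fun j => x (i.succAbove j)) m =
          algebraMap K R (b i) * x i := by
        linear_combination h4 - hx
      calc aeval (fun j => x (i.succAbove j)) m = algebraMap K R (b i)⁻¹ *
          (algebraMap K R (b i) * aeval (fun j => x (i.succAbove j)) m) := by
            rw [← mul_assoc, h0, one_mul]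
        _ = x i := by rw [h5, ← mul_assoc, h0, one_mul]
    · rw [hsi, MvPolynomial.aeval_X]

/-- the three cases of a linear polynomial -/
theorem lin_cases {n : ℕ} (l : MvPolynomial (Fin n) K) (hl : l.totalDegree ≤ 1) :
    l = 0 ∨ (∃ c, c ≠ 0 ∧ l = C c) ∨ ∃ (n' : ℕ) (e : n = n' + 1), Nonempty (Hyp (e ▸ l)) := by
  obtain ⟨b, c, rfl⟩ := exists_lp l hl
  by_cases hb : b = 0
  · rw [hb, lp_const]
    by_cases hc : c = 0
    · left
      rw [hc, map_zero]
    · right
      left
      exact ⟨c, hc, rfl⟩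
  · right
    right
    obtain ⟨j, hj⟩ := Function.ne_iff.1 hb
    rcases n with _ | n
    · exact j.elim0
    · exact ⟨n, rfl, exists_hyp b c j hj⟩

/-- hyperplanes in powers -/
noncomputable def isoH1 (F : KFn K) {n : ℕ} {l : MvPolynomial (Fin (n + 1)) K} (h : Hyp l) :
    Iso ((pw F (n + 1)).cls (polQ F l)) (pw F n) where
  hom x := (x.1.1, fun j => x.1.2 (h.r j))
  inv {R} _ _ y := ⟨(y.1, fun i => aeval y.2 (h.s i)), h.h1 R y.2⟩
  inv_hom {R} _ _ x := Subtype.ext (Prod.ext rfl (funext fun i => h.h3 R x.1.2 x.2 i))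
  hom_inv {R} _ _ y := Prod.ext rfl (funext fun i => h.h2 R y.2 i)
  nat _ _ := rfl

/-- a polynomial as a coordinate -/
noncomputable def valQ {F : KFn K} (v : Coord F) {N : ℕ} (g l : MvPolynomial (Fin N) K) :
    Coord (QJ v g) := ⟨fun x => aeval x.1.2 l, fun f x =>
      MvPolynomial.comp_aeval_apply (R := K) _ f l⟩

theorem aeval_two {m n : ℕ} (s : Fin m → MvPolynomial (Fin n) K) (g : MvPolynomial (Fin m) K)
    {R : Type} [CommRing R] [Algebra K R] (y : Fin n → R) :
    aeval y (aeval s g) = aeval (fun i => aeval y (s i)) g :=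
  MvPolynomial.comp_aeval_apply (R := K) _ _ _

/-- hyperplane sections -/
noncomputable def isoH2 {F : KFn K} (v : Coord F) {n : ℕ} (g : MvPolynomial (Fin (n + 1)) K)
    {l : MvPolynomial (Fin (n + 1)) K} (h : Hyp l) :
    Iso ((QJ v g).cls (valQ v g l)) (QJ v (aeval h.s g)) where
  hom {R} _ _ x := ⟨(x.1.1.1, fun j => x.1.1.2 (h.r j)), (aeval_two h.s g _).trans
    ((congrArg (fun z => aeval z g) (funext fun i => h.h3 R x.1.1.2 x.2 i)).trans x.1.2)⟩
  inv {R} _ _ y := ⟨⟨(y.1.1, fun i => aeval y.1.2 (h.s i)), (aeval_two h.s g _).symm.trans y.2⟩,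
    h.h1 R y.1.2⟩
  inv_hom {R} _ _ x := Subtype.ext (Subtype.ext (Prod.ext rfl
    (funext fun i => h.h3 R x.1.1.2 x.2 i)))
  hom_inv {R} _ _ y := Subtype.ext (Prod.ext rfl (funext fun i => h.h2 R y.1.2 i))
  nat _ _ := rfl

theorem triv_of_unit {c : K} (hc : c ≠ 0) {R : Type} [CommRing R] [Algebra K R]
    (h : algebraMap K R c = 0) : Subsingleton R := by
  have h1 : IsUnit (algebraMap K R c) := (IsUnit.mk0 c hc).map _
  rw [h] at h1
  exact subsingleton_of_zero_eq_one (isUnit_zero_iff.1 h1)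

theorem mem_pcls (hG : KOps K G) {F : KFn K} (hF : F.Mem G) {n : ℕ}
    (l : MvPolynomial (Fin n) K) (hl : l.totalDegree ≤ 1) :
    ((pw F n).cls (polQ F l)).Mem G := by
  rcases lin_cases l hl with rfl | ⟨c, hc, rfl⟩ | ⟨n', e, ⟨h⟩⟩
  · refine Mem.of_iso ?_ (mem_pwG hG hF n)
    exact
      { hom := fun x => x.1
        inv := fun x => ⟨x, map_zero _⟩
        inv_hom := fun _ => rfl
        hom_inv := fun _ => rfl
        nat := fun _ _ => rfl }
  · refine Mem.of_trivial hG fun A _ _ x => triv_of_unit hc ?_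
    exact (MvPolynomial.aeval_C _ c).symm.trans x.2
  · subst e
    exact Mem.of_iso (isoH1 F h) (mem_pwG hG hF n')

theorem mem_qcls (hG : KOps K G) {F : KFn K} (v : Coord F) {n : ℕ}
    (g l : MvPolynomial (Fin n) K) (hl : l.totalDegree ≤ 1) (hg : (QJ v g).Mem G)
    (hg2 : g.totalDegree ≤ 2) (ih : ∀ n' < n, ∀ q : MvPolynomial (Fin n') K,
      q.totalDegree ≤ 2 → (QJ v q).Mem G) : ((QJ v g).cls (valQ v g l)).Mem G := by
  rcases lin_cases l hl with rfl | ⟨c, hc, rfl⟩ | ⟨n', e, ⟨h⟩⟩
  · refine Mem.of_iso ?_ hg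
    exact
      { hom := fun x => x.1
        inv := fun x => ⟨x, map_zero _⟩
        inv_hom := fun _ => rfl
        hom_inv := fun _ => rfl
        nat := fun _ _ => rfl }
  · refine Mem.of_trivial hG fun A _ _ x => triv_of_unit hc ?_
    exact (MvPolynomial.aeval_C _ c).symm.trans x.2
  · subst e
    exact Mem.of_iso (isoH2 v g h) (ih n' (Nat.lt_succ_self n') _
      ((totalDegree_aeval_le h.s h.deg g).trans hg2))

/-- **Quadratic polynomials with values in a functor** -/
theorem qjoin (hG : KOps K G) (N : ℕ) : ((2 : K) ≠ 0 ∨ N = 0) →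
    ∀ {F : KFn K} [Rp F] (v : Coord F),
    SqMem G v → ∀ q : MvPolynomial (Fin N) K, q.totalDegree ≤ 2 → (QJ v q).Mem G := by
  induction N using Nat.strong_induction_on with
  | _ N ih =>
    intro h2 F _ v hv q hq
    rcases N with _ | n
    · rw [MvPolynomial.eq_C_of_isEmpty q]
      exact Mem.of_iso (qjConst v _) (hv.2 0 _ _)
    · replace h2 : (2 : K) ≠ 0 := h2.resolve_right (Nat.succ_ne_zero n)
      obtain ⟨a, l, g, hl, hg, rfl⟩ := decomp2 q hq
      by_cases ha : a = 0
      · subst ha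
        have h3 := ih n (Nat.lt_succ_self n) (Or.inl h2) v hv g hg
        refine Mem.glue hG (linQ v _ l) ?_ ?_
        · exact Mem.of_iso (qjOpn v l g) (mem_opn hG _ (mem_pwG hG hv.1 n)
            (mem_pcls hG hv.1 l hl))
        · exact Mem.of_iso (qjCls v l g) (Mem.line hG (mem_qcls hG v g l hl h3 hg
            fun n' hn' q' hq' => ih n' (hn'.trans (Nat.lt_succ_self n)) (Or.inl h2) v hv q' hq'))
      · have hab : 2 * (a * (2 * a)⁻¹) = 1 := by
          have h3 : 2 * a * (2 * a)⁻¹ = 1 := mul_inv_cancel₀ (mul_ne_zero h2 ha)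
          rw [← mul_assoc]
          exact h3
        refine Mem.of_iso (qjSquare v a _ hab l g) (ih n (Nat.lt_succ_self n) (Or.inl h2) (sqC v a)
          (hv.sq hG a) _ ?_)
        refine (MvPolynomial.totalDegree_sub _ _).trans (max_le hg ?_)
        refine (MvPolynomial.totalDegree_mul _ _).trans ?_
        rw [MvPolynomial.totalDegree_C, zero_add]
        exact (MvPolynomial.totalDegree_pow _ _).trans (Nat.mul_le_mul_left 2 hl)

end Pool.Agent.Helper29.PF
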