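import Pool.Agent.Helper29.PF.QConst

/-!
# Quadratic polynomials and forms
-/

set_option autoImplicit false

namespace Pool.Agent.Helper29.PF

open Pool.Agent.Helper29.CQ Pool.Agent.Helper65.CC Pool.Agent.Helper87.CC
open Pool.Agent.Helper65.CC.KFn
open MvPolynomial (aeval eval₂ eval₂Hom C X rename map)
open TensorProduct

section K

variable {K : Type} [Field K] {G : ∀ (R : Type) [CommRing R] [Algebra K R], Prop}

/-- points with prescribed zeros -/
def ZPS (K : Type) [Field K] {s : ℕ} (S : Fin s → Prop) : KFn K where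
  obj R _ _ := {w : Fin s → R // ∀ j, S j → w j = 0}
  map f x := ⟨fun i => f (x.1 i), fun j hj => (congrArg f (x.2 j hj)).trans (map_zero f)⟩
  id_map _ := rfl
  comp_map _ _ _ := rfl

/-- minus a sum of powers -/
def vS {s : ℕ} (c : Fin s → K) (d : Fin s → ℕ) (S : Fin s → Prop) : Coord (ZPS K S) where
  val w := - smp c d w.1
  nat f w := by
    rw [map_neg, ← smp_map]
    rfl

open Classical in
/-- extension by zero -/
noncomputable def ext0 {s : ℕ} (S : Fin s → Prop) {R : Type} [Zero R]
    (u : {j // ¬ S j} → R) : Fin s → R := fun j => if h : S j then 0 else u ⟨j, h⟩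

theorem ext0_of {s : ℕ} (S : Fin s → Prop) {R : Type} [Zero R] (u : {j // ¬ S j} → R)
    (j : Fin s) (h : S j) : ext0 S u j = 0 := dif_pos h

theorem ext0_not {s : ℕ} (S : Fin s → Prop) {R : Type} [Zero R] (u : {j // ¬ S j} → R)
    (j : {j // ¬ S j}) : ext0 S u j.1 = u j := dif_neg j.2

theorem ext0_res {s : ℕ} (S : Fin s → Prop) {R : Type} [Zero R] (w : Fin s → R)
    (h : ∀ j, S j → w j = 0) : ext0 S (fun j => w j.1) = w := by
  funext j
  by_cases hj : S j
  · rw [ext0_of S _ j hj, h j hj]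
  · exact ext0_not S (fun j => w j.1) ⟨j, hj⟩

open Classical in
theorem smp_res {s : ℕ} (S : Fin s → Prop) (c : Fin s → K) {d : Fin s → ℕ} (hd : ∀ j, d j ≠ 0)
    {R : Type} [CommRing R] [Algebra K R] (w : Fin s → R) (h : ∀ j, S j → w j = 0) :
    smp c d w = smp (fun j : {j // ¬ S j} => c j.1) (fun j => d j.1) (fun j => w j.1) := by
  rw [smp, smp, ← Fintype.sum_subtype_add_sum_subtype S]
  rw [Finset.sum_eq_zero, zero_add]
  intro j _
  rw [h j.1 j.2, zero_pow (hd _), mul_zero]

theorem smp_sum {ι κ : Type} [Fintype ι] [Fintype κ] (a : ι → K) (b : κ → K) (n : ι → ℕ)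
    (m : κ → ℕ) {R : Type} [CommRing R] [Algebra K R] (w : ι → R) (y : κ → R) :
    smp (Sum.elim a b) (Sum.elim n m) (Sum.elim w y) = smp a n w + smp b m y := by
  rw [smp, smp, smp, Fintype.sum_sum_type]
  rfl

/-- the points with prescribed zeros -/
noncomputable def zpsIso {s : ℕ} (S : Fin s → Prop) [Fintype {j // ¬ S j}] :
    Iso (ZPS K S) (FS (fun _ : {j // ¬ S j} => (0 : K)) (fun _ => 1) 0) where
  hom {R} _ _ w := ⟨fun j => w.1 j.1, by
    rw [smp, map_zero]
    exact Finset.sum_eq_zero fun i _ => zero_mul _⟩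
  inv {R} _ _ u := ⟨ext0 S u.1, fun j hj => ext0_of S _ j hj⟩
  inv_hom w := Subtype.ext (ext0_res S w.1 w.2)
  hom_inv u := Subtype.ext (funext fun j => ext0_not S u.1 j)
  nat _ _ := rfl

theorem sq_aux {s : ℕ} {S : Fin s → Prop} [Fintype {j // ¬ S j}] (c : Fin s → K)
    {d : Fin s → ℕ} (hd : ∀ j, d j ≠ 0) {r : ℕ} (b : Fin r → K) (e : K) {R : Type} [CommRing R]
    [Algebra K R] (w : Fin s → R) (h : ∀ j, S j → w j = 0) (y : Fin r → R) :
    (∑ i, algebraMap K R (b i) * y i ^ 2 + algebraMap K R e = - smp c d w) ↔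
      smp (Sum.elim (fun j : {j // ¬ S j} => c j.1) b) (Sum.elim (fun j => d j.1) fun _ => 2)
        (Sum.elim (fun j : {j // ¬ S j} => w j.1) y) = algebraMap K R (-e) := by
  have h1 : smp c d w =
      smp (fun j : {j // ¬ S j} => c j.1) (fun j => d j.1) (fun j => w j.1) := by
    rw [smp_res S c hd w h]
    congr
    exact Subsingleton.elim _ _
  rw [smp_sum, ← h1, map_neg]
  have h2 : smp b (fun _ => 2) y = ∑ i, algebraMap K R (b i) * y i ^ 2 := rfl
  rw [h2]
  constructor
  · intro h3
    linear_combination h3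
  · intro h3
    linear_combination h3

/-- sums of squares and powers -/
noncomputable def sqIso {s : ℕ} (c : Fin s → K) {d : Fin s → ℕ} (hd : ∀ j, d j ≠ 0)
    (S : Fin s → Prop) [Fintype {j // ¬ S j}] {r : ℕ} (b : Fin r → K) (e : K) :
    Iso (SQ (vS c d S) b e) (FS (Sum.elim (fun j : {j // ¬ S j} => c j.1) b)
      (Sum.elim (fun j => d j.1) fun _ => 2) (-e)) where
  hom {R} _ _ x := ⟨Sum.elim (fun j => x.1.1.1 j.1) x.1.2,
    (sq_aux c hd b e x.1.1.1 x.1.1.2 x.1.2).1 x.2⟩
  inv {R} _ _ u := ⟨(⟨ext0 S (fun j => u.1 (Sum.inl j) : {j // ¬ S j} → R),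
      fun j hj => ext0_of S _ j hj⟩, fun i => u.1 (Sum.inr i)), by
    refine (sq_aux c hd b e (ext0 S (fun j => u.1 (Sum.inl j) : {j // ¬ S j} → R))
      (fun j hj => ext0_of S _ j hj) _).2 ?_
    have h1 : (Sum.elim (fun j : {j // ¬ S j} => ext0 S (fun j => u.1 (Sum.inl j) :
        {j // ¬ S j} → R) j.1) fun i => u.1 (Sum.inr i)) = u.1 := by
      funext i
      rcases i with i | i
      · exact ext0_not S (fun j => u.1 (Sum.inl j)) i
      · rfl
    exact (congrArg (smp _ _) h1).trans u.2⟩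
  inv_hom x := Subtype.ext (Prod.ext (Subtype.ext (ext0_res S x.1.1.1 x.1.1.2)) rfl)
  hom_inv u := Subtype.ext (funext fun i => by
    rcases i with i | i
    · exact ext0_not S (fun j => u.1 (Sum.inl j)) i
    · rfl)
  nat f x := Subtype.ext (funext fun i => by
    rcases i with i | i
    · rfl
    · rfl)

end K

variable {k K : Type} [Field k] [Field K] [Algebra k K]
  {G : ∀ (R : Type) [CommRing R] [Algebra K R], Prop}

theorem sqMem_vS [IsAlgClosed K] (hG : GOps K G) [Finite k] {p : ℕ} [CharP k p] (hp : p.Prime)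
    {P : ∀ (A : Type) [CommRing A], Prop} (hP : FormalClass p P)
    (hW : ∀ (W : Type) [CommRing W] [Algebra k W], P W → G (K ⊗[k] W)) {s : ℕ} (c : Fin s → K)
    {d : Fin s → ℕ} (hd : ∀ j, d j ≠ 0) (S : Fin s → Prop) : SqMem G (vS c d S) := by
  classical
  refine ⟨Mem.of_iso (zpsIso S) (mem_FSK hG.toKOps hp hP hW _ (fun _ => one_pos) 0), fun r b e =>
    Mem.of_iso (sqIso c hd S b e) (mem_FSK hG.toKOps hp hP hW _ ?_ _)⟩
  rintro (i | i)
  · exact Nat.pos_of_ne_zero (hd _)
  · exact two_pos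

instance {s : ℕ} (S : Fin s → Prop) : Rp (ZPS K S) := by
  classical
  exact Rp.iso (zpsIso S).symm

theorem mem_qj [IsAlgClosed K] {N : ℕ} (h2 : (2 : K) ≠ 0 ∨ N = 0) (hG : GOps K G) [Finite k] {p : ℕ} [CharP k p]
    (hp : p.Prime) {P : ∀ (A : Type) [CommRing A], Prop} (hP : FormalClass p P)
    (hW : ∀ (W : Type) [CommRing W] [Algebra k W], P W → G (K ⊗[k] W)) {s : ℕ} (c : Fin s → K)
    {d : Fin s → ℕ} (hd : ∀ j, d j ≠ 0) (S : Fin s → Prop)
    (q : MvPolynomial (Fin N) K) (hq : q.totalDegree ≤ 2) : (QJ (vS c d S) q).Mem G :=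
  qjoin hG.toKOps N h2 _ (sqMem_vS hG hp hP hW c hd S) q hq

/-! ### The equation over an algebra -/

section T

variable {T : Type} [CommRing T] {N s : ℕ}

/-- the equation -/
noncomputable def Lq (q : MvPolynomial (Fin N) T) (c : Fin s → T) :
    MvPolynomial (Fin s) (MvPolynomial (Fin N) T) := C q + ∑ j, C (C (c j)) * X j

theorem lq_iff (q : MvPolynomial (Fin N) T) (c : Fin s → T) {R : Type} [CommRing R]
    (τ : T →+* R) (x : Fin N → R) (w : Fin s → R) (d : Fin s → ℕ) (S : Fin s → Prop) :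
    (∀ a ∈ EqPT d {Lq q c} S, eval₂ (eval₂Hom τ x) w a = 0) ↔
      (eval₂ τ x q + ∑ j, τ (c j) * w j ^ d j = 0) ∧ ∀ j, S j → w j = 0 := by
  rw [eqPT_iff]
  have h1 : eval₂ (eval₂Hom τ x) (fun j => w j ^ d j) (Lq q c) =
      eval₂ τ x q + ∑ j, τ (c j) * w j ^ d j := by
    rw [Lq, MvPolynomial.eval₂_add, MvPolynomial.eval₂_C, MvPolynomial.eval₂_sum]
    congr 1
    refine Finset.sum_congr rfl fun j _ => ?_
    rw [MvPolynomial.eval₂_mul, MvPolynomial.eval₂_C, MvPolynomial.eval₂_X,
      MvPolynomial.eval₂Hom_C]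
  rw [← h1]
  simp only [Set.mem_singleton_iff, forall_eq]

variable [Algebra T K]

theorem aeval_mapT (q : MvPolynomial (Fin N) T) {R : Type} [CommRing R] [Algebra K R]
    (x : Fin N → R) : aeval x (map (algebraMap T K) q) =
      eval₂ ((algebraMap K R).comp (algebraMap T K)) x q := by
  rw [MvPolynomial.aeval_def, MvPolynomial.eval₂_map]

/-- the fibre -/
noncomputable def btIso (q : MvPolynomial (Fin N) T) (c : Fin s → T) (d : Fin s → ℕ)
    (S : Fin s → Prop) :
    Iso (BT T (MvPolynomial (Fin s) (MvPolynomial (Fin N) T) ⧸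
        Ideal.span (EqPT d {Lq q c} S)) K)
      (QJ (vS (fun j => algebraMap T K (c j)) d S) (map (algebraMap T K) q)) := by
  set I := Ideal.span (EqPT d {Lq q c} S) with hI
  have key : ∀ (R : Type) [CommRing R] [Algebra K R] (f : (MvPolynomial (Fin s)
      (MvPolynomial (Fin N) T) ⧸ I) →+* R), (∀ t, f (algebraMap T _ t) =
      algebraMap K R (algebraMap T K t)) → ∀ a : MvPolynomial (Fin s) (MvPolynomial (Fin N) T),
      f (Ideal.Quotient.mk I a) = eval₂ (eval₂Hom ((algebraMap K R).comp (algebraMap T K))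
        fun i => f (Ideal.Quotient.mk I (C (X i)))) (fun j => f (Ideal.Quotient.mk I (X j))) a := by
    intro R _ _ f hf a
    have h1 : f.comp (Ideal.Quotient.mk I) = eval₂Hom (eval₂Hom ((algebraMap K R).comp
        (algebraMap T K)) fun i => f (Ideal.Quotient.mk I (C (X i))))
          (fun j => f (Ideal.Quotient.mk I (X j))) := by
      apply MvPolynomial.ringHom_ext
      · intro b
        rw [MvPolynomial.eval₂Hom_C]
        have h2 : (f.comp (Ideal.Quotient.mk I)).comp C = eval₂Hom ((algebraMap K R).comp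
            (algebraMap T K)) fun i => f (Ideal.Quotient.mk I (C (X i))) := by
          apply MvPolynomial.ringHom_ext
          · intro t
            rw [MvPolynomial.eval₂Hom_C]
            exact hf t
          · intro i
            rw [MvPolynomial.eval₂Hom_X']
            rfl
        exact RingHom.congr_fun h2 b
      · intro j
        rw [MvPolynomial.eval₂Hom_X']
        rfl
    exact RingHom.congr_fun h1 a
  have kill : ∀ (R : Type) [CommRing R] [Algebra K R] (f : (MvPolynomial (Fin s)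
      (MvPolynomial (Fin N) T) ⧸ I) →+* R), (∀ t, f (algebraMap T _ t) =
      algebraMap K R (algebraMap T K t)) → _ := fun R _ _ f hf =>
      (lq_iff q c ((algebraMap K R).comp (algebraMap T K))
        (fun i => f (Ideal.Quotient.mk I (C (X i)))) (fun j => f (Ideal.Quotient.mk I (X j)))
          d S).1 fun a ha => by
        rw [← key R f hf a, Ideal.Quotient.eq_zero_iff_mem.2 (Ideal.subset_span ha), map_zero]
  have van : ∀ (R : Type) [CommRing R] [Algebra K R] (y : (QJ (vS (fun j => algebraMap T K (c j))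
      d S) (map (algebraMap T K) q)).obj R), ∀ a ∈ I,
      eval₂Hom (eval₂Hom ((algebraMap K R).comp (algebraMap T K)) y.1.2) y.1.1.1 a = 0 := by
    intro R _ _ y a ha
    have h1 : I ≤ RingHom.ker (eval₂Hom (eval₂Hom ((algebraMap K R).comp (algebraMap T K))
        y.1.2) y.1.1.1) := by
      rw [hI, Ideal.span_le]
      refine (lq_iff q c ((algebraMap K R).comp (algebraMap T K)) y.1.2 y.1.1.1 d S).2
        ⟨?_, y.1.1.2⟩
      have h2 : aeval y.1.2 (map (algebraMap T K) q) =
        - smp (fun j => algebraMap T K (c j)) d y.1.1.1 := y.2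
      rw [aeval_mapT] at h2
      rw [h2]
      exact neg_add_cancel _
    exact h1 ha
  exact
    { hom := fun {R} _ _ f => ⟨(⟨fun j => f.1 (Ideal.Quotient.mk I (X j)), (kill R f.1 f.2).2⟩,
        fun i => f.1 (Ideal.Quotient.mk I (C (X i)))), by
          have h1 := (kill R f.1 f.2).1
          refine (aeval_mapT q _).trans ?_
          exact eq_neg_of_add_eq_zero_left h1⟩
      inv := fun {R} _ _ y => ⟨Ideal.Quotient.lift I (eval₂Hom (eval₂Hom ((algebraMap K R).comp
        (algebraMap T K)) y.1.2) y.1.1.1) (van R y), fun t => by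
          change eval₂Hom (eval₂Hom ((algebraMap K R).comp (algebraMap T K)) y.1.2) y.1.1.1
            (C (C t)) = _
          rw [MvPolynomial.eval₂Hom_C, MvPolynomial.eval₂Hom_C]
          rfl⟩
      inv_hom := fun {R} _ _ f => Subtype.ext (by
        apply Ideal.Quotient.ringHom_ext
        apply RingHom.ext
        intro a
        exact (key R f.1 f.2 a).symm)
      hom_inv := fun {R} _ _ y => by
        apply Subtype.ext
        refine Prod.ext (Subtype.ext ?_) ?_
        · funext j
          change eval₂Hom (eval₂Hom ((algebraMap K R).comp (algebraMap T K)) y.1.2) y.1.1.1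
            (X j) = _
          rw [MvPolynomial.eval₂Hom_X']
        · funext i
          change eval₂Hom (eval₂Hom ((algebraMap K R).comp (algebraMap T K)) y.1.2) y.1.1.1
            (C (X i)) = _
          rw [MvPolynomial.eval₂Hom_C, MvPolynomial.eval₂Hom_X']
      nat := fun _ _ => rfl }

end T

variable {p : ℕ} {P : ∀ (A : Type) [CommRing A], Prop} {T : Type} [CommRing T] [Algebra k T]
  {N s : ℕ}

theorem deg_map {R S : Type} [CommRing R] [CommRing S] (f : R →+* S)
    (q : MvPolynomial (Fin N) R) : (map f q).totalDegree ≤ q.totalDegree :=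
  Finset.sup_mono (MvPolynomial.support_map_subset _ _)

/-- quadratic polynomials and powers -/
theorem quad_pow [Finite k] [CharP k p] (hp : p.Prime) (hp2 : p ≠ 2 ∨ N = 0)
    (hP : FormalClass p P)
    (hT : Algebra.FiniteType k T) (hdim : ringKrullDim T ≤ 1) (q : MvPolynomial (Fin N) T)
    (hq : q.totalDegree ≤ 2) (c : Fin s → T) {d : Fin s → ℕ} (hd : ∀ j, d j ≠ 0)
    (S : Fin s → Prop) :
    P (MvPolynomial (Fin s) (MvPolynomial (Fin N) T) ⧸ Ideal.span (EqPT d {Lq q c} S)) := by
  have hD : Algebra.FiniteType T (MvPolynomial (Fin s) (MvPolynomial (Fin N) T) ⧸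
      Ideal.span (EqPT d {Lq q c} S)) := by
    refine Algebra.FiniteType.trans (S := MvPolynomial (Fin N) T) inferInstance ?_
    exact (inferInstance : Algebra.FiniteType (MvPolynomial (Fin N) T)
      (MvPolynomial (Fin s) (MvPolynomial (Fin N) T))).of_surjective
        (Ideal.Quotient.mkₐ _ _) (Ideal.Quotient.mkₐ_surjective _ _)
  refine fibT hp hP k hT hdim hD fun K _ _ _ _ hkT G hG hW => ?_
  have h2 : (2 : K) ≠ 0 ∨ N = 0 := by
    refine hp2.imp_left fun hp2 h0 => ?_
    have h1 : (algebraMap k K) 2 = 0 := by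
      rw [map_ofNat]
      exact h0
    have h3 : (2 : k) = 0 := (map_eq_zero (algebraMap k K)).1 h1
    have h4 : ((2 : ℕ) : k) = 0 := by exact_mod_cast h3
    have h5 := (CharP.cast_eq_zero_iff k p 2).1 h4
    exact hp2 ((Nat.prime_dvd_prime_iff_eq hp Nat.prime_two).1 h5)
  exact Mem.of_iso (btIso q c d S) (mem_qj h2 hG hp hP hW _ hd S _
    ((deg_map _ _).trans hq))

/-- the equation -/
noncomputable def Eqn (q : MvPolynomial (Fin N) T) (c : Fin s → T) {σ : Fin s → Type}
    (F : ∀ j, MvPolynomial (σ j) k) : MvPolynomial (Σ j, σ j) (MvPolynomial (Fin N) T) :=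
  C q + ∑ j, C (C (c j)) * map (algebraMap k (MvPolynomial (Fin N) T))
    (rename (Sigma.mk j) (F j))

theorem compT_lq (q : MvPolynomial (Fin N) T) (c : Fin s → T) {σ : Fin s → Type}
    (F : ∀ j, MvPolynomial (σ j) k) : compT (Lq q c) F = Eqn q c F := by
  simp only [Eqn, compT, Lq, map_add, map_sum, map_mul, MvPolynomial.aeval_X,
    MvPolynomial.algHom_C, MvPolynomial.algebraMap_eq]

/-- **Quadratic polynomials and forms** over an algebra of dimension at most one -/
theorem quad_forms [Finite k] [CharP k p] (hp : p.Prime) (hp2 : p ≠ 2 ∨ N = 0)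
    (hP : FormalClass p P)
    (hT : Algebra.FiniteType k T) (hdim : ringKrullDim T ≤ 1) (q : MvPolynomial (Fin N) T)
    (hq : q.totalDegree ≤ 2) (c : Fin s → T) {σ : Fin s → Type} [∀ j, Fintype (σ j)]
    {F : ∀ j, MvPolynomial (σ j) k} {d : Fin s → ℕ}
    (hF : ∀ j, Pool.Agent.Helper67.CQ.GoodD P (F j) (d j)) :
    P (MvPolynomial (Σ j, σ j) (MvPolynomial (Fin N) T) ⧸ Ideal.span {Eqn q c F}) := by
  have hk : (p : k) = 0 := CharP.cast_eq_zero k p
  have hT' : Algebra.FiniteType k (MvPolynomial (Fin N) T) :=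
    hT.trans (inferInstance : Algebra.FiniteType T (MvPolynomial (Fin N) T))
  have h1 := formsT hP hk hT' hF {Lq q c} fun S =>
    quad_pow hp hp2 hP hT hdim q hq c (fun j => (hF j).1) S
  rw [Set.image_singleton, compT_lq] at h1
  exact h1

end Pool.Agent.Helper29.PF
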