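import Pool.Agent.Helper29.PF.QMain

/-!
# Two equations with quadratic polynomials and forms
-/

set_option autoImplicit false

namespace Pool.Agent.Helper29.PF

open Pool.Agent.Helper29.CQ Pool.Agent.Helper65.CC Pool.Agent.Helper87.CC
open Pool.Agent.Helper65.CC.KFn
open MvPolynomial (aeval eval₂ eval₂Hom C X rename map)

variable {p : ℕ} {P : ∀ (A : Type) [CommRing A], Prop}
variable {k T : Type} [Field k] [CommRing T] [Algebra k T] {N s : ℕ} {σ : Fin s → Type}

theorem eval_eqn {R : Type} [CommRing R] [Algebra k R] (g : MvPolynomial (Fin N) T →ₐ[k] R)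
    (z : (Σ j, σ j) → R) (q : MvPolynomial (Fin N) T) (c : Fin s → T)
    (F : ∀ j, MvPolynomial (σ j) k) :
    eval₂ (g : MvPolynomial (Fin N) T →+* R) z (Eqn q c F) =
      g q + ∑ j, g (C (c j)) * aeval (fun a => z ⟨j, a⟩) (F j) := by
  rw [Eqn, MvPolynomial.eval₂_add, MvPolynomial.eval₂_C, MvPolynomial.eval₂_sum]
  congr 1
  refine Finset.sum_congr rfl fun j _ => ?_
  rw [MvPolynomial.eval₂_mul, MvPolynomial.eval₂_C, MvPolynomial.eval₂_map,
    MvPolynomial.eval₂_rename, MvPolynomial.aeval_def]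
  congr 2
  exact g.comp_algebraMap

/-- polynomials with coefficients in `T` as polynomials with coefficients in `T[t]` -/
noncomputable def upT (T : Type) [CommRing T] (N : ℕ) :
    MvPolynomial (Fin N) T →+* MvPolynomial (Fin N) (Polynomial T) := map Polynomial.C

/-- restriction of a homomorphism -/
noncomputable def dnH {R : Type} [CommRing R] [Algebra k R]
    (f : MvPolynomial (Fin N) (Polynomial T) →ₐ[k] R) : MvPolynomial (Fin N) T →ₐ[k] R :=
  { (f : MvPolynomial (Fin N) (Polynomial T) →+* R).comp (upT T N) with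
    commutes' := fun a => by
      rw [← f.commutes a]
      change f (map Polynomial.C (C (algebraMap k T a))) = f (C (algebraMap k _ a))
      rw [MvPolynomial.map_C]
      rfl }

theorem dnH_apply {R : Type} [CommRing R] [Algebra k R]
    (f : MvPolynomial (Fin N) (Polynomial T) →ₐ[k] R) (q : MvPolynomial (Fin N) T) :
    dnH f q = f (map Polynomial.C q) := rfl

/-- extension of a homomorphism -/
noncomputable def upH {R : Type} [CommRing R] [Algebra k R] (g : MvPolynomial (Fin N) T →ₐ[k] R)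
    (t : R) : MvPolynomial (Fin N) (Polynomial T) →ₐ[k] R :=
  { eval₂Hom (Polynomial.eval₂RingHom ((g : MvPolynomial (Fin N) T →+* R).comp C) t) (fun i => g (X i)) with
    commutes' := fun a => by
      rw [← g.commutes a]
      change eval₂Hom (Polynomial.eval₂RingHom ((g : MvPolynomial (Fin N) T →+* R).comp C) t) (fun i => g (X i))
        (C (Polynomial.C (algebraMap k T a))) = g (C (algebraMap k T a))
      rw [MvPolynomial.eval₂Hom_C, Polynomial.coe_eval₂RingHom, Polynomial.eval₂_C]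
      rfl }

theorem upH_C {R : Type} [CommRing R] [Algebra k R] (g : MvPolynomial (Fin N) T →ₐ[k] R)
    (t : R) (a : Polynomial T) : upH g t (C a) = Polynomial.eval₂ ((g : MvPolynomial (Fin N) T →+* R).comp C) t a :=
  MvPolynomial.eval₂Hom_C _ _ _

theorem upH_X {R : Type} [CommRing R] [Algebra k R] (g : MvPolynomial (Fin N) T →ₐ[k] R)
    (t : R) (i : Fin N) : upH g t (X i) = g (X i) := MvPolynomial.eval₂Hom_X' _ _ _

theorem upH_t {R : Type} [CommRing R] [Algebra k R] (g : MvPolynomial (Fin N) T →ₐ[k] R)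
    (t : R) : upH g t (C Polynomial.X) = t := by
  rw [upH_C, Polynomial.eval₂_X]

theorem dn_up {R : Type} [CommRing R] [Algebra k R] (g : MvPolynomial (Fin N) T →ₐ[k] R)
    (t : R) : dnH (upH g t) = g := by
  apply AlgHom.coe_ringHom_injective
  apply MvPolynomial.ringHom_ext
  · intro a
    change upH g t (map Polynomial.C (C a)) = g (C a)
    rw [MvPolynomial.map_C, upH_C, Polynomial.eval₂_C]
    rfl
  · intro i
    change upH g t (map Polynomial.C (X i)) = g (X i)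
    rw [MvPolynomial.map_X, upH_X]

theorem up_dn {R : Type} [CommRing R] [Algebra k R]
    (f : MvPolynomial (Fin N) (Polynomial T) →ₐ[k] R) :
    upH (dnH f) (f (C Polynomial.X)) = f := by
  apply AlgHom.coe_ringHom_injective
  apply MvPolynomial.ringHom_ext
  · intro a
    change upH (dnH f) (f (C Polynomial.X)) (C a) = f (C a)
    rw [upH_C]
    have h1 : Polynomial.eval₂RingHom ((dnH f : MvPolynomial (Fin N) T →+* R).comp C) (f (C Polynomial.X)) =
        (f : MvPolynomial (Fin N) (Polynomial T) →+* R).comp C := by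
      apply Polynomial.ringHom_ext
      · intro b
        rw [Polynomial.coe_eval₂RingHom, Polynomial.eval₂_C]
        change f (map Polynomial.C (C b)) = f (C (Polynomial.C b))
        rw [MvPolynomial.map_C]
      · rw [Polynomial.coe_eval₂RingHom, Polynomial.eval₂_X]
        rfl
    exact RingHom.congr_fun h1 a
  · intro i
    change upH (dnH f) (f (C Polynomial.X)) (X i) = f (X i)
    rw [upH_X, dnH_apply, MvPolynomial.map_X]

/-- the values of a polynomial on the zeros of a system -/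
noncomputable def valZ {T : Type} [CommRing T] [Algebra k T] {κ : Type}
    (E : Set (MvPolynomial κ T)) (a : MvPolynomial κ T) : Coord (ZfT k E) where
  val x := eval₂ (x.1.1 : T →+* _) x.1.2 a
  nat f x := MvPolynomial.eval₂_comp_left f.toRingHom x.1.1.toRingHom x.1.2 a

/-- the value of the equation -/
noncomputable def ve {R : Type} [CommRing R] [Algebra k R] (g : MvPolynomial (Fin N) T →ₐ[k] R)
    (z : (Σ j, σ j) → R) (q : MvPolynomial (Fin N) T) (c : Fin s → T)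
    (F : ∀ j, MvPolynomial (σ j) k) : R := eval₂ (g : MvPolynomial (Fin N) T →+* R) z (Eqn q c F)

theorem ve_zero {R : Type} [CommRing R] [Algebra k R] (g : MvPolynomial (Fin N) T →ₐ[k] R)
    (z : (Σ j, σ j) → R) (F : ∀ j, MvPolynomial (σ j) k) : ve g z 0 0 F = 0 := by
  rw [ve, eval_eqn, map_zero, zero_add]
  refine Finset.sum_eq_zero fun j _ => ?_
  rw [Pi.zero_apply, MvPolynomial.C_0, map_zero, zero_mul]

/-- the equation with coefficients in `T[t]` -/
noncomputable def E1t (q₁ q₂ : MvPolynomial (Fin N) T) : MvPolynomial (Fin N) (Polynomial T) :=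
  MvPolynomial.map Polynomial.C q₁ + C Polynomial.X * MvPolynomial.map Polynomial.C q₂

theorem ve_up {R : Type} [CommRing R] [Algebra k R]
    (f : MvPolynomial (Fin N) (Polynomial T) →ₐ[k] R) (z : (Σ j, σ j) → R)
    (q : MvPolynomial (Fin N) T) (c : Fin s → T) (F : ∀ j, MvPolynomial (σ j) k) :
    ve f z (map Polynomial.C q) (fun j => Polynomial.C (c j)) F = ve (dnH f) z q c F := by
  rw [ve, ve, eval_eqn, eval_eqn]
  congr 1
  refine Finset.sum_congr rfl fun j _ => ?_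
  rw [dnH_apply, MvPolynomial.map_C]

theorem ve_t {R : Type} [CommRing R] [Algebra k R]
    (f : MvPolynomial (Fin N) (Polynomial T) →ₐ[k] R) (z : (Σ j, σ j) → R)
    (q₁ q₂ : MvPolynomial (Fin N) T) (c₁ c₂ : Fin s → T) (F : ∀ j, MvPolynomial (σ j) k) :
    ve f z (E1t q₁ q₂) (fun j => Polynomial.C (c₁ j) + Polynomial.X * Polynomial.C (c₂ j)) F =
      ve (dnH f) z q₁ c₁ F + f (C Polynomial.X) * ve (dnH f) z q₂ c₂ F := by
  rw [ve, ve, ve, eval_eqn, eval_eqn, eval_eqn, E1t, map_add, map_mul, mul_add, Finset.mul_sum,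
    dnH_apply, dnH_apply]
  have h1 : ∀ j, f (C (Polynomial.C (c₁ j) + Polynomial.X * Polynomial.C (c₂ j))) *
      aeval (fun a => z ⟨j, a⟩) (F j) = dnH f (C (c₁ j)) * aeval (fun a => z ⟨j, a⟩) (F j) +
      f (C Polynomial.X) * (dnH f (C (c₂ j)) * aeval (fun a => z ⟨j, a⟩) (F j)) := by
    intro j
    rw [dnH_apply, dnH_apply, MvPolynomial.map_C, MvPolynomial.map_C, MvPolynomial.C_add,
      MvPolynomial.C_mul, map_add, map_mul]
    ring
  rw [Finset.sum_congr rfl fun j _ => h1 j, Finset.sum_add_distrib]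
  ring

/-- the system over `T` -/
noncomputable abbrev ZE (k : Type) [Field k] {T : Type} [CommRing T] [Algebra k T] {N s : ℕ}
    {σ : Fin s → Type} (F : ∀ j, MvPolynomial (σ j) k) (q : MvPolynomial (Fin N) T)
    (c : Fin s → T) : KFn k := ZfT k ({Eqn q c F} : Set (MvPolynomial (Σ j, σ j)
      (MvPolynomial (Fin N) T)))

theorem ze_eq {F : ∀ j, MvPolynomial (σ j) k} {q : MvPolynomial (Fin N) T} {c : Fin s → T}
    {R : Type} [CommRing R] [Algebra k R] (x : (ZE k F q c).obj R) :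
    ve x.1.1 x.1.2 q c F = 0 := x.2 _ (Set.mem_singleton _)

theorem ze_mk {F : ∀ j, MvPolynomial (σ j) k} {q : MvPolynomial (Fin N) T} {c : Fin s → T}
    {R : Type} [CommRing R] [Algebra k R] {g : MvPolynomial (Fin N) T →ₐ[k] R}
    {z : (Σ j, σ j) → R} (h : ve g z q c F = 0) :
    ∀ a ∈ ({Eqn q c F} : Set (MvPolynomial (Σ j, σ j) (MvPolynomial (Fin N) T))),
      eval₂ (g : MvPolynomial (Fin N) T →+* R) z a = 0 := by
  intro a ha
  rw [Set.mem_singleton_iff.1 ha]
  exact h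

/-- the open part -/
noncomputable def isoA (F : ∀ j, MvPolynomial (σ j) k) (q₁ q₂ : MvPolynomial (Fin N) T)
    (c₁ c₂ : Fin s → T) :
    Iso ((ZE k F (E1t q₁ q₂) fun j => Polynomial.C (c₁ j) + Polynomial.X *
        Polynomial.C (c₂ j)).opn (valZ _ (Eqn (MvPolynomial.map Polynomial.C q₂)
          (fun j => Polynomial.C (c₂ j)) F)))
      ((ZE k F (0 : MvPolynomial (Fin N) T) 0).opn (valZ _ (Eqn q₂ c₂ F))) where
  hom {R} _ _ x := ⟨⟨(dnH x.1.1.1, x.1.1.2), ze_mk (ve_zero _ _ F)⟩,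
    (congrArg IsUnit (ve_up x.1.1.1 x.1.1.2 q₂ c₂ F)).mp x.2⟩
  inv {R} _ _ y := ⟨⟨(upH y.1.1.1 (-(Ring.inverse (ve y.1.1.1 y.1.1.2 q₂ c₂ F) *
      ve y.1.1.1 y.1.1.2 q₁ c₁ F)), y.1.1.2), ze_mk (by
    have h3 : IsUnit (ve y.1.1.1 y.1.1.2 q₂ c₂ F) := y.2
    have h4 := Ring.mul_inverse_cancel _ h3
    rw [ve_t, dn_up, upH_t]
    linear_combination (-(ve y.1.1.1 y.1.1.2 q₁ c₁ F)) * h4)⟩, by
    have h3 : IsUnit (ve y.1.1.1 y.1.1.2 q₂ c₂ F) := y.2
    refine (congrArg IsUnit (ve_up _ y.1.1.2 q₂ c₂ F)).mpr ?_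
    rw [dn_up]
    exact h3⟩
  inv_hom {R} _ _ x := by
    have h1 := ze_eq x.1
    have h3 : IsUnit (ve (dnH x.1.1.1) x.1.1.2 q₂ c₂ F) :=
      (congrArg IsUnit (ve_up x.1.1.1 x.1.1.2 q₂ c₂ F)).mp x.2
    have h4 := Ring.mul_inverse_cancel _ h3
    rw [ve_t] at h1
    apply Subtype.ext
    apply Subtype.ext
    refine Prod.ext ?_ rfl
    have h5 : -(Ring.inverse (ve (dnH x.1.1.1) x.1.1.2 q₂ c₂ F) *
        ve (dnH x.1.1.1) x.1.1.2 q₁ c₁ F) = x.1.1.1 (C Polynomial.X) := by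
      linear_combination (-Ring.inverse (ve (dnH x.1.1.1) x.1.1.2 q₂ c₂ F)) * h1 +
        x.1.1.1 (C Polynomial.X) * h4
    change upH (dnH x.1.1.1) (-(Ring.inverse (ve (dnH x.1.1.1) x.1.1.2 q₂ c₂ F) *
        ve (dnH x.1.1.1) x.1.1.2 q₁ c₁ F)) = x.1.1.1
    rw [h5]
    exact up_dn x.1.1.1
  hom_inv {R} _ _ y := by
    apply Subtype.ext
    apply Subtype.ext
    exact Prod.ext (dn_up _ _) rfl
  nat _ _ := rfl

/-- the closed part -/
noncomputable def isoB (F : ∀ j, MvPolynomial (σ j) k) (q₁ q₂ : MvPolynomial (Fin N) T)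
    (c₁ c₂ : Fin s → T) :
    Iso ((ZE k F (E1t q₁ q₂) fun j => Polynomial.C (c₁ j) + Polynomial.X *
        Polynomial.C (c₂ j)).cls (valZ _ (Eqn (MvPolynomial.map Polynomial.C q₂)
          (fun j => Polynomial.C (c₂ j)) F)))
      (ZfT k ({Eqn q₁ c₁ F, Eqn q₂ c₂ F} : Set (MvPolynomial (Σ j, σ j)
        (MvPolynomial (Fin N) T)))).line where
  hom {R} _ _ x := (⟨(dnH x.1.1.1, x.1.1.2), by
    have h1 := ze_eq x.1
    have h2 : ve (dnH x.1.1.1) x.1.1.2 q₂ c₂ F = 0 :=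
      (ve_up x.1.1.1 x.1.1.2 q₂ c₂ F).symm.trans x.2
    rw [ve_t, h2, mul_zero, add_zero] at h1
    rintro a (rfl | ha)
    · exact h1
    · rw [Set.mem_singleton_iff.1 ha]
      exact h2⟩, x.1.1.1 (C Polynomial.X))
  inv {R} _ _ y := ⟨⟨(upH y.1.1.1 y.2, y.1.1.2), ze_mk (by
    have h1 : ve y.1.1.1 y.1.1.2 q₁ c₁ F = 0 := y.1.2 _ (Or.inl rfl)
    have h2 : ve y.1.1.1 y.1.1.2 q₂ c₂ F = 0 := y.1.2 _ (Or.inr rfl)
    rw [ve_t, dn_up, h1, h2, mul_zero, add_zero])⟩, by
    have h2 : ve y.1.1.1 y.1.1.2 q₂ c₂ F = 0 := y.1.2 _ (Or.inr rfl)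
    refine (ve_up _ y.1.1.2 q₂ c₂ F).trans ?_
    rw [dn_up]
    exact h2⟩
  inv_hom {R} _ _ x := by
    apply Subtype.ext
    apply Subtype.ext
    exact Prod.ext (up_dn x.1.1.1) rfl
  hom_inv {R} _ _ y := by
    refine Prod.ext ?_ (upH_t _ _)
    apply Subtype.ext
    exact Prod.ext (dn_up _ _) rfl
  nat _ _ := rfl

/-- the closed part of the space -/
noncomputable def isoC (F : ∀ j, MvPolynomial (σ j) k) (q₂ : MvPolynomial (Fin N) T)
    (c₂ : Fin s → T) :
    Iso ((ZE k F (0 : MvPolynomial (Fin N) T) 0).cls (valZ _ (Eqn q₂ c₂ F))) (ZE k F q₂ c₂) where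
  hom {R} _ _ x := ⟨x.1.1, ze_mk (g := x.1.1.1) (z := x.1.1.2) x.2⟩
  inv {R} _ _ y := ⟨⟨y.1, ze_mk (g := y.1.1) (z := y.1.2) (ve_zero y.1.1 y.1.2 F)⟩, ze_eq y⟩
  inv_hom _ := rfl
  hom_inv {R} _ _ y := by
    obtain ⟨⟨a, b⟩, hy⟩ := y
    rfl
  nat _ _ := rfl

theorem ft_mv (hT : Algebra.FiniteType k T) (N : ℕ) :
    Algebra.FiniteType k (MvPolynomial (Fin N) T) :=
  hT.trans (inferInstance : Algebra.FiniteType T (MvPolynomial (Fin N) T))

theorem mem_ze [Finite k] [CharP k p] (hp : p.Prime) (hp2 : p ≠ 2 ∨ N = 0) (hP : FormalClass p P)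
    (hT : Algebra.FiniteType k T) (hdim : ringKrullDim T ≤ 1) (q : MvPolynomial (Fin N) T)
    (hq : q.totalDegree ≤ 2) (c : Fin s → T) [∀ j, Fintype (σ j)]
    {F : ∀ j, MvPolynomial (σ j) k} {d : Fin s → ℕ}
    (hF : ∀ j, Pool.Agent.Helper67.CQ.GoodD P (F j) (d j)) : (ZE k F q c).Mem (Pk P k) :=
  mem_ZfT hP (CharP.cast_eq_zero k p) (quad_forms hp hp2 hP hT hdim q hq c hF)

/-- **Two equations.** -/
theorem two_quad [Finite k] [CharP k p] (hp : p.Prime) (hp2 : p ≠ 2 ∨ N = 0)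
    (hP : StableClass p P) (hT : Algebra.FiniteType k T) (hdim : ringKrullDim T ≤ 0)
    (q₁ q₂ : MvPolynomial (Fin N) T) (hq₁ : q₁.totalDegree ≤ 2) (hq₂ : q₂.totalDegree ≤ 2)
    (c₁ c₂ : Fin s → T) [∀ j, Fintype (σ j)] {F : ∀ j, MvPolynomial (σ j) k} {d : Fin s → ℕ}
    (hF : ∀ j, Pool.Agent.Helper67.CQ.GoodD P (F j) (d j)) :
    P (MvPolynomial (Σ j, σ j) (MvPolynomial (Fin N) T) ⧸
      Ideal.span {Eqn q₁ c₁ F, Eqn q₂ c₂ F}) := by
  have hk : (p : k) = 0 := CharP.cast_eq_zero k p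
  have hG := kops hP.toFormalClass hk
  have hnoeth : IsNoetherianRing T := Algebra.FiniteType.isNoetherianRing k T
  have hTX : Algebra.FiniteType k (Polynomial T) :=
    hT.trans (inferInstance : Algebra.FiniteType T (Polynomial T))
  have hdX : ringKrullDim (Polynomial T) ≤ 1 := by
    rw [Polynomial.ringKrullDim_of_isNoetherianRing]
    calc ringKrullDim T + 1 ≤ 0 + 1 := by gcongr
      _ = 1 := zero_add 1
  have h01 : ringKrullDim T ≤ 1 := hdim.trans zero_le_one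
  have hdeg : (E1t q₁ q₂).totalDegree ≤ 2 := by
    refine (MvPolynomial.totalDegree_add _ _).trans (max_le ((deg_map _ _).trans hq₁) ?_)
    refine (MvPolynomial.totalDegree_mul _ _).trans ?_
    rw [MvPolynomial.totalDegree_C, zero_add]
    exact (deg_map _ _).trans hq₂
  have h0 : (ZE k F (0 : MvPolynomial (Fin N) T) 0).Mem (Pk P k) :=
    mem_ze hp hp2 hP.toFormalClass hT h01 _ (by rw [MvPolynomial.totalDegree_zero]; omega) _ hF
  have h2 : (ZE k F q₂ c₂).Mem (Pk P k) :=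
    mem_ze hp hp2 hP.toFormalClass hT h01 _ hq₂ _ hF
  have hH := mem_ze hp hp2 hP.toFormalClass hTX hdX (E1t q₁ q₂) hdeg
    (fun j => Polynomial.C (c₁ j) + Polynomial.X * Polynomial.C (c₂ j)) hF
  have hr0 : Rp (ZE k F (0 : MvPolynomial (Fin N) T) 0) := rp_ZfT (ft_mv hT N) _
  have hrH : Rp (ZE k F (E1t q₁ q₂) fun j => Polynomial.C (c₁ j) + Polynomial.X *
        Polynomial.C (c₂ j)) := rp_ZfT (ft_mv hTX N) _
  have hopn : ((ZE k F (0 : MvPolynomial (Fin N) T) 0).opn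
      (valZ _ (Eqn q₂ c₂ F))).Mem (Pk P k) := by
    exact mem_opn hG _ h0 (Mem.of_iso (isoC F q₂ c₂) h2)
  have hcls := mem_cls hG _ hH (Mem.of_iso (isoA F q₁ q₂ c₁ c₂) hopn)
  exact of_mem_ZfT (ft_mv hT N) (mem_unline hP (Mem.of_iso (isoB F q₁ q₂ c₁ c₂).symm hcls))

end Pool.Agent.Helper29.PF
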