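import Pool.Agent.Helper29.PF.Zf

/-!
# Classes with the cancellation of affine lines
-/

set_option autoImplicit false

namespace Pool.Agent.Helper29.PF

open Pool.Agent.Helper29.CQ Pool.Agent.Helper65.CC Pool.Agent.Helper87.CC
open Pool.Agent.Helper65.CC.KFn

/-- Formal classes such that `A` belongs to the class if the polynomial ring `A[x]` does (the
motive with compact support of `Spec A[x]` is the Tate twist of the motive of `Spec A`). -/
structure StableClass (p : ℕ) (P : ∀ (A : Type) [CommRing A], Prop) : Prop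
    extends FormalClass p P where
  /-- cancellation of affine lines -/
  line : ∀ (A : Type) [CommRing A], P (Polynomial A) → P A

variable {p : ℕ} {P : ∀ (A : Type) [CommRing A], Prop} {k : Type} [Field k]

theorem mem_unline (hP : StableClass p P) {F : KFn k}
    (h : F.line.Mem (Pk P k)) : F.Mem (Pk P k) := by
  intro A _ _ a hA ha
  obtain ⟨b, hb⟩ := ha.line
  exact hP.line A (h _ b (ft_poly hA) hb)

/-! ### Products with affine spaces -/

/-- the product with an affine space -/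
def pw (F : KFn k) (q : ℕ) : KFn k where
  obj R _ _ := F.obj R × (Fin q → R)
  map f x := (F.map f x.1, fun i => f (x.2 i))
  id_map x := Prod.ext (F.id_map x.1) rfl
  comp_map f g x := Prod.ext (F.comp_map f g x.1) rfl

/-- no new variables -/
def pwZero (F : KFn k) : Iso (pw F 0) F where
  hom x := x.1
  inv x := (x, Fin.elim0)
  inv_hom _ := Prod.ext rfl (funext fun i => i.elim0)
  hom_inv _ := rfl
  nat _ _ := rfl

/-- one more variable -/
def pwSucc (F : KFn k) (q : ℕ) : Iso (pw F (q + 1)) (pw F q).line where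
  hom x := ((x.1, Fin.tail x.2), x.2 0)
  inv y := (y.1.1, Fin.cons y.2 y.1.2)
  inv_hom x := Prod.ext rfl (Fin.cons_self_tail x.2)
  hom_inv _ := rfl
  nat _ _ := rfl

instance rp_pw (F : KFn k) [Rp F] (q : ℕ) : Rp (pw F q) := by
  induction q with
  | zero => exact Rp.iso (pwZero F).symm
  | succ q ih => exact Rp.iso (pwSucc F q).symm

theorem mem_pw [Finite k] (hP : FormalClass p P) (hk : (p : k) = 0) {F : KFn k}
    (h : F.Mem (Pk P k)) (q : ℕ) : (pw F q).Mem (Pk P k) := by
  induction q with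
  | zero => exact Mem.of_iso (pwZero F) h
  | succ q ih => exact Mem.of_iso (pwSucc F q) (Mem.line (kops hP hk) ih)

/-! ### Systems of linear equations over a functor -/

/-- the zeros of the first coordinates -/
def Ys (F : KFn k) (a : ℕ → Coord F) (r : ℕ) : KFn k :=
  F.sub (fun x => ∀ m < r, (a m).val x = 0) fun f x h m hm => by rw [← (a m).nat, h m hm, map_zero]

/-- the coordinates restrict to the zeros -/
def ry {F : KFn k} {a : ℕ → Coord F} {r : ℕ} (b : Coord F) : Coord (Ys F a r) where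
  val x := b.val x.1
  nat f x := b.nat f x.1

/-- no equations -/
def ysZero (F : KFn k) (a : ℕ → Coord F) : Iso (Ys F a 0) F where
  hom x := x.1
  inv x := ⟨x, fun _ hm => absurd hm (Nat.not_lt_zero _)⟩
  inv_hom _ := rfl
  hom_inv _ := rfl
  nat _ _ := rfl

/-- one more equation -/
def ysSucc (F : KFn k) (a : ℕ → Coord F) (r : ℕ) :
    Iso (Ys F a (r + 1)) ((Ys F a r).cls (ry (a r))) where
  hom x := ⟨⟨x.1, fun m hm => x.2 m (Nat.lt_succ_of_lt hm)⟩, x.2 r (Nat.lt_succ_self r)⟩
  inv y := ⟨y.1.1, fun m hm => by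
    rcases Nat.lt_succ_iff_lt_or_eq.1 hm with h | rfl
    · exact y.1.2 m h
    · exact y.2⟩
  inv_hom _ := rfl
  hom_inv _ := rfl
  nat _ _ := rfl

instance rp_ys (F : KFn k) [Rp F] (a : ℕ → Coord F) (r : ℕ) : Rp (Ys F a r) := by
  induction r with
  | zero => exact Rp.iso (ysZero F a).symm
  | succ r ih => exact Rp.iso (ysSucc F a r).symm

/-- the linear equation -/
def linC {F : KFn k} (b : Coord F) (a : ℕ → Coord F) (q r : ℕ) : Coord (pw (Ys F a r) q) where
  val x := b.val x.1.1 + ∑ i : Fin q, x.2 i * (a (r + i)).val x.1.1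
  nat f x := by
    rw [map_add, map_sum, b.nat]
    congr 1
    refine Finset.sum_congr rfl fun i _ => ?_
    rw [map_mul, (a (r + i)).nat]
    rfl

/-- the incidence variety -/
def Wf {F : KFn k} (b : Coord F) (a : ℕ → Coord F) (q r : ℕ) : KFn k :=
  (pw (Ys F a r) q).cls (linC b a q r)

instance {F : KFn k} [Rp F] (b : Coord F) (a : ℕ → Coord F) (q r : ℕ) : Rp (Wf b a q r) := by
  unfold Wf
  infer_instance

/-- no unknowns -/
def wfZero {F : KFn k} (b : Coord F) (a : ℕ → Coord F) (r : ℕ) :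
    Iso ((Ys F a r).cls (ry b)) (Wf b a 0 r) where
  hom x := ⟨(x.1, Fin.elim0), by
    have h : b.val x.1.1 = 0 := x.2
    change b.val x.1.1 + ∑ i : Fin 0, _ = 0
    rw [Finset.univ_eq_empty, Finset.sum_empty, add_zero, h]⟩
  inv y := ⟨y.1.1, by
    have h : b.val y.1.1.1 + ∑ i : Fin 0, y.1.2 i * (a (r + i)).val y.1.1.1 = 0 := y.2
    rw [Finset.univ_eq_empty, Finset.sum_empty, add_zero] at h
    exact h⟩
  inv_hom _ := rfl
  hom_inv y := Subtype.ext (Prod.ext rfl (funext fun i => i.elim0))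
  nat f x := Subtype.ext (Prod.ext rfl (funext fun i => i.elim0))

/-- the first coordinate on the incidence variety -/
def rw0 {F : KFn k} (b : Coord F) (a : ℕ → Coord F) (q r : ℕ) : Coord (Wf b a q r) where
  val x := (a r).val x.1.1.1
  nat f x := (a r).nat f x.1.1.1

theorem lin_succ {F : KFn k} (b : Coord F) (a : ℕ → Coord F) (q r : ℕ) {R : Type} [CommRing R]
    [Algebra k R] (x : F.obj R) (e : Fin (q + 1) → R) :
    b.val x + ∑ i : Fin (q + 1), e i * (a (r + i)).val x =
      (b.val x + ∑ i : Fin q, Fin.tail e i * (a (r + 1 + i)).val x) + e 0 * (a r).val x := by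
  rw [Fin.sum_univ_succ]
  have h : ∀ i : Fin q, e i.succ * (a (r + (i.succ : ℕ))).val x =
      Fin.tail e i * (a (r + 1 + i)).val x := by
    intro i
    have h1 : r + (i.succ : ℕ) = r + 1 + i := by
      rw [Fin.val_succ]
      omega
    rw [h1]
    rfl
  rw [Finset.sum_congr rfl fun i _ => h i]
  have h2 : (a (r + ((0 : Fin (q + 1)) : ℕ))).val x = (a r).val x := rfl
  rw [h2]
  ring

/-- the first coordinate is a unit: solve the equation -/
noncomputable def wfOpn {F : KFn k} (b : Coord F) (a : ℕ → Coord F) (q r : ℕ) :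
    Iso ((Wf b a (q + 1) r).opn (rw0 b a (q + 1) r)) (pw ((Ys F a r).opn (ry (a r))) q) where
  hom x := (⟨x.1.1.1, x.2⟩, Fin.tail x.1.1.2)
  inv y := ⟨⟨(y.1.1, Fin.cons (-(Ring.inverse ((a r).val y.1.1.1) * (b.val y.1.1.1 +
      ∑ i : Fin q, y.2 i * (a (r + 1 + i)).val y.1.1.1))) y.2), by
    have h : IsUnit ((a r).val y.1.1.1) := y.1.2
    have h1 := Ring.inverse_mul_cancel _ h
    refine (lin_succ b a q r y.1.1.1 _).trans ?_
    change (b.val y.1.1.1 + ∑ i : Fin q, y.2 i * (a (r + 1 + i)).val y.1.1.1) +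
      -(Ring.inverse ((a r).val y.1.1.1) * (b.val y.1.1.1 +
        ∑ i : Fin q, y.2 i * (a (r + 1 + i)).val y.1.1.1)) * (a r).val y.1.1.1 = 0
    linear_combination (-(b.val y.1.1.1 + ∑ i : Fin q, y.2 i * (a (r + 1 + i)).val y.1.1.1)) * h1⟩,
      y.1.2⟩
  inv_hom x := by
    apply Subtype.ext
    apply Subtype.ext
    refine Prod.ext rfl ?_
    have h : IsUnit ((a r).val x.1.1.1.1) := x.2
    have h1 := Ring.inverse_mul_cancel _ h
    have h2 := (lin_succ b a q r x.1.1.1.1 x.1.1.2).symm.trans x.1.2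
    funext i
    refine Fin.cases ?_ (fun j => rfl) i
    change -(Ring.inverse ((a r).val x.1.1.1.1) * (b.val x.1.1.1.1 +
      ∑ i : Fin q, Fin.tail x.1.1.2 i * (a (r + 1 + i)).val x.1.1.1.1)) = x.1.1.2 0
    linear_combination (-Ring.inverse ((a r).val x.1.1.1.1)) * h2 + x.1.1.2 0 * h1
  hom_inv _ := rfl
  nat _ _ := rfl

/-- the first coordinate vanishes -/
def wfCls {F : KFn k} (b : Coord F) (a : ℕ → Coord F) (q r : ℕ) :
    Iso (Wf b a q (r + 1)).line ((Wf b a (q + 1) r).cls (rw0 b a (q + 1) r)) where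
  hom x := ⟨⟨(⟨x.1.1.1.1, fun m hm => x.1.1.1.2 m (Nat.lt_succ_of_lt hm)⟩,
      Fin.cons x.2 x.1.1.2), by
    have h1 : b.val x.1.1.1.1 + ∑ i : Fin q, x.1.1.2 i * (a (r + 1 + i)).val x.1.1.1.1 = 0 := x.1.2
    have h2 : (a r).val x.1.1.1.1 = 0 := x.1.1.1.2 r (Nat.lt_succ_self r)
    refine (lin_succ b a q r x.1.1.1.1 _).trans ?_
    change (b.val x.1.1.1.1 + ∑ i : Fin q, x.1.1.2 i * (a (r + 1 + i)).val x.1.1.1.1) +
      x.2 * (a r).val x.1.1.1.1 = 0
    linear_combination h1 + x.2 * h2⟩,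
      x.1.1.1.2 r (Nat.lt_succ_self r)⟩
  inv y := (⟨(⟨y.1.1.1.1, fun m hm => by
    rcases Nat.lt_succ_iff_lt_or_eq.1 hm with h | rfl
    · exact y.1.1.1.2 m h
    · exact y.2⟩, Fin.tail y.1.1.2), by
    have h1 := (lin_succ b a q r y.1.1.1.1 y.1.1.2).symm.trans y.1.2
    have h2 : (a r).val y.1.1.1.1 = 0 := y.2
    rw [h2, mul_zero, add_zero] at h1
    exact h1⟩, y.1.1.2 0)
  inv_hom x := rfl
  hom_inv y := Subtype.ext (Subtype.ext (Prod.ext rfl (Fin.cons_self_tail _)))
  nat f x := by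
    apply Subtype.ext
    apply Subtype.ext
    refine Prod.ext rfl ?_
    funext i
    exact Fin.cases rfl (fun _ => rfl) i

/-- **the strata of the incidence variety** -/
theorem strata [Finite k] (hP : StableClass p P) (hk : (p : k) = 0) {F : KFn k} [Rp F]
    (b : Coord F) (a : ℕ → Coord F) (q : ℕ) : ∀ r : ℕ,
      (∀ r' ≤ r + q, (Ys F a r').Mem (Pk P k)) → (Wf b a q r).Mem (Pk P k) →
      ((Ys F a (r + q)).cls (ry b)).Mem (Pk P k) := by
  induction q with
  | zero => exact fun r _ h => Mem.of_iso (wfZero b a r) h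
  | succ q ih =>
    intro r h1 h2
    have hG := kops hP.toFormalClass hk
    have h3 : ((Ys F a r).opn (ry (a r))).Mem (Pk P k) :=
      mem_opn hG _ (h1 r (Nat.le_add_right _ _))
        (Mem.of_iso (ysSucc F a r).symm (h1 (r + 1) (by omega)))
    have h4 : ((Wf b a (q + 1) r).opn (rw0 b a (q + 1) r)).Mem (Pk P k) :=
      Mem.of_iso (wfOpn b a q r) (mem_pw hP.toFormalClass hk h3 q)
    have h5 := mem_unline hP (Mem.of_iso (wfCls b a q r) (mem_cls hG _ h2 h4))
    have h6 := ih (r + 1) (fun r' hr => h1 r' (by omega)) h5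
    have h7 : r + (q + 1) = r + 1 + q := by omega
    rw [h7]
    exact h6

end Pool.Agent.Helper29.PF
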