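import Pool.Agent.Helper29.PF.Unord
import Pool.Agent.Helper29.PF.Modes

/-!
# Systems of equations with affinely independent exponents and coefficients on a rational normal
curve
-/

set_option autoImplicit false

namespace Pool.Agent.Helper29.PF

open Pool.Agent.Helper29.CQ Pool.Agent.Helper65.CC Pool.Agent.Helper87.CC
open Pool.Agent.Helper65.CC.KFn
open MvPolynomial (aeval C X monomial)

variable {p : ℕ} {P : ∀ (A : Type) [CommRing A], Prop} {k : Type} [Field k]
variable {J : Type} [Fintype J] {m : ℕ} (α : J → Fin m → ℕ) (t s : J → k)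

/-- the affine space -/
abbrev Af (k : Type) [Field k] (m : ℕ) : KFn k := Zf (∅ : Set (MvPolynomial (Fin m) k))

/-- the terms -/
noncomputable def tm (c : J → k) : J → Coord (Af k m) := fun j =>
  { val := fun {R} _ _ x => algebraMap k R (c j) * ∏ i, x.1 i ^ α j i
    nat := fun f x => by
      rw [map_mul, f.commutes, map_prod]
      congr 1
      refine Finset.prod_congr rfl fun i _ => ?_
      rw [map_pow]
      rfl }

/-- the equations -/
noncomputable def eqC (c : J → k) (n : ℕ) : ℕ → Coord (Af k m) := fun i =>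
  { val := fun {R} _ _ x => ∑ j, algebraMap k R (c j * t j ^ i * s j ^ (n - i)) *
      ∏ l, x.1 l ^ α j l
    nat := fun f x => by
      rw [map_sum]
      refine Finset.sum_congr rfl fun j _ => ?_
      rw [map_mul, f.commutes, map_prod]
      congr 1
      refine Finset.prod_congr rfl fun i _ => ?_
      rw [map_pow]
      rfl }

/-- the incidence variety is the variety with unordered parameters -/
noncomputable def wfUn (c : J → k) (n : ℕ) :
    Iso (Wf (eqC α t s c n n) (eqC α t s c n) n 0) (Un t s (tm α c) n) :=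
  have key : ∀ {R : Type} [CommRing R] [Algebra k R] (x : (Af k m).obj R) (e : Fin n → R),
      (∑ j, (tm α c j).val x * pol n e (algebraMap k R (t j)) (algebraMap k R (s j))) =
        (eqC α t s c n n).val x + ∑ i : Fin n, e i * (eqC α t s c n (0 + i)).val x := by
    intro R _ _ x e
    have h1 : ∀ i : Fin n, e i * (eqC α t s c n (0 + i)).val x = ∑ j, e i *
        (algebraMap k R (c j * t j ^ (i : ℕ) * s j ^ (n - i)) * ∏ l, x.1 l ^ α j l) := by
      intro i
      rw [zero_add, ← Finset.mul_sum]
      rfl
    have h2 : (eqC α t s c n n).val x = ∑ j, algebraMap k R (c j * t j ^ n * s j ^ (n - n)) *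
      ∏ l, x.1 l ^ α j l := rfl
    rw [Finset.sum_congr rfl fun i _ => h1 i, h2, Finset.sum_comm, ← Finset.sum_add_distrib]
    refine Finset.sum_congr rfl fun j _ => ?_
    rw [pol]
    change algebraMap k R (c j) * (∏ l, x.1 l ^ α j l) * _ = _
    rw [mul_add, Finset.mul_sum, Nat.sub_self, pow_zero, mul_one, map_mul, map_pow]
    congr 1
    · ring
    · refine Finset.sum_congr rfl fun i _ => ?_
      rw [map_mul, map_mul, map_pow, map_pow]
      ring
  { hom := fun x => ⟨(x.1.1.1, x.1.2), (key x.1.1.1 x.1.2).trans x.2⟩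
    inv := fun x => ⟨(⟨x.1.1, fun _ h => absurd h (Nat.not_lt_zero _)⟩, x.1.2),
      (key x.1.1 x.1.2).symm.trans x.2⟩
    inv_hom := fun _ => rfl
    hom_inv := fun _ => rfl
    nat := fun _ _ => rfl }

/-- fewer equations -/
noncomputable def ysLower (c : J → k) (n r : ℕ) (hr : r ≤ n) :
    Iso (Ys (Af k m) (eqC α t s c n) (r + 1))
      (Ys (Af k m) (eqC α t s (fun j => c j * s j ^ (n - r)) r) (r + 1)) :=
  have key : ∀ {R : Type} [CommRing R] [Algebra k R] (x : (Af k m).obj R) (i : ℕ), i < r + 1 →
      (eqC α t s c n i).val x = (eqC α t s (fun j => c j * s j ^ (n - r)) r i).val x := by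
    intro R _ _ x i hi
    refine Finset.sum_congr rfl fun j _ => ?_
    congr 2
    have h1 : n - i = (n - r) + (r - i) := by omega
    rw [h1, pow_add]
    ring
  { hom := fun x => ⟨x.1, fun i hi => (key x.1 i hi).symm.trans (x.2 i hi)⟩
    inv := fun x => ⟨x.1, fun i hi => (key x.1 i hi).trans (x.2 i hi)⟩
    inv_hom := fun _ => rfl
    hom_inv := fun _ => rfl
    nat := fun _ _ => rfl }

/-- the affine space is a member -/
theorem mem_af [Finite k] (hP : FormalClass p P) (hk : (p : k) = 0) : (Af k m).Mem (Pk P k) := by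
  have h1 : Algebra.FiniteType ℤ k := by
    have : Module.Finite ℤ k := Module.Finite.of_finite
    infer_instance
  have h0 : (Zf (∅ : Set (MvPolynomial (Fin 0) k))).Mem (Pk P k) := by
    apply mem_Zf hP hk
    refine hP.curve _ ?_ (char0 hk) ?_
    · exact ftZ ((inferInstance : Algebra.FiniteType k (MvPolynomial (Fin 0) k)).of_surjective
        (Ideal.Quotient.mkₐ k _) (Ideal.Quotient.mkₐ_surjective k _))
    · refine (ringKrullDim_le_of_surjective (Ideal.Quotient.mk _)
        Ideal.Quotient.mk_surjective).trans ?_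
      rw [MvPolynomial.ringKrullDim_of_isNoetherianRing, ringKrullDim_eq_zero_of_field]
      simp
  refine Mem.of_iso (F' := pw (Zf (∅ : Set (MvPolynomial (Fin 0) k))) m) ?_ (mem_pw hP hk h0 m)
  exact
    { hom := fun x => (⟨Fin.elim0, fun _ h => absurd h (Set.notMem_empty _)⟩, x.1)
      inv := fun x => ⟨x.2, fun _ h => absurd h (Set.notMem_empty _)⟩
      inv_hom := fun _ => rfl
      hom_inv := fun x => Prod.ext (Subtype.ext (funext fun i => i.elim0)) rfl
      nat := fun f x => Prod.ext (Subtype.ext (funext fun i => i.elim0)) rfl }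

/-- the equation with ordered parameters -/
noncomputable def parE (c : J → k) (n : ℕ) : MvPolynomial (Fin n ⊕ Fin m) k :=
  ∑ j, C (c j) * (∏ i : Fin n, (C (t j) - C (s j) * X (Sum.inl i))) *
    ∏ i, X (Sum.inr i) ^ α j i

/-- the equation with ordered parameters -/
theorem mem_or [Finite k] (hP : FormalClass p P) (hk : (p : k) = 0) (c : J → k) (n : ℕ)
    (h : P (MvPolynomial (Fin n ⊕ Fin m) k ⧸ Ideal.span {parE α t s c n})) :
    (Or t s (tm α c) n).Mem (Pk P k) := by
  refine Mem.of_iso ?_ (mem_Zf hP hk h)
  have key : ∀ {R : Type} [CommRing R] [Algebra k R] (x : Fin m → R) (l : Fin n → R),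
      aeval (Sum.elim l x) (parE α t s c n) = ∑ j, algebraMap k R (c j) * (∏ i, x i ^ α j i) *
          ∏ a : Fin n, (algebraMap k R (t j) - l a * algebraMap k R (s j)) := by
    intro R _ _ x l
    rw [parE, map_sum]
    refine Finset.sum_congr rfl fun j _ => ?_
    simp only [map_mul, map_prod, map_sub, map_pow, MvPolynomial.aeval_X, MvPolynomial.aeval_C,
      Sum.elim_inl, Sum.elim_inr]
    rw [mul_right_comm]
    congr 1
    refine Finset.prod_congr rfl fun a _ => ?_
    rw [mul_comm (l a)]
  exact
    { hom := fun x => ⟨Sum.elim x.1.2 x.1.1.1, by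
        intro q hq
        rw [Set.mem_singleton_iff.1 hq]
        exact (key x.1.1.1 x.1.2).trans x.2⟩
      inv := fun y => ⟨(⟨fun i => y.1 (.inr i), fun _ h => absurd h (Set.notMem_empty _)⟩,
        fun i => y.1 (.inl i)), by
          have h1 := y.2 _ (Set.mem_singleton _)
          have h2 : Sum.elim (fun i => y.1 (.inl i)) (fun i => y.1 (.inr i)) = y.1 := by
            funext i
            rcases i with i | i <;> rfl
          exact (key (fun i => y.1 (.inr i)) fun i => y.1 (.inl i)).symm.trans
            ((congrArg (fun z => aeval z _) h2).trans h1)⟩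
      inv_hom := fun _ => rfl
      hom_inv := fun y => by
        apply Subtype.ext
        funext i
        rcases i with i | i <;> rfl
      nat := fun f x => by
        apply Subtype.ext
        funext i
        rcases i with i | i <;> rfl }

/-- **systems** -/
theorem mem_sys [Finite k] (hP : StableClass p P) (hk : (p : k) = 0)
    (h : ∀ (n : ℕ) (c : J → k), P (MvPolynomial (Fin n ⊕ Fin m) k ⧸
      Ideal.span {parE α t s c n})) (n : ℕ) :
    ∀ c : J → k, (Ys (Af k m) (eqC α t s c n) (n + 1)).Mem (Pk P k) := by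
  induction n using Nat.strong_induction_on with
  | _ n ih =>
  intro c
  have h1 : (Un t s (tm α c) n).Mem (Pk P k) :=
    mem_un t s hP.toFormalClass hk n (tm α c) (mem_or α t s hP.toFormalClass hk c n (h n c))
  have h2 := Mem.of_iso (wfUn α t s c n) h1
  have h3 := strata hP hk (eqC α t s c n n) (eqC α t s c n) n 0 (by
    intro r' hr
    rcases Nat.eq_zero_or_pos r' with rfl | h0
    · exact Mem.of_iso (ysZero (Af k m) (eqC α t s c n)) (mem_af hP.toFormalClass hk)
    · obtain ⟨r, rfl⟩ := Nat.exists_eq_succ_of_ne_zero h0.ne'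
      exact Mem.of_iso (ysLower α t s c n r (by omega)) (ih r (by omega) _)) h2
  rw [zero_add] at h3
  exact Mem.of_iso (ysSucc (Af k m) (eqC α t s c n) n) h3

end Pool.Agent.Helper29.PF
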