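import Pool.Agent.Helper29.PF.Stable

/-!
# Systems of equations over an algebra: functors of points
-/

set_option autoImplicit false

namespace Pool.Agent.Helper29.PF

open Pool.Agent.Helper29.CQ Pool.Agent.Helper65.CC Pool.Agent.Helper87.CC
open Pool.Agent.Helper65.CC.KFn
open MvPolynomial (eval₂ eval₂Hom)

variable {p : ℕ} {P : ∀ (A : Type) [CommRing A], Prop} {k : Type} [Field k]
variable {T : Type} [CommRing T] [Algebra k T]

/-- the homomorphisms from an algebra -/
def HT (k T : Type) [Field k] [CommRing T] [Algebra k T] : KFn k where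
  obj R _ _ := T →ₐ[k] R
  map f x := f.comp x
  id_map x := AlgHom.id_comp x
  comp_map _ _ _ := rfl

/-- the homomorphism -/
def ev {R : Type} [CommRing R] [Algebra k R] (x : (HT k T).obj R) : T →ₐ[k] R := x

theorem rp_HT (hT : Algebra.FiniteType k T) : Rp (HT k T) :=
  ⟨T, _, _, AlgHom.id k T, hT, fun _ _ _ x => ⟨x, AlgHom.comp_id x, fun g hg => by
    rw [← hg]
    exact (AlgHom.comp_id g).symm⟩⟩

/-- the zeros of a set of polynomials over an algebra -/
def ZfT (k : Type) [Field k] {T : Type} [CommRing T] [Algebra k T] {κ : Type}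
    (E : Set (MvPolynomial κ T)) : KFn k where
  obj R _ _ := {x : (T →ₐ[k] R) × (κ → R) // ∀ q ∈ E, eval₂ (x.1 : T →+* R) x.2 q = 0}
  map f x := ⟨(f.comp x.1.1, fun i => f (x.1.2 i)), fun q hq => by
    have h1 := MvPolynomial.eval₂_comp_left f.toRingHom x.1.1.toRingHom x.1.2 q
    have h2 := x.2 q hq
    exact h1.symm.trans ((congrArg f h2).trans (map_zero f))⟩
  id_map x := Subtype.ext (Prod.ext (AlgHom.id_comp x.1.1) rfl)
  comp_map _ _ _ := rfl

theorem rep_ZfT {κ : Type} (E : Set (MvPolynomial κ T)) :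
    ∃ a, (ZfT k E).Rep (MvPolynomial κ T ⧸ Ideal.span E) a := by
  let c : T →ₐ[k] (MvPolynomial κ T ⧸ Ideal.span E) :=
    (Ideal.Quotient.mkₐ k (Ideal.span E)).comp (IsScalarTower.toAlgHom k T (MvPolynomial κ T))
  have h0 : ∀ q : MvPolynomial κ T, eval₂ (c : T →+* _) (fun i => Ideal.Quotient.mk (Ideal.span E)
      (MvPolynomial.X i)) q = Ideal.Quotient.mk (Ideal.span E) q := by
    intro q
    have h1 := MvPolynomial.eval₂_comp_left (Ideal.Quotient.mk (Ideal.span E)) MvPolynomial.C
      MvPolynomial.X q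
    rw [MvPolynomial.eval₂_eta] at h1
    exact h1.symm
  refine ⟨⟨(c, fun i => Ideal.Quotient.mk (Ideal.span E) (MvPolynomial.X i)),
    fun q hq => ?_⟩, ?_⟩
  · rw [h0]
    exact Ideal.Quotient.eq_zero_iff_mem.2 (Ideal.subset_span hq)
  · intro R _ _ x
    have h1 : ∀ a ∈ Ideal.span E, eval₂Hom (x.1.1 : T →+* R) x.1.2 a = 0 := by
      intro a ha
      have h2 : Ideal.span E ≤ RingHom.ker (eval₂Hom (x.1.1 : T →+* R) x.1.2) := by
        rw [Ideal.span_le]
        intro q hq
        exact x.2 q hq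
      exact h2 ha
    let g0 : (MvPolynomial κ T ⧸ Ideal.span E) →ₐ[k] R :=
      { Ideal.Quotient.lift (Ideal.span E) (eval₂Hom (x.1.1 : T →+* R) x.1.2) h1 with
        commutes' := fun r => by
          change eval₂Hom (x.1.1 : T →+* R) x.1.2 (algebraMap k (MvPolynomial κ T) r) = _
          rw [IsScalarTower.algebraMap_apply k T (MvPolynomial κ T), MvPolynomial.algebraMap_eq,
            MvPolynomial.eval₂Hom_C]
          exact x.1.1.commutes r }
    refine ⟨g0, ?_, ?_⟩
    · apply Subtype.ext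
      refine Prod.ext ?_ ?_
      · apply AlgHom.ext
        intro r
        change eval₂Hom (x.1.1 : T →+* R) x.1.2 (MvPolynomial.C r) = _
        rw [MvPolynomial.eval₂Hom_C]
        rfl
      · funext i
        change eval₂Hom (x.1.1 : T →+* R) x.1.2 (MvPolynomial.X i) = _
        rw [MvPolynomial.eval₂Hom_X']
    · intro g hg
      have h2 := congrArg Subtype.val hg
      apply AlgHom.coe_ringHom_injective
      apply Ideal.Quotient.ringHom_ext
      apply MvPolynomial.ringHom_ext
      · intro r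
        have h3 := DFunLike.congr_fun (congrArg Prod.fst h2) r
        change g (Ideal.Quotient.mk _ (MvPolynomial.C r)) = x.1.1 r at h3
        change g (Ideal.Quotient.mk _ (MvPolynomial.C r)) =
          eval₂Hom (x.1.1 : T →+* R) x.1.2 (MvPolynomial.C r)
        rw [h3, MvPolynomial.eval₂Hom_C]
        rfl
      · intro i
        have h3 := congrFun (congrArg Prod.snd h2) i
        change g (Ideal.Quotient.mk _ (MvPolynomial.X i)) = x.1.2 i at h3
        change g (Ideal.Quotient.mk _ (MvPolynomial.X i)) =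
          eval₂Hom (x.1.1 : T →+* R) x.1.2 (MvPolynomial.X i)
        rw [h3, MvPolynomial.eval₂Hom_X']

theorem ft_pqT {κ : Type} [Finite κ] (hT : Algebra.FiniteType k T)
    (E : Set (MvPolynomial κ T)) :
    Algebra.FiniteType k (MvPolynomial κ T ⧸ Ideal.span E) :=
  (hT.trans (inferInstance : Algebra.FiniteType T (MvPolynomial κ T))).of_surjective
    (Ideal.Quotient.mkₐ k _) (Ideal.Quotient.mkₐ_surjective k _)

theorem rp_ZfT {κ : Type} [Finite κ] (hT : Algebra.FiniteType k T)
    (E : Set (MvPolynomial κ T)) : Rp (ZfT k E) := by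
  obtain ⟨a, ha⟩ := rep_ZfT (k := k) E
  exact ⟨_, _, _, a, ft_pqT hT E, ha⟩

theorem mem_ZfT [Finite k] (hP : FormalClass p P) (hk : (p : k) = 0) {κ : Type}
    {E : Set (MvPolynomial κ T)} (h : P (MvPolynomial κ T ⧸ Ideal.span E)) :
    (ZfT k E).Mem (Pk P k) := by
  obtain ⟨a, ha⟩ := rep_ZfT (k := k) E
  exact Mem.of_rep (kops hP hk) ha h

theorem of_mem_ZfT {κ : Type} [Finite κ] (hT : Algebra.FiniteType k T)
    {E : Set (MvPolynomial κ T)} (h : (ZfT k E).Mem (Pk P k)) :
    P (MvPolynomial κ T ⧸ Ideal.span E) := by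
  obtain ⟨a, ha⟩ := rep_ZfT (k := k) E
  exact h _ a (ft_pqT hT E) ha

end Pool.Agent.Helper29.PF
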