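import Pool.Agent.Helper29.PF.Unord
import Pool.Agent.Helper29.PF.ZfT

/-!
# Systems of equations with affinely independent exponents and coefficients on a rational normal
curve, over an algebra
-/

set_option autoImplicit false

namespace Pool.Agent.Helper29.PF

open Pool.Agent.Helper29.CQ Pool.Agent.Helper65.CC Pool.Agent.Helper87.CC
open Pool.Agent.Helper65.CC.KFn
open MvPolynomial (eval₂ C X monomial)

variable {p : ℕ} {P : ∀ (A : Type) [CommRing A], Prop} {k : Type} [Field k]
variable {T : Type} [CommRing T] [Algebra k T]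
variable {J : Type} [Fintype J] {m : ℕ} (α : J → Fin m → ℕ) (t s : J → k)

/-- the affine space -/
abbrev AT (k T : Type) [Field k] [CommRing T] [Algebra k T] (m : ℕ) : KFn k := pw (HT k T) m

/-- the terms -/
def tmT (c : J → T) : J → Coord (AT k T m) := fun j =>
  { val := fun {R} _ _ x => ev x.1 (c j) * ∏ i, x.2 i ^ α j i
    nat := fun f x => by
      rw [map_mul, map_prod]
      congr 1
      refine Finset.prod_congr rfl fun i _ => ?_
      rw [map_pow]
      rfl }

/-- the equations -/
def eqT (c : J → T) (n : ℕ) : ℕ → Coord (AT k T m) := fun i =>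
  { val := fun {R} _ _ x => ∑ j, ev x.1 (c j) *
      algebraMap k R (t j ^ i * s j ^ (n - i)) * ∏ l, x.2 l ^ α j l
    nat := fun f x => by
      rw [map_sum]
      refine Finset.sum_congr rfl fun j _ => ?_
      rw [map_mul f, map_mul f, f.commutes, map_prod]
      congr 1
      refine Finset.prod_congr rfl fun i _ => ?_
      rw [map_pow]
      rfl }

/-- the incidence variety is the variety with unordered parameters -/
def wfUnT (c : J → T) (n : ℕ) :
    Iso (Wf (eqT α t s c n n) (eqT α t s c n) n 0) (Un t s (tmT α c) n) :=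
  have key : ∀ {R : Type} [CommRing R] [Algebra k R] (x : (AT k T m).obj R) (e : Fin n → R),
      (∑ j, (tmT α c j).val x * pol n e (algebraMap k R (t j)) (algebraMap k R (s j))) =
        (eqT α t s c n n).val x + ∑ i : Fin n, e i * (eqT α t s c n (0 + i)).val x := by
    intro R _ _ x e
    have h1 : ∀ i : Fin n, e i * (eqT α t s c n (0 + i)).val x = ∑ j, e i *
        (ev x.1 (c j) * algebraMap k R (t j ^ (i : ℕ) * s j ^ (n - i)) *
          ∏ l, x.2 l ^ α j l) := by
      intro i
      rw [zero_add, ← Finset.mul_sum]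
      rfl
    have h2 : (eqT α t s c n n).val x = ∑ j, ev x.1 (c j) *
      algebraMap k R (t j ^ n * s j ^ (n - n)) * ∏ l, x.2 l ^ α j l := rfl
    rw [Finset.sum_congr rfl fun i _ => h1 i, h2, Finset.sum_comm, ← Finset.sum_add_distrib]
    refine Finset.sum_congr rfl fun j _ => ?_
    rw [pol]
    change ev x.1 (c j) * (∏ l, x.2 l ^ α j l) * _ = _
    rw [mul_add, Finset.mul_sum, Nat.sub_self, pow_zero, mul_one, map_pow]
    congr 1
    · ring
    · refine Finset.sum_congr rfl fun i _ => ?_
      rw [map_mul (algebraMap k R), map_pow, map_pow]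
      ring
  { hom := fun x => ⟨(x.1.1.1, x.1.2), (key x.1.1.1 x.1.2).trans x.2⟩
    inv := fun x => ⟨(⟨x.1.1, fun _ h => absurd h (Nat.not_lt_zero _)⟩, x.1.2),
      (key x.1.1 x.1.2).symm.trans x.2⟩
    inv_hom := fun _ => rfl
    hom_inv := fun _ => rfl
    nat := fun _ _ => rfl }

/-- fewer equations -/
def ysLowerT (c : J → T) (n r : ℕ) (hr : r ≤ n) :
    Iso (Ys (AT k T m) (eqT α t s c n) (r + 1))
      (Ys (AT k T m) (eqT α t s (fun j => c j * algebraMap k T (s j ^ (n - r))) r) (r + 1)) :=
  have key : ∀ {R : Type} [CommRing R] [Algebra k R] (x : (AT k T m).obj R) (i : ℕ), i < r + 1 →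
      (eqT α t s c n i).val x =
        (eqT α t s (fun j => c j * algebraMap k T (s j ^ (n - r))) r i).val x := by
    intro R _ _ x i hi
    refine Finset.sum_congr rfl fun j _ => ?_
    congr 1
    have h1 : n - i = (n - r) + (r - i) := by omega
    have h2 : ev x.1 (c j * algebraMap k T (s j ^ (n - r))) =
        ev x.1 (c j) * algebraMap k R (s j ^ (n - r)) := by
      rw [map_mul, AlgHom.commutes]
    change ev x.1 (c j) * algebraMap k R (t j ^ i * s j ^ (n - i)) =
      ev x.1 (c j * algebraMap k T (s j ^ (n - r))) * algebraMap k R (t j ^ i * s j ^ (r - i))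
    rw [h2, h1, pow_add, mul_assoc, ← map_mul (algebraMap k R)]
    congr 2
    ring
  { hom := fun x => ⟨x.1, fun i hi => (key x.1 i hi).symm.trans (x.2 i hi)⟩
    inv := fun x => ⟨x.1, fun i hi => (key x.1 i hi).trans (x.2 i hi)⟩
    inv_hom := fun _ => rfl
    hom_inv := fun _ => rfl
    nat := fun _ _ => rfl }

/-- the equation with ordered parameters -/
noncomputable def parT (c : J → T) (n : ℕ) : MvPolynomial (Fin n ⊕ Fin m) T :=
  ∑ j, C (c j) * (∏ i : Fin n, (C (algebraMap k T (t j)) - C (algebraMap k T (s j)) *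
    X (Sum.inl i))) * ∏ i, X (Sum.inr i) ^ α j i

/-- the equation with ordered parameters -/
theorem mem_orT [Finite k] (hP : FormalClass p P) (hk : (p : k) = 0) (c : J → T) (n : ℕ)
    (h : P (MvPolynomial (Fin n ⊕ Fin m) T ⧸ Ideal.span {parT α t s c n})) :
    (Or t s (tmT α c) n).Mem (Pk P k) := by
  refine Mem.of_iso ?_ (mem_ZfT (k := k) hP hk h)
  have key : ∀ {R : Type} [CommRing R] [Algebra k R] (f : T →ₐ[k] R) (x : Fin m → R)
      (l : Fin n → R), eval₂ (f : T →+* R) (Sum.elim l x) (parT α t s c n) =
        ∑ j, f (c j) * (∏ i, x i ^ α j i) *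
          ∏ a : Fin n, (algebraMap k R (t j) - l a * algebraMap k R (s j)) := by
    intro R _ _ f x l
    have h0 : ∀ q : MvPolynomial (Fin n ⊕ Fin m) T, eval₂ (f : T →+* R) (Sum.elim l x) q =
        MvPolynomial.eval₂Hom (f : T →+* R) (Sum.elim l x) q := fun _ => rfl
    rw [h0, parT, map_sum]
    refine Finset.sum_congr rfl fun j _ => ?_
    simp only [map_mul, map_prod, map_sub, map_pow, MvPolynomial.eval₂Hom_X',
      MvPolynomial.eval₂Hom_C, Sum.elim_inl, Sum.elim_inr, RingHom.coe_coe, AlgHom.commutes]
    rw [mul_right_comm]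
    congr 1
    refine Finset.prod_congr rfl fun a _ => ?_
    rw [mul_comm (l a)]
  exact
    { hom := fun x => ⟨(x.1.1.1, Sum.elim x.1.2 x.1.1.2), by
        intro q hq
        rw [Set.mem_singleton_iff.1 hq]
        exact (key x.1.1.1 x.1.1.2 x.1.2).trans x.2⟩
      inv := fun y => ⟨((y.1.1, fun i => y.1.2 (.inr i)), fun i => y.1.2 (.inl i)), by
          have h1 := y.2 _ (Set.mem_singleton _)
          have h2 : Sum.elim (fun i => y.1.2 (.inl i)) (fun i => y.1.2 (.inr i)) = y.1.2 := by
            funext i
            rcases i with i | i <;> rfl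
          exact (key y.1.1 (fun i => y.1.2 (.inr i)) fun i => y.1.2 (.inl i)).symm.trans
            ((congrArg (fun z => eval₂ (y.1.1 : T →+* _) z _) h2).trans h1)⟩
      inv_hom := fun _ => rfl
      hom_inv := fun y => by
        apply Subtype.ext
        refine Prod.ext rfl ?_
        funext i
        rcases i with i | i <;> rfl
      nat := fun f x => by
        apply Subtype.ext
        refine Prod.ext rfl ?_
        funext i
        rcases i with i | i <;> rfl }

/-- **systems** -/
theorem mem_sysT [Finite k] (hP : StableClass p P) (hk : (p : k) = 0)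
    (hT : Algebra.FiniteType k T) (hPT : P T) {c : J → T}
    (h : ∀ (n : ℕ) (e : J → k), P (MvPolynomial (Fin n ⊕ Fin m) T ⧸
      Ideal.span {parT α t s (fun j => c j * algebraMap k T (e j)) n})) (n : ℕ) :
    ∀ e : J → k, (Ys (AT k T m) (eqT α t s (fun j => c j * algebraMap k T (e j)) n)
      (n + 1)).Mem (Pk P k) := by
  have hr : Rp (HT k T) := rp_HT hT
  have hA : (AT k T m).Mem (Pk P k) := by
    refine mem_pw hP.toFormalClass hk ?_ m
    refine Mem.of_rep (kops hP.toFormalClass hk) (A := T) (a := AlgHom.id k T)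
      (fun _ _ _ x => ⟨x, AlgHom.comp_id x, fun g hg => ?_⟩) hPT
    rw [← hg]
    exact (AlgHom.comp_id g).symm
  induction n using Nat.strong_induction_on with
  | _ n ih =>
  intro e
  set c' : J → T := fun j => c j * algebraMap k T (e j) with hc'
  have h1 : (Un t s (tmT α c') n).Mem (Pk P k) :=
    mem_un t s hP.toFormalClass hk n (tmT α c') (mem_orT α t s hP.toFormalClass hk c' n (h n e))
  have h2 := Mem.of_iso (wfUnT α t s c' n) h1
  have h3 := strata hP hk (eqT α t s c' n n) (eqT α t s c' n) n 0 (by
    intro r' hr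
    rcases Nat.eq_zero_or_pos r' with rfl | h0
    · exact Mem.of_iso (ysZero (AT k T m) (eqT α t s c' n)) hA
    · obtain ⟨r, rfl⟩ := Nat.exists_eq_succ_of_ne_zero h0.ne'
      have h4 := ih r (by omega) fun j => e j * s j ^ (n - r)
      have h5 : (fun j => c j * algebraMap k T (e j * s j ^ (n - r))) =
          fun j => c' j * algebraMap k T (s j ^ (n - r)) := by
        funext j
        rw [hc', map_mul (algebraMap k T), mul_assoc]
      rw [h5] at h4
      exact Mem.of_iso (ysLowerT α t s c' n r (by omega)) h4) h2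
  rw [zero_add] at h3
  exact Mem.of_iso (ysSucc (AT k T m) (eqT α t s c' n) n) h3

end Pool.Agent.Helper29.PF
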