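import Pool.Agent.Helper29.PF.MainT

/-!
# Two linear equations between forms
-/

set_option autoImplicit false

namespace Pool.Agent.Helper29.PF

open Pool.Agent.Helper67.SF (Form)
open MvPolynomial (C X monomial rename)

variable {p : ℕ} {P : ∀ (A : Type) [CommRing A], Prop}

theorem affine_option (s : ℕ) : AffineIndependent ℚ (fun (j : Option (Fin s)) (i : Fin s) =>
    (((j.elim 0 fun i => Finsupp.single i 1 : Fin s →₀ ℕ) i : ℕ) : ℚ)) := by
  rw [affineIndependent_iff]
  intro S w hw0 hw1
  have h2 : ∀ i : Fin s, some i ∈ S → w (some i) = 0 := by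
    intro i hi
    have h3 := congrFun hw1 i
    rw [Finset.sum_apply, Finset.sum_eq_single_of_mem (some i) hi] at h3
    · simpa using h3
    · intro j _ hj
      rcases j with _ | j
      · simp
      · have hij : j ≠ i := fun h => hj (by rw [h])
        simp [Finsupp.single_apply, hij]
  intro j hj
  rcases j with _ | j
  · rw [Finset.sum_eq_single_of_mem none hj] at hw0
    · exact hw0
    · intro b hb hbn
      rcases b with _ | b
      · exact absurd rfl hbn
      · exact h2 b hb
  · exact h2 j hj

/-- two linear equations are a normal system -/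
theorem normal_two (hp : p.Prime) {k : Type} [Field k] [Finite k] (hk : (p : k) = 0) {s : ℕ}
    (a b : Option (Fin s) → k) : IsNormal p
      ({C (a none) + ∑ j, C (a (some j)) * X j, C (b none) + ∑ j, C (b (some j)) * X j} :
        Set (MvPolynomial (Fin s) k)) := by
  refine ⟨k, inferInstance, inferInstance, inferInstance, Option (Fin s), inferInstance,
    fun j => j.elim 0 fun i => Finsupp.single i 1, fun _ => 1, b, a, 2,
    Pool.Agent.Helper67.CQ.prod_const hp hk _, affine_option s, ?_⟩
  have key : ∀ e : Option (Fin s) → k,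
      (∑ j : Option (Fin s), monomial (j.elim 0 fun i => Finsupp.single i 1 : Fin s →₀ ℕ) (e j)) =
        C (e none) + ∑ j, C (e (some j)) * X j := by
    intro e
    rw [Fintype.sum_option]
    congr 1
    refine Finset.sum_congr rfl fun j _ => ?_
    rw [MvPolynomial.C_mul_X_eq_monomial]
    rfl
  ext q
  simp only [Set.mem_insert_iff, Set.mem_singleton_iff, Set.mem_range, Algebra.algebraMap_self,
    RingHom.id_apply, one_mul]
  constructor
  · rintro (rfl | rfl)
    · refine ⟨0, ?_⟩
      rw [← key]
      refine Finset.sum_congr rfl fun j _ => ?_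
      congr 1
      simp
    · refine ⟨1, ?_⟩
      rw [← key]
      refine Finset.sum_congr rfl fun j _ => ?_
      congr 1
      simp
  · rintro ⟨i, rfl⟩
    fin_cases i
    · left
      rw [← key]
      refine Finset.sum_congr rfl fun j _ => ?_
      congr 1
      simp
    · right
      rw [← key]
      refine Finset.sum_congr rfl fun j _ => ?_
      congr 1
      simp

/-- **Two linear equations between forms.** -/
theorem two_linear (hp : p.Prime) (hP : StableClass p P) {k : Type} [Field k] [Finite k]
    [CharP k p] {s : ℕ} {σ : Fin s → Type} [∀ j, Fintype (σ j)]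
    {F : ∀ j, MvPolynomial (σ j) k} {d : Fin s → ℕ} (hF : ∀ j, Form (F j) (d j)) (a₀ b₀ : k)
    (a b : Fin s → k) :
    P (MvPolynomial (Σ j, σ j) k ⧸ Ideal.span {C a₀ + ∑ j, C (a j) * rename (Sigma.mk j) (F j),
      C b₀ + ∑ j, C (b j) * rename (Sigma.mk j) (F j)}) := by
  have hk : (p : k) = 0 := CharP.cast_eq_zero k p
  have h1 : IsGoodSystem p ({C a₀ + ∑ j, C (a j) * X j, C b₀ + ∑ j, C (b j) * X j} :
      Set (MvPolynomial (Fin s) k)) := by
    refine Or.inr ⟨k, inferInstance, inferInstance, inferInstance, inferInstance, inferInstance,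
      _, normal_two hp hk (fun j => j.elim a₀ a) (fun j => j.elim b₀ b), ?_⟩
    congr 1
    rw [Set.image_pair]
    simp
  have h2 := mainT hp hP (T := k) inferInstance hF h1
  have h3 : ∀ (c₀ : k) (c : Fin s → k), compT (C c₀ + ∑ j, C (c j) * X j) F =
      C c₀ + ∑ j, C (c j) * rename (Sigma.mk j) (F j) := by
    intro c₀ c
    simp [compT, MvPolynomial.algebraMap_eq, MvPolynomial.map_id]
  rw [Set.image_pair, h3, h3] at h2
  exact h2

end Pool.Agent.Helper29.PF
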