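import Pool.Agent.Helper67.CQ.Comp2
import Pool.Agent.Helper29.CQ.Fun

/-!
# Systems of equations in forms: functors of points over a finite field
-/

set_option autoImplicit false

namespace Pool.Agent.Helper29.PF

open Pool.Agent.Helper29.CQ Pool.Agent.Helper65.CC Pool.Agent.Helper87.CC
open Pool.Agent.Helper65.CC.KFn
open MvPolynomial (aeval eval₂ eval₂Hom rename IsWeightedHomogeneous)

variable {p : ℕ} {P : ∀ (A : Type) [CommRing A], Prop} {k : Type} [Field k]

/-- the class as a class of algebras over a field -/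
def Pk (P : ∀ (A : Type) [CommRing A], Prop) (k : Type) [Field k] :
    ∀ (R : Type) [CommRing R] [Algebra k R], Prop := fun R _ _ => P R

theorem ftZ [Finite k] {R : Type} [CommRing R] [Algebra k R] (h : Algebra.FiniteType k R) :
    Algebra.FiniteType ℤ R := by
  have h1 : Algebra.FiniteType ℤ k := by
    have : Module.Finite ℤ k := Module.Finite.of_finite
    infer_instance
  exact h1.trans h

theorem char0 (hk : (p : k) = 0) {R : Type} [CommRing R] [Algebra k R] : (p : R) = 0 := by
  rw [← map_natCast (algebraMap k R), hk, map_zero]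

/-- the closure properties -/
theorem kops [Finite k] (hP : FormalClass p P) (hk : (p : k) = 0) : KOps k (Pk P k) where
  ft R _ _ h := by
    have h1 : Algebra.FiniteType ℤ R := hP.ft R h
    exact Algebra.FiniteType.of_restrictScalars_finiteType ℤ k R
  zero R _ _ h := by
    refine hP.curve R ?_ (char0 hk) ?_
    · exact (inferInstance : Algebra.FiniteType ℤ ℤ).of_surjective (Algebra.ofId ℤ R)
        fun x => ⟨0, Subsingleton.elim _ _⟩
    · rw [ringKrullDim_eq_bot_of_subsingleton]
      exact bot_le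
  iso R S _ _ _ _ e h := hP.iso R S e.toRingEquiv h
  glue R _ _ f hR h1 h2 := hP.glue R f (ftZ hR) (char0 hk) h1 h2
  closed R _ _ f h1 h2 := hP.closed R f h1 h2
  opn R _ _ f h1 h2 := hP.opn R f h1 h2
  poly R _ _ h := hP.poly R h

/-- the zeros of a set of polynomials -/
def Zf {κ : Type} (E : Set (MvPolynomial κ k)) : KFn k where
  obj R _ _ := {x : κ → R // ∀ q ∈ E, aeval x q = 0}
  map f x := ⟨fun i => f (x.1 i), fun q hq => by
    have h1 := MvPolynomial.comp_aeval_apply (R := k) x.1 f q
    rw [← h1, x.2 q hq, map_zero]⟩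
  id_map _ := rfl
  comp_map _ _ _ := rfl

theorem rep_Zf {κ : Type} (E : Set (MvPolynomial κ k)) :
    ∃ a, (Zf E).Rep (MvPolynomial κ k ⧸ Ideal.span E) a := by
  have h0 : ∀ q : MvPolynomial κ k, aeval (fun i => Ideal.Quotient.mkₐ k (Ideal.span E)
      (MvPolynomial.X i)) q = Ideal.Quotient.mkₐ k (Ideal.span E) q := by
    intro q
    rw [← MvPolynomial.comp_aeval_apply, MvPolynomial.aeval_X_left, AlgHom.id_apply]
  refine ⟨⟨fun i => Ideal.Quotient.mkₐ k (Ideal.span E) (MvPolynomial.X i), fun q hq => ?_⟩, ?_⟩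
  · rw [h0]
    exact Ideal.Quotient.eq_zero_iff_mem.2 (Ideal.subset_span hq)
  · intro R _ _ x
    have h1 : ∀ a ∈ Ideal.span E, aeval x.1 a = 0 := by
      intro a ha
      have h2 : Ideal.span E ≤ RingHom.ker (aeval x.1 : MvPolynomial κ k →ₐ[k] R) := by
        rw [Ideal.span_le]
        intro q hq
        exact x.2 q hq
      exact h2 ha
    refine ⟨Ideal.Quotient.liftₐ (Ideal.span E) (aeval x.1) h1, ?_, ?_⟩
    · apply Subtype.ext
      funext i
      change Ideal.Quotient.liftₐ (Ideal.span E) (aeval x.1) h1 (Ideal.Quotient.mk _ _) = _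
      exact MvPolynomial.aeval_X x.1 i
    · intro g hg
      apply Ideal.Quotient.algHom_ext
      apply MvPolynomial.algHom_ext
      intro i
      have h2 := congrFun (congrArg Subtype.val hg) i
      change g (Ideal.Quotient.mk _ _) = x.1 i at h2
      change g (Ideal.Quotient.mk _ _) = aeval x.1 (MvPolynomial.X i)
      rw [h2, MvPolynomial.aeval_X]

instance {κ : Type} [Finite κ] (E : Set (MvPolynomial κ k)) : Rp (Zf E) := by
  obtain ⟨a, ha⟩ := rep_Zf E
  exact ⟨_, _, _, a, (inferInstance : Algebra.FiniteType k (MvPolynomial κ k)).of_surjective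
    (Ideal.Quotient.mkₐ k _) (Ideal.Quotient.mkₐ_surjective k _), ha⟩

theorem mem_Zf [Finite k] (hP : FormalClass p P) (hk : (p : k) = 0) {κ : Type}
    {E : Set (MvPolynomial κ k)} (h : P (MvPolynomial κ k ⧸ Ideal.span E)) :
    (Zf E).Mem (Pk P k) := by
  obtain ⟨a, ha⟩ := rep_Zf E
  exact Mem.of_rep (kops hP hk) ha h

theorem of_mem_Zf {κ : Type} [Finite κ] {E : Set (MvPolynomial κ k)}
    (h : (Zf E).Mem (Pk P k)) : P (MvPolynomial κ k ⧸ Ideal.span E) := by
  obtain ⟨a, ha⟩ := rep_Zf E
  exact h _ a ((inferInstance : Algebra.FiniteType k (MvPolynomial κ k)).of_surjective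
    (Ideal.Quotient.mkₐ k _) (Ideal.Quotient.mkₐ_surjective k _)) ha

/-- the roots of a coordinate -/
def root (F : KFn k) (c : Coord F) (d : ℕ) : KFn k :=
  F.line.cls ⟨fun x => x.2 ^ d - c.val x.1, fun f x => by
    rw [map_sub, map_pow, c.nat]
    rfl⟩

instance (F : KFn k) [Rp F] (c : Coord F) (d : ℕ) : Rp (root F c d) := by
  unfold root
  infer_instance

theorem rep_root {F : KFn k} (c : Coord F) (d : ℕ) {A : Type} [CommRing A] [Algebra k A]
    {a : F.obj A} (ha : F.Rep A a) : ∃ b, (root F c d).Rep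
      (AdjoinRoot (Polynomial.X ^ d - Polynomial.C (c.val a) : Polynomial A)) b := by
  set g : Polynomial A := Polynomial.X ^ d - Polynomial.C (c.val a) with hg
  let ι : A →ₐ[k] AdjoinRoot g := IsScalarTower.toAlgHom k A (AdjoinRoot g)
  have hι : ∀ x, ι x = AdjoinRoot.of g x := fun x => rfl
  have hroot : AdjoinRoot.root g ^ d - c.val (F.map ι a) = 0 := by
    have h1 := AdjoinRoot.eval₂_root g
    rw [← c.nat, hι]
    rw [hg] at h1 ⊢
    simpa using h1
  refine ⟨⟨(F.map ι a, AdjoinRoot.root g), hroot⟩, ?_⟩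
  intro R _ _ x
  obtain ⟨f, hf, hu⟩ := ha R x.1.1
  have hx : x.1.2 ^ d - c.val x.1.1 = 0 := x.2
  have he : Polynomial.eval₂ (f : A →+* R) x.1.2 g = 0 := by
    rw [hg, Polynomial.eval₂_sub, Polynomial.eval₂_pow, Polynomial.eval₂_X, Polynomial.eval₂_C]
    change x.1.2 ^ d - f (c.val a) = 0
    rw [c.nat, hf]
    exact hx
  let g0 : AdjoinRoot g →ₐ[k] R :=
    { AdjoinRoot.lift (f : A →+* R) x.1.2 he with
      commutes' := fun r => by
        rw [IsScalarTower.algebraMap_apply k A (AdjoinRoot g)]
        change AdjoinRoot.lift (f : A →+* R) x.1.2 he (AdjoinRoot.of g _) = _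
        rw [AdjoinRoot.lift_of]
        exact f.commutes r }
  have hg0 : g0.comp ι = f := by
    ext b
    change AdjoinRoot.lift (f : A →+* R) x.1.2 he (AdjoinRoot.of g _) = _
    rw [AdjoinRoot.lift_of]
    rfl
  have hX : g0 (AdjoinRoot.root g) = x.1.2 := by
    change AdjoinRoot.lift (f : A →+* R) x.1.2 he (AdjoinRoot.root g) = _
    rw [AdjoinRoot.lift_root]
  refine ⟨g0, ?_, ?_⟩
  · apply Subtype.ext
    refine Prod.ext ?_ hX
    change F.map _ (F.map _ a) = x.1.1
    rw [← F.comp_map, hg0, hf]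
  · intro g' hg'
    have h0 := congrArg Subtype.val hg'
    have h1 : g'.comp ι = f := by
      apply hu
      rw [F.comp_map]
      exact congrArg Prod.fst h0
    have h2 : g' (AdjoinRoot.root g) = x.1.2 := congrArg Prod.snd h0
    apply AlgHom.coe_ringHom_injective
    apply AdjoinRoot.ringHom_ext
    · ext b
      exact DFunLike.congr_fun (h1.trans hg0.symm) b
    · exact h2.trans hX.symm

/-- the points where a coordinate is the value of a form in new variables -/
def lev (F : KFn k) (c : Coord F) {σ : Type} (g : MvPolynomial σ k) : KFn k where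
  obj R _ _ := {x : F.obj R × (σ → R) // c.val x.1 = aeval x.2 g}
  map f x := ⟨(F.map f x.1.1, fun i => f (x.1.2 i)), by
    have h1 := MvPolynomial.comp_aeval_apply (R := k) x.1.2 f g
    rw [← c.nat, x.2, h1]⟩
  id_map x := Subtype.ext (Prod.ext (F.id_map x.1.1) rfl)
  comp_map f g x := Subtype.ext (Prod.ext (F.comp_map f g x.1.1) rfl)

/-- **the step** -/
theorem mem_lev [Finite k] (hP : FormalClass p P) (hk : (p : k) = 0) {F : KFn k} [hF : Rp F]
    (c : Coord F) {σ : Type} [Fintype σ] {g : MvPolynomial σ k} {d : ℕ} (hg : Pool.Agent.Helper67.CQ.GoodD P g d)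
    (h1 : (F.cls c).Mem (Pk P k)) (h2 : (root F c d).Mem (Pk P k)) :
    (lev F c g).Mem (Pk P k) := by
  obtain ⟨B, _, _, b0, hB, hb0⟩ := hF.out
  obtain ⟨hd, ⟨w, hw⟩, h3, h4⟩ := hg
  intro A _ _ a hA ha
  obtain ⟨i, hi, hiu⟩ := hb0 A a.1.1
  have hcb : ∀ {E : Type} [CommRing E] [Algebra k E] (u : B →ₐ[k] E),
      c.val (F.map u b0) = u (c.val b0) := fun u => (c.nat u b0).symm
  have hJ : Pool.Agent.Helper67.CQ.IsJ (i : B →+* A) a.1.2 (-(c.val b0)) g := by
    refine ⟨?_, ?_, ?_⟩
    · have h5 : c.val a.1.1 = aeval a.1.2 g := a.2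
      have h6 : eval₂ ((i : B →+* A).comp (algebraMap k B)) a.1.2 g = aeval a.1.2 g := by
        rw [MvPolynomial.aeval_def]
        congr 1
        exact i.comp_algebraMap
      rw [h6, ← h5, ← hi, hcb]
      change i (-(c.val b0)) + i (c.val b0) = 0
      rw [map_neg, neg_add_cancel]
    · intro E _ u y hy
      let _ : Algebra k E := (u.comp (algebraMap k B)).toAlgebra
      let u' : B →ₐ[k] E := { u with commutes' := fun _ => rfl }
      have h6 : c.val (F.map u' b0) = aeval y g := by
        rw [hcb]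
        have h7 : aeval y g = eval₂ (u.comp (algebraMap k B)) y g := rfl
        rw [h7, ← sub_eq_zero, ← neg_eq_zero, neg_sub, sub_eq_neg_add, ← map_neg]
        exact hy
      obtain ⟨h, hh, -⟩ := ha E ⟨(F.map u' b0, y), h6⟩
      have h8 := congrArg Subtype.val hh
      refine ⟨(h : A →+* E), ?_, fun s => congrFun (congrArg Prod.snd h8) s⟩
      have h9 : h.comp i = u' := by
        apply hb0.ext
        rw [F.comp_map, hi]
        exact congrArg Prod.fst h8
      exact congrArg (fun v : B →ₐ[k] E => (v : B →+* E)) h9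
    · intro E _ h h' h5 h6
      let _ : Algebra k E := (h.comp (algebraMap k A)).toAlgebra
      let v : A →ₐ[k] E := { h with commutes' := fun _ => rfl }
      let v' : A →ₐ[k] E :=
        { h' with
          commutes' := fun r => by
            have h7 := RingHom.congr_fun h5 (algebraMap k B r)
            change h (i (algebraMap k B r)) = h' (i (algebraMap k B r)) at h7
            rw [i.commutes] at h7
            exact h7.symm }
      have h8 : v = v' := by
        apply ha.ext
        apply Subtype.ext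
        refine Prod.ext ?_ (funext h6)
        change F.map v a.1.1 = F.map v' a.1.1
        rw [← hi, ← F.comp_map, ← F.comp_map]
        congr 1
        apply AlgHom.coe_ringHom_injective
        exact h5
      exact congrArg (fun v : A →ₐ[k] E => (v : A →+* E)) h8
  refine Pool.Agent.Helper67.CQ.joinZ hP (ftZ hB) (char0 hk) _ hd hw h3 h4 ?_ ?_ hJ
  · obtain ⟨b, hb⟩ := hb0.cls c
    rw [Ideal.span_singleton_neg]
    exact h1 _ b (ft_quot hB _) hb
  · obtain ⟨b, hb⟩ := rep_root c d hb0
    rw [neg_neg]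
    exact h2 _ b (hB.trans (inferInstance : Algebra.FiniteType B (AdjoinRoot
      (Polynomial.X ^ d - Polynomial.C (c.val b0) : Polynomial B)))) hb

end Pool.Agent.Helper29.PF
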